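import Pool.Agent.N846.DT.Parts

/-! The density theorem: assembly. -/

set_option autoImplicit false

namespace Pool.Agent.N846.DT

open Filter Topology Complex MeasureTheory Set

/-- the full statement for a given `n` and `ε` -/
def Density (n : ℕ) (ε : ℝ) : Prop := ∃ A : ℝ, 0 < A ∧
  ∀ (ι : Type) (α : ι → Nat.Primes → Fin n → ℂ) (μ : ι → Fin n → ℂ), SphericalFamily α μ →
    (∀ (δ Q : ℝ) (γ : ι → ℝ) (S : Set ι), 0 ≤ δ → 1 ≤ Q →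
      (∀ f ∈ S, ∃ k, (μ f k).im = γ f ∧ δ ≤ |(μ f k).re|) →
      (∀ f ∈ S, ∀ g ∈ S, ∏ k, ∏ l, (1 + |((μ f k).im - γ f) - ((μ g l).im - γ g)|) ≤ Q) →
      S.Finite ∧ (S.ncard : ℝ) ≤ A * Q ^ (dens δ + ε)) ∧
    (∀ (p : Nat.Primes) (δ Q : ℝ) (S : Set ι), 0 ≤ δ → 1 ≤ Q →
      (∀ f ∈ S, ∃ k, δ ≤ |Real.logb ((p : ℕ) : ℝ) ‖α f p k‖|) →
      (∀ f ∈ S, ∀ g ∈ S, ∏ k, ∏ l, (1 + |(μ f k).im - (μ g l).im|) ≤ Q) →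
      S.Finite ∧ (S.ncard : ℝ) ≤ A * (((p : ℕ) : ℝ) ^ (2 * n ^ 2) * Q) ^ (dens δ + ε)) ∧
    (∀ δ T : ℝ, 0 < δ → 1 ≤ T →
      {f | (∀ k, |(μ f k).im| ≤ T) ∧ ∃ k, δ ≤ |(μ f k).re|}.Finite ∧
      ({f | (∀ k, |(μ f k).im| ≤ T) ∧ ∃ k, δ ≤ |(μ f k).re|}.ncard : ℝ) ≤
        A * T ^ (((n ^ 2 - 4 : ℕ) : ℝ) * (dens δ + ε))) ∧
    (∀ (p : Nat.Primes) (δ T : ℝ), 0 ≤ δ → 1 ≤ T →
      {f | (∀ k, |(μ f k).im| ≤ T) ∧ ∃ k, δ ≤ |Real.logb ((p : ℕ) : ℝ) ‖α f p k‖|}.Finite ∧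
      ({f | (∀ k, |(μ f k).im| ≤ T) ∧ ∃ k, δ ≤ |Real.logb ((p : ℕ) : ℝ) ‖α f p k‖|}.ncard : ℝ) ≤
        A * (((p : ℕ) : ℝ) ^ 2 * T) ^ (((n ^ 2 : ℕ) : ℝ) * (dens δ + ε))) ∧
    (n = 3 → (∀ f, ∑ i, μ f i = 0) → ∀ δ T : ℝ, 0 < δ →
      {f | ∃ k, |(μ f k).im - T| ≤ 1 ∧ δ ≤ |(μ f k).re|}.Finite ∧
      ({f | ∃ k, |(μ f k).im - T| ≤ 1 ∧ δ ≤ |(μ f k).re|}.ncard : ℝ) ≤ A * (1 + |T|) ^ (4 * (dens δ + ε)))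

theorem density (hP : S_PAIR) (hDi : S_DIAG) (hPP : S_PAIRP) {n : ℕ} (hn : 2 ≤ n) {ε : ℝ} (hε : 0 < ε) :
    Density n ε := by
  obtain ⟨A1, h10, h1⟩ := real_all (n := n) hP hDi hn hε
  obtain ⟨A2, h20, h2⟩ := fin_all (n := n) hP hDi hPP hn hε
  obtain ⟨A3, h30, h3⟩ := real_ball (n := n) hP hDi hn hε
  obtain ⟨A4, h40, h4⟩ := fin_ball (n := n) hP hDi hPP hn hε
  obtain ⟨A5, h50, h5⟩ := real_window hP hDi hε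
  have hm : ∀ {x a b : ℝ}, 0 < a → a ≤ A1 + A2 + A3 + A4 + A5 → 0 ≤ b → x ≤ a * b →
      x ≤ (A1 + A2 + A3 + A4 + A5) * b := fun _ h h' h'' => h''.trans (mul_le_mul_of_nonneg_right h h')
  refine ⟨A1 + A2 + A3 + A4 + A5, by positivity, fun ι α μ h => ⟨?_, ?_, ?_, ?_, ?_⟩⟩
  · intro δ Q γ S hδ hQ hk hc
    obtain ⟨g1, g2⟩ := h1 ι α μ h δ Q γ S hδ hQ hk hc
    exact ⟨g1, hm h10 (by linarith) (by positivity) g2⟩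
  · intro p δ Q S hδ hQ hk hc
    obtain ⟨g1, g2⟩ := h2 ι α μ h p δ Q S hδ hQ hk hc
    exact ⟨g1, hm h20 (by linarith) (by positivity) g2⟩
  · intro δ T hδ hT
    obtain ⟨g1, g2⟩ := h3 ι α μ h δ T hδ hT
    exact ⟨g1, hm h30 (by linarith) (by positivity) g2⟩
  · intro p δ T hδ hT
    obtain ⟨g1, g2⟩ := h4 ι α μ h p δ T hδ hT
    exact ⟨g1, hm h40 (by linarith) (by positivity) g2⟩
  · rintro rfl hs δ T hδ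
    obtain ⟨g1, g2⟩ := h5 ι α μ h hs δ T hδ
    exact ⟨g1, hm h50 (by linarith) (by positivity) g2⟩

end Pool.Agent.N846.DT
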