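import Pool.Agent.N846.DT.Master

/-! From the master inequality to the density bound with exponents. -/

set_option autoImplicit false

namespace Pool.Agent.N846.DT

open Filter Topology Complex MeasureTheory Set

/-- the exponent given by the line `Re s = -σ₀` -/
noncomputable def ex (σ₀ η η' δ : ℝ) : ℝ := η' + (1 / 2 + σ₀ + η') * ((1 - 2 * δ + η) / (σ₀ + 2 * δ))

theorem core_gen (σ₀ η η' CB CD K : ℝ) (hσ : 0 < σ₀) (hη : 0 < η) (hη1 : η ≤ 1) (hη' : 0 ≤ η') (hK : 0 ≤ K)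
    (hCB : 0 ≤ CB) (hCD : 0 ≤ CD) : ∃ A : ℝ, 0 < A ∧
    ∀ (X ι : Type) [Countable X] [Fintype ι] (u : ι → X → ℂ) (L : X → ℝ) (s : ι → ℂ) (F : ι → ι → ℂ → ℂ)
      (δ R : ℝ), (∀ x, 0 ≤ L x) → 0 ≤ δ → δ ≤ 1 / 2 → 1 ≤ R → (∀ f, δ ≤ (s f).re) → (∀ f, (s f).re ≤ 1 / 2) →
      (∀ f, Summable fun x => ‖u f x‖ ^ 2 * Real.exp (-((1 + η) * L x))) →
      (∀ f, Real.exp (∑' x, ‖u f x‖ ^ 2 * Real.exp (-((1 + η) * L x))) ≤ CD * R ^ η') →
      (∀ f g, f ≠ g → PairF (u f) (u g) L (F f g)) →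
      (∀ f g, f ≠ g → F f g (s f + (starRingEnd ℂ) (s g)) = 0) →
      (∀ f g, f ≠ g → ∀ v : ℝ,
        ‖F f g (((-σ₀ : ℝ) : ℂ) + ((s f + (starRingEnd ℂ) (s g)).im + v : ℝ) * I)‖ ≤
          (CB * R ^ (1 / 2 + σ₀ + η')) * (1 + |v|) ^ K) →
      (Fintype.card ι : ℝ) ≤ A * R ^ ex σ₀ η η' δ := by
  obtain ⟨C, hC0, hC⟩ := master σ₀ η K hσ hη hη1 hK
  set B' : ℝ := max 1 (C * CB) with hB'
  have hB1 : 1 ≤ B' := le_max_left _ _
  refine ⟨C * CD * B' ^ (2 / σ₀) + 1, by positivity, ?_⟩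
  intro X ι _ _ u L s F δ R hL hδ hδ2 hR hs1 hs2 hsum hD hF hz hB
  have hR0 : 0 < R := by linarith
  set e1 : ℝ := 1 / 2 + σ₀ + η' with he1
  have he10 : 0 < e1 := by rw [he1]; linarith
  have hRe : 1 ≤ R ^ e1 := Real.one_le_rpow hR he10.le
  have hBR : 1 ≤ B' * R ^ e1 := by nlinarith
  have hden : 0 < σ₀ + 2 * δ := by linarith
  set y : ℝ := Real.log (B' * R ^ e1) / (σ₀ + 2 * δ) with hy
  have hy0 : 0 ≤ y := div_nonneg (Real.log_nonneg hBR) hden.le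
  have h1 : Real.exp (-(σ₀ + 2 * δ) * y) = (B' * R ^ e1)⁻¹ := by
    have : -(σ₀ + 2 * δ) * y = -Real.log (B' * R ^ e1) := by
      rw [hy]
      field_simp
    rw [this, Real.exp_neg, Real.exp_log (by linarith)]
  have h2 : C * (CB * R ^ e1) * Real.exp (-(σ₀ + 2 * δ) * y) ≤ 1 := by
    rw [h1, ← div_eq_mul_inv, div_le_one (by linarith)]
    have : C * CB ≤ B' := le_max_right _ _
    nlinarith
  have h3 := hC X ι u L s F δ y (CB * R ^ e1) (CD * R ^ η') hL hδ hs1 hs2 (by positivity) (by positivity)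
    hsum hD hF hz hB hy0 h2
  refine h3.trans ?_
  set q : ℝ := (1 - 2 * δ + η) / (σ₀ + 2 * δ) with hq
  have hq0 : 0 ≤ q := div_nonneg (by linarith) hden.le
  have hq2 : q ≤ 2 / σ₀ := div_le_div₀ (by norm_num) (by linarith) hσ (by linarith)
  have h4 : Real.exp ((1 - 2 * δ + η) * y) = (B' * R ^ e1) ^ q := by
    rw [Real.rpow_def_of_pos (by linarith)]
    congr 1
    rw [hy, hq]
    field_simp
  have h5 : (B' * R ^ e1) ^ q = B' ^ q * R ^ (e1 * q) := by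
    rw [Real.mul_rpow (by linarith) (by linarith), ← Real.rpow_mul hR0.le]
  have h6 : B' ^ q ≤ B' ^ (2 / σ₀) := Real.rpow_le_rpow_of_exponent_le hB1 hq2
  rw [h4, h5]
  have h7 : R ^ ex σ₀ η η' δ = R ^ η' * R ^ (e1 * q) := by
    rw [← Real.rpow_add hR0]
    rfl
  rw [h7]
  have h8 : 0 ≤ R ^ η' * R ^ (e1 * q) := by positivity
  calc C * (CD * R ^ η') * (B' ^ q * R ^ (e1 * q)) = C * CD * B' ^ q * (R ^ η' * R ^ (e1 * q)) := by ring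
    _ ≤ C * CD * B' ^ (2 / σ₀) * (R ^ η' * R ^ (e1 * q)) := by gcongr
    _ ≤ _ := by
        refine mul_le_mul_of_nonneg_right ?_ h8
        linarith

theorem ex_small {ε δ : ℝ} (hε : 0 < ε) (hε1 : ε ≤ 1) (hδ : 0 ≤ δ) (hδ4 : δ ≤ 1 / 4) :
    ex (4 / ε) (ε / 4) (ε / 4) δ ≤ dens δ + ε := by
  have hd : dens δ = 1 - 2 * δ := by
    unfold dens
    rw [max_eq_left (by linarith), div_one]
  rw [hd]
  unfold ex
  have hσ : 0 < 4 / ε := by positivity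
  have h1 : (1 - 2 * δ + ε / 4) / (4 / ε + 2 * δ) ≤ (1 - 2 * δ + ε / 4) / (4 / ε) :=
    div_le_div_of_nonneg_left (by linarith) hσ (by linarith)
  have h2 : (1 - 2 * δ + ε / 4) / (4 / ε) = (1 - 2 * δ + ε / 4) * ε / 4 := by
    field_simp
  have h3 : (1 / 2 + 4 / ε + ε / 4) * ((1 - 2 * δ + ε / 4) * ε / 4) =
      (1 - 2 * δ + ε / 4) * (1 + ε / 8 + ε ^ 2 / 16) := by
    field_simp
    ring
  have h4 : (1 / 2 + 4 / ε + ε / 4) * ((1 - 2 * δ + ε / 4) / (4 / ε + 2 * δ)) ≤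
      (1 / 2 + 4 / ε + ε / 4) * ((1 - 2 * δ + ε / 4) * ε / 4) :=
    mul_le_mul_of_nonneg_left (h1.trans h2.le) (by positivity)
  rw [h3] at h4
  have h5 : ε / 8 + ε ^ 2 / 16 ≤ ε / 4 := by nlinarith
  have h6 : (1 - 2 * δ + ε / 4) * (1 + ε / 8 + ε ^ 2 / 16) ≤ (1 - 2 * δ + ε / 4) + 2 * (ε / 4) := by
    have h7 : (1 - 2 * δ + ε / 4) * (ε / 8 + ε ^ 2 / 16) ≤ 2 * (ε / 4) :=
      mul_le_mul (by linarith) h5 (by positivity) (by norm_num)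
    nlinarith
  linarith

theorem ex_large {ε δ : ℝ} (hε : 0 < ε) (hε1 : ε ≤ 1) (hδ4 : 1 / 4 ≤ δ) (hδ2 : δ ≤ 1 / 2) :
    ex (ε / 10) (ε / 10) (ε / 10) δ ≤ dens δ + ε := by
  have hd : dens δ = (1 - 2 * δ) / (4 * δ) := by
    unfold dens
    rw [max_eq_right (by linarith)]
  rw [hd]
  unfold ex
  have hδ0 : 0 < δ := by linarith
  have h1 : (1 - 2 * δ + ε / 10) / (ε / 10 + 2 * δ) ≤ (1 - 2 * δ + ε / 10) / (2 * δ) :=
    div_le_div_of_nonneg_left (by linarith) (by linarith) (by linarith)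
  have h2 : (1 / 2 + ε / 10 + ε / 10) * ((1 - 2 * δ + ε / 10) / (ε / 10 + 2 * δ)) ≤
      (1 / 2 + ε / 10 + ε / 10) * ((1 - 2 * δ + ε / 10) / (2 * δ)) :=
    mul_le_mul_of_nonneg_left h1 (by positivity)
  have h3 : (1 / 2 + ε / 10 + ε / 10) * ((1 - 2 * δ + ε / 10) / (2 * δ)) =
      (1 - 2 * δ) / (4 * δ) + (ε / 10 / 4 + (1 - 2 * δ + ε / 10) * (ε / 10)) / δ := by
    field_simp
    ring
  have h4 : (ε / 10 / 4 + (1 - 2 * δ + ε / 10) * (ε / 10)) / δ ≤ ε / 10 + 8 * (ε / 10) := by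
    rw [div_le_iff₀ hδ0]
    nlinarith
  linarith

end Pool.Agent.N846.DT
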