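import Pool.Agent.TH949.LT.Cross

/-! Shifting the line of integration across the pole at `0`, general lines. -/

set_option autoImplicit false

namespace Pool.Agent.N846.DT

open Complex MeasureTheory Set Filter Topology
open Pool.Agent.TH942.SL (V shift line_int decay_int line_cont)
open Pool.Agent.TH949.LT (exp_aux norm_exp_sq E_int E_pos E_neg)

theorem slope_bound {H : ℂ → ℂ} (hH : Differentiable ℂ H) {a b C : ℝ} (ha : a ≤ 0) (hb0 : 0 ≤ b)
    (hb : ∀ w : ℂ, a ≤ w.re → w.re ≤ b → ‖H w‖ ≤ C * Real.exp |w.im|) :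
    ∃ B : ℝ, ∀ w : ℂ, a ≤ w.re → w.re ≤ b →
      ‖dslope H 0 w * cexp (w ^ 2)‖ ≤ B * (1 + |w.im|) ^ (-2 : ℝ) := by
  have hd : Differentiable ℂ (dslope H 0) := by
    rw [← differentiableOn_univ] at hH ⊢
    exact (Complex.differentiableOn_dslope univ_mem).2 hH
  have hcont : Continuous fun w : ℂ => dslope H 0 w * cexp (w ^ 2) :=
    hd.continuous.mul (by fun_prop)
  have hcomp : IsCompact ((Icc a b) ×ℂ (Icc (-1 : ℝ) 1)) :=
    isCompact_Icc.reProdIm isCompact_Icc
  obtain ⟨B1, hB1⟩ := hcomp.exists_bound_of_continuousOn hcont.continuousOn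
  have hC0 : 0 ≤ C := by
    have := (norm_nonneg _).trans (hb 0 (by simpa using ha) (by simpa using hb0))
    simpa using this
  have hB10 : 0 ≤ B1 := by
    refine (norm_nonneg _).trans (hB1 0 ?_)
    rw [Complex.mem_reProdIm]
    simp [ha, hb0]
  refine ⟨4 * B1 + 2 * C * Real.exp (a ^ 2 + b ^ 2 + 3), fun w h1 h2 => ?_⟩
  have hp : 0 < (1 + |w.im|) ^ (-2 : ℝ) := by positivity
  rcases le_or_gt |w.im| 1 with h3 | h3
  · have h4 := hB1 w (by
      rw [Complex.mem_reProdIm]
      exact ⟨⟨h1, h2⟩, abs_le.1 h3⟩)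
    have h5 : (1 / 4 : ℝ) ≤ (1 + |w.im|) ^ (-2 : ℝ) := by
      have h6 : (2 : ℝ) ^ (-2 : ℝ) ≤ (1 + |w.im|) ^ (-2 : ℝ) :=
        Real.rpow_le_rpow_of_nonpos (by positivity) (by linarith) (by norm_num)
      have h7 : (2 : ℝ) ^ (-2 : ℝ) = 1 / 4 := by
        rw [Real.rpow_neg (by norm_num)]
        norm_num
      rw [h7] at h6
      exact h6
    have h8 : 0 ≤ 2 * C * Real.exp (a ^ 2 + b ^ 2 + 3) := by positivity
    nlinarith
  · have hw : w ≠ 0 := by
      intro h
      rw [h] at h3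
      norm_num at h3
    have hw1 : 1 ≤ ‖w‖ := h3.le.trans (Complex.abs_im_le_norm w)
    rw [dslope_of_ne _ hw, slope_def_field, sub_zero, norm_mul, norm_div, norm_exp_sq]
    have h4 : ‖H w - H 0‖ ≤ 2 * C * Real.exp |w.im| := by
      have h5 := hb w h1 h2
      have h6 := hb 0 (by simpa using ha) (by simpa using hb0)
      have h7 : C * Real.exp |(0 : ℂ).im| ≤ C * Real.exp |w.im| := by
        refine mul_le_mul_of_nonneg_left (Real.exp_le_exp.2 ?_) hC0
        simp
      calc _ ≤ ‖H w‖ + ‖H 0‖ := norm_sub_le _ _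
        _ ≤ _ := by linarith
    have h5 : ‖H w - H 0‖ / ‖w‖ ≤ 2 * C * Real.exp |w.im| :=
      (div_le_self (norm_nonneg _) hw1).trans h4
    have h6 : Real.exp (w.re ^ 2 - w.im ^ 2) ≤ Real.exp (a ^ 2 + b ^ 2) * Real.exp (- w.im ^ 2) := by
      rw [← Real.exp_add]
      refine Real.exp_le_exp.2 ?_
      have : w.re ^ 2 ≤ a ^ 2 + b ^ 2 := by
        rcases le_total 0 w.re with h0 | h0 <;> nlinarith
      linarith
    calc _ ≤ 2 * C * Real.exp |w.im| * (Real.exp (a ^ 2 + b ^ 2) * Real.exp (- w.im ^ 2)) :=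
          mul_le_mul h5 h6 (Real.exp_pos _).le (by positivity)
      _ = 2 * C * Real.exp (a ^ 2 + b ^ 2) * Real.exp (|w.im| - w.im ^ 2) := by
          rw [sub_eq_add_neg |w.im|, Real.exp_add |w.im|]
          ring
      _ ≤ 2 * C * Real.exp (a ^ 2 + b ^ 2) * (Real.exp 3 * (1 + |w.im|) ^ (-2 : ℝ)) :=
          mul_le_mul_of_nonneg_left (exp_aux _) (by positivity)
      _ = 2 * C * Real.exp (a ^ 2 + b ^ 2 + 3) * (1 + |w.im|) ^ (-2 : ℝ) := by
          rw [Real.exp_add (a ^ 2 + b ^ 2) 3]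
          ring
      _ ≤ _ := by
          refine mul_le_mul_of_nonneg_right ?_ hp.le
          linarith

/-- **crossing the pole at `0`** -/
theorem cross {H : ℂ → ℂ} (hH : Differentiable ℂ H) {a b C : ℝ} (ha : a < 0) (hb0 : 0 < b)
    (hb : ∀ w : ℂ, a ≤ w.re → w.re ≤ b → ‖H w‖ ≤ C * Real.exp |w.im|) :
    (∫ v : ℝ, H (b + v * I) * (cexp ((b + v * I) ^ 2) / (b + v * I))) -
      ∫ v : ℝ, H (a + v * I) * (cexp ((a + v * I) ^ 2) / (a + v * I)) = 2 * Real.pi * H 0 := by
  obtain ⟨B, hB⟩ := slope_bound hH ha.le hb0.le hb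
  have hd : Differentiable ℂ (dslope H 0) := by
    rw [← differentiableOn_univ] at hH ⊢
    exact (Complex.differentiableOn_dslope univ_mem).2 hH
  set g : ℂ → ℂ := fun w => dslope H 0 w * cexp (w ^ 2) with hg
  have hgd : Differentiable ℂ g := hd.mul (by fun_prop)
  have h1 := shift (H := g) (a := a) (b := b) (p := 2) (B := B) (by norm_num) (by linarith)
    (fun s _ _ => hgd s) hB
  unfold V at h1
  have hpi : (((2 * Real.pi)⁻¹ : ℝ) : ℂ) ≠ 0 := by
    have := Real.pi_pos
    exact_mod_cast (by positivity : (2 * Real.pi)⁻¹ ≠ 0)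
  have h2 := mul_left_cancel₀ hpi h1
  have hline : ∀ c : ℝ, c ≠ 0 → a ≤ c → c ≤ b →
      ∫ v : ℝ, H (c + v * I) * (cexp ((c + v * I) ^ 2) / (c + v * I)) =
      (∫ v : ℝ, g (c + v * I)) + H 0 * ∫ v : ℝ, cexp ((c + v * I) ^ 2) / (c + v * I) := by
    intro c hc hc1 hc2
    rw [← integral_const_mul, ← integral_add]
    · congr 1
      ext v
      have hne : (c : ℂ) + v * I ≠ 0 := by
        intro h
        have := congrArg Complex.re h
        simp at this
        exact hc this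
      simp only [hg]
      rw [dslope_of_ne _ hne, slope_def_field, sub_zero]
      field_simp
      ring
    · exact line_int (p := 2) (B := B) (by norm_num) (fun s _ => hgd.continuous.continuousAt)
        (fun s hs => hB s (by rw [hs]; exact hc1) (by rw [hs]; exact hc2))
    · exact (E_int hc).const_mul _
  rw [hline b hb0.ne' (by linarith) le_rfl, hline a ha.ne le_rfl (by linarith), h2, E_pos hb0, E_neg ha]
  ring

end Pool.Agent.N846.DT
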