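import Pool.Agent.N846.DT.Stm

/-!
# DIAG: the Rankin-Selberg `L`-function `L(s, π × π~)` to the right of `s = 1` (helper821, project DT of helper846)
-/

set_option autoImplicit false

namespace Pool.Agent.N846.DT

open Filter Topology Complex
open Pool.Agent.W189.TP (DS PS LL LL_nonneg exp_LL rexp_LL norm_term DS_norm_le summable_pp)
open Pool.Agent.TH949.LT (LData PK)
open Pool.Agent.TH949.RES
open Pool.Agent.TH949.UL

variable {n : ℕ} {α : Nat.Primes → Fin n → ℂ} {μ : Fin n → ℂ}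

/-- the completed function without the other Gamma factors -/
theorem gdata1 (h : SphericalCuspForm α μ) (hμ : ∀ i, |(μ i).re| < 1 / 2) (i0 : Fin n) :
    ∃ G : ℂ → ℂ, LData (n ^ 2 - 1) (kp μ i0) 1 G ∧
      ∀ s : ℂ, 1 < s.re → G s = DQ s * cexp (DS (d1 (rs α)) LL s) := by
  obtain ⟨G, Ξ, hG, hΞ, hGe, hgr, hΞe, hfe⟩ := h.continuation
  set P : ℂ → ℂ := fun s => ∏ x ∈ sp0 i0, (Gammaℝ (s + (μ x.1 - μ x.2)))⁻¹ with hP
  have hPd : Differentiable ℂ P := by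
    refine Differentiable.fun_finsetProd fun x _ => ?_
    exact Complex.differentiable_Gammaℝ_inv.comp (differentiable_id.add_const _)
  -- nonvanishing of the Gamma factors to the right
  have hGne : ∀ s : ℂ, 1 < s.re → ∀ i j, Gammaℝ (s + (μ i - μ j)) ≠ 0 := by
    intro s hs i j
    refine Complex.Gammaℝ_ne_zero_of_re_pos ?_
    have h1 := abs_lt.1 (hμ i)
    have h2 := abs_lt.1 (hμ j)
    simp only [add_re, sub_re]
    linarith [h1.1, h2.2]
  -- all Gamma factors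
  have hall : ∀ s : ℂ, ∏ i, ∏ j, Gammaℝ (s + (μ i - μ j)) =
      Gammaℝ s * ∏ x ∈ sp0 i0, Gammaℝ (s + (μ x.1 - μ x.2)) := by
    intro s
    rw [prod_all i0 (fun x => Gammaℝ (s + (μ x.1 - μ x.2)))]
    simp only [sub_self, add_zero]
  have hcancel : ∀ s : ℂ, 1 < s.re → P s * ∏ x ∈ sp0 i0, Gammaℝ (s + (μ x.1 - μ x.2)) = 1 := by
    intro s hs
    rw [hP]
    simp only
    rw [← Finset.prod_mul_distrib]
    exact Finset.prod_eq_one fun x _ => inv_mul_cancel₀ (hGne s hs _ _)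
  -- identity for Im s ≠ 0 and Re s > 1
  have hid1 : ∀ s : ℂ, 1 < s.re → Ξ s * P s = s * G s * Gammaℝ s := by
    intro s hs
    rw [hΞe s hs, hall s]
    linear_combination (s * G s * Gammaℝ s) * hcancel s hs
  -- everywhere off the poles, by analytic continuation
  have hid2 : ∀ s : ℂ, Ξ s * P s * (Gammaℝ s)⁻¹ = s * G s * (Gammaℝ s * (Gammaℝ s)⁻¹) := by
    intro s
    have hd1 : Differentiable ℂ fun s => Ξ s * P s * (Gammaℝ s)⁻¹ :=
      (hΞ.mul hPd).mul Complex.differentiable_Gammaℝ_inv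
    have hd2 : Differentiable ℂ fun s => s * G s := differentiable_id.mul hG
    have h1 : (fun s => Ξ s * P s * (Gammaℝ s)⁻¹) = fun s => s * G s := by
      refine AnalyticOnNhd.eq_of_eventuallyEq (z₀ := 2) (fun z _ => hd1.analyticAt z)
        (fun z _ => hd2.analyticAt z) ?_
      have hopen : IsOpen {s : ℂ | 1 < s.re} := isOpen_lt continuous_const Complex.continuous_re
      refine Filter.eventually_of_mem (hopen.mem_nhds (by norm_num : (2 : ℂ) ∈ {s : ℂ | 1 < s.re})) fun s hs => ?_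
      have hg : Gammaℝ s ≠ 0 := Complex.Gammaℝ_ne_zero_of_re_pos (by
        have : 1 < s.re := hs
        linarith)
      simp only
      rw [hid1 s hs, mul_assoc, mul_inv_cancel₀ hg, mul_one]
    have h2 := congrFun h1 s
    by_cases hg : Gammaℝ s = 0
    · rw [hg]
      simp
    · rw [h2, mul_inv_cancel₀ hg, mul_one]
  refine ⟨fun s => Ξ s * P s, ⟨le_rfl, conj_kp μ i0 h.unitary_real, re_kp hμ i0, hΞ.mul hPd, ?_,
    Ξ, 1, norm_one, hΞ, fun s hs => ?_, fun s => ?_⟩, fun s hs => ?_⟩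
  · -- growth
    intro a b
    obtain ⟨C1, A1, hC1⟩ := hgr a b
    obtain ⟨C2, hC20, hC2⟩ := gr_strip a b
    -- the compact part
    have hcont : Continuous fun s => Ξ s * P s := (hΞ.mul hPd).continuous
    obtain ⟨C3, hC3⟩ := (isCompact_Icc (a := a) (b := b)).reProdIm (isCompact_Icc (a := (-1 : ℝ)) (b := 1))
      |>.exists_bound_of_continuousOn hcont.continuousOn
    obtain ⟨m, hm⟩ := exists_nat_ge (|A1| + 1)
    refine ⟨|C3| + (|a| + |b| + 1) * |C1| * C2, m, fun s h1 h2 => ?_⟩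
    have hone : (1 : ℝ) ≤ 1 + |s.im| := by linarith [abs_nonneg s.im]
    have hpow : (1 : ℝ) ≤ (1 + |s.im|) ^ m := one_le_pow₀ hone
    rcases le_or_gt |s.im| 1 with h3 | h3
    · have h4 := hC3 s ⟨⟨h1, h2⟩, abs_le.1 h3⟩
      have h5 : 0 ≤ (|a| + |b| + 1) * |C1| * C2 := by positivity
      calc ‖Ξ s * P s‖ ≤ |C3| := h4.trans (le_abs_self _)
        _ ≤ (|C3| + (|a| + |b| + 1) * |C1| * C2) * 1 := by linarith
        _ ≤ _ := mul_le_mul_of_nonneg_left hpow (by positivity)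
    · have him : s.im ≠ 0 := by
        intro h0
        rw [h0, abs_zero] at h3
        linarith
      have hg : Gammaℝ s ≠ 0 := by
        rw [Ne, Complex.Gammaℝ_eq_zero_iff]
        rintro ⟨k, hk⟩
        apply him
        rw [hk]
        simp
      have h4 : Ξ s * P s = s * G s * Gammaℝ s := by
        have h5 := hid2 s
        rw [mul_inv_cancel₀ hg, mul_one] at h5
        rw [← h5]
        field_simp
      rw [h4, norm_mul, norm_mul]
      have h5 : ‖s‖ ≤ (|a| + |b| + 1) * (1 + |s.im|) := by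
        have h6 := Complex.norm_le_abs_re_add_abs_im s
        have h7 : |s.re| ≤ |a| + |b| := by
          rw [abs_le]
          constructor
          · linarith [neg_abs_le a, abs_nonneg b]
          · linarith [le_abs_self b, abs_nonneg a]
        have h8 : 0 ≤ (|a| + |b|) * |s.im| := by positivity
        nlinarith
      have h6 : ‖G s‖ ≤ |C1| * (1 + |s.im|) ^ (|A1|) := by
        refine (hC1 s h1 h2).trans (mul_le_mul (le_abs_self _)
          (Real.rpow_le_rpow_of_exponent_le hone (le_abs_self _)) (Real.rpow_nonneg (by linarith) _) (abs_nonneg _))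
      have h7 := hC2 s h1 h2 h3.le
      have h8 : (1 + |s.im|) * (1 + |s.im|) ^ (|A1|) ≤ (1 + |s.im|) ^ m := by
        rw [← Real.rpow_natCast (1 + |s.im|) m]
        calc (1 + |s.im|) * (1 + |s.im|) ^ (|A1|) = (1 + |s.im|) ^ (|A1| + 1) := by
              rw [Real.rpow_add (by linarith), Real.rpow_one]; ring
          _ ≤ _ := Real.rpow_le_rpow_of_exponent_le hone hm
      have hX : 0 ≤ (1 + |s.im|) ^ (|A1|) := Real.rpow_nonneg (by linarith) _
      calc ‖s‖ * ‖G s‖ * ‖Gammaℝ s‖ ≤ ((|a| + |b| + 1) * (1 + |s.im|)) * (|C1| * (1 + |s.im|) ^ (|A1|)) * C2 := by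
            refine mul_le_mul (mul_le_mul h5 h6 (norm_nonneg _) (by positivity)) h7 (norm_nonneg _) (by positivity)
        _ = (|a| + |b| + 1) * |C1| * C2 * ((1 + |s.im|) * (1 + |s.im|) ^ (|A1|)) := by ring
        _ ≤ (|a| + |b| + 1) * |C1| * C2 * (1 + |s.im|) ^ m := mul_le_mul_of_nonneg_left h8 (by positivity)
        _ ≤ _ := mul_le_mul_of_nonneg_right (by linarith [abs_nonneg C3]) (by positivity)
  · simp only [ofReal_one, one_cpow, one_mul]
    have h1 := hcancel s (by linarith)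
    have h2 : ∏ j, Gammaℝ (s + kp μ i0 j) = ∏ x ∈ sp0 i0, Gammaℝ (s + (μ x.1 - μ x.2)) :=
      prod_ep i0 (fun x => Gammaℝ (s + (μ x.1 - μ x.2)))
    rw [h2]
    linear_combination (-Ξ s) * h1
  · rw [one_mul, hfe]
  · have hs1 : 1 < s.re := by linarith
    have hne : s ≠ 1 := fun h0 => by rw [h0] at hs1; simp at hs1
    simp only
    rw [hid1 s hs1, hGe s hs1, DQ_eq' (by linarith) hne, logL_eq, ← exp_d1 h hs1]
    ring

theorem LX_nonneg (x : PX) : 0 ≤ LX x := by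
  unfold LX
  have h1 : (1 : ℝ) ≤ ((x.1 : ℕ) : ℝ) := by exact_mod_cast x.1.2.one_lt.le
  have := Real.log_nonneg h1
  positivity

theorem LX_ge (x : PX) : Real.log ((x.1 : ℕ) : ℝ) ≤ LX x := by
  unfold LX
  have h1 : (1 : ℝ) ≤ ((x.1 : ℕ) : ℝ) := by exact_mod_cast x.1.2.one_lt.le
  have h2 := Real.log_nonneg h1
  have h3 : (0 : ℝ) ≤ (x.2 : ℝ) := Nat.cast_nonneg _
  nlinarith

theorem rexp_LX (x : PX) (σ : ℝ) :
    Real.exp (-(σ * LX x)) = (((x.1 : ℕ) : ℝ) ^ (-σ)) ^ (x.2 + 1) := by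
  have hp : (0 : ℝ) < ((x.1 : ℕ) : ℝ) := by exact_mod_cast x.1.2.pos
  rw [Real.rpow_def_of_pos hp, ← Real.exp_nat_mul]
  congr 1
  unfold LX
  push_cast
  ring

theorem uX_sq (α : Nat.Primes → Fin n → ℂ) (x : PX) :
    ‖uX α x‖ ^ 2 = ‖∑ i, α x.1 i ^ (x.2 + 1)‖ ^ 2 / ((x.2 : ℝ) + 1) := by
  unfold uX
  have h3 : (0 : ℝ) ≤ (x.2 : ℝ) + 1 := by positivity
  rw [norm_div, Complex.norm_real, Real.norm_of_nonneg (Real.sqrt_nonneg _), div_pow, Real.sq_sqrt h3]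

theorem summable_uX (h : SphericalCuspForm α μ) {σ : ℝ} (hσ : 1 < σ) :
    Summable (fun x : PX => ‖uX α x‖ ^ 2 * Real.exp (-(σ * LX x))) := by
  refine (h.summable σ hσ).congr fun x => ?_
  rw [uX_sq, rexp_LX]

theorem exp_uX (α : Nat.Primes → Fin n → ℂ) (σ : ℝ) :
    cexp (logL α (σ : ℂ)) =
      ((Real.exp (∑' x : PX, ‖uX α x‖ ^ 2 * Real.exp (-(σ * LX x))) : ℝ) : ℂ) := by
  rw [Complex.ofReal_exp, Complex.ofReal_tsum]
  congr 1
  unfold logL
  refine tsum_congr fun x => ?_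
  rw [uX_sq, rexp_LX]
  have hp : (0 : ℝ) ≤ ((x.1 : ℕ) : ℝ) := Nat.cast_nonneg _
  push_cast
  rw [Complex.ofReal_cpow hp]
  push_cast
  rfl

theorem PK_eq (μ : Fin n → ℂ) (i0 : Fin n) :
    PK (kp μ i0) = ∏ i, ∏ j, (1 + ‖μ i - μ j‖) := by
  rw [prod_all i0 (fun x => 1 + ‖μ x.1 - μ x.2‖)]
  simp only [sub_self, norm_zero, add_zero, one_mul]
  exact prod_ep i0 (fun x => 1 + ‖μ x.1 - μ x.2‖)

/-- crude bound -/
theorem crude_uX (hn : 2 ≤ n) {η : ℝ} (hη : 0 < η) (hη1 : η ≤ 3 / 2) : ∃ C : ℝ, 0 < C ∧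
    ∀ (α : Nat.Primes → Fin n → ℂ) (μ : Fin n → ℂ), SphericalCuspForm α μ →
      (∀ (p : Nat.Primes) i, ‖α p i‖ < ((p : ℕ) : ℝ) ^ (1 / 2 : ℝ)) → (∀ i, |(μ i).re| < 1 / 2) →
      Real.exp (∑' x : PX, ‖uX α x‖ ^ 2 * Real.exp (-((1 + η) * LX x))) ≤
        C * (∏ i, ∏ j, (1 + ‖μ i - μ j‖)) ^ 3 := by
  obtain ⟨CD, hCD⟩ := den_DQ
  have hw := summable_one (t := 3 / 2) (by norm_num)
  set M0 : ℝ := ((n : ℝ) ^ 2 + 1) * ∑' x : PS ∅ × ℕ, Real.exp (-(3 / 2 * LL x)) with hM0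
  set M : ℝ := Real.exp M0 with hM
  set z : ℂ := ((1 + η : ℝ) : ℂ) with hz
  have hzre : z.re = 1 + η := by rw [hz, Complex.ofReal_re]
  have hzim : z.im = 0 := by rw [hz, Complex.ofReal_im]
  have hg : Gammaℝ z ≠ 0 := Complex.Gammaℝ_ne_zero_of_re_pos (by rw [hzre]; linarith)
  have hz0 : z ≠ 0 := fun h0 => by rw [h0] at hzre; simp at hzre; linarith
  have hz1 : z - 1 ≠ 0 := fun h0 => by
    have := congrArg Complex.re h0
    rw [Complex.sub_re, hzre] at this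
    simp at this
    linarith
  have hy0 : 0 < ‖z * (z - 1) * Gammaℝ z‖ := norm_pos_iff.2 (mul_ne_zero (mul_ne_zero hz0 hz1) hg)
  have hCD0 := CD_nonneg hCD
  set c1 : ℝ := M * CD * (((3 * (n ^ 2 - 1)).factorial : ℝ) * Real.exp (5 / 2)) * Real.exp 26 with hc1
  have hc10 : 0 ≤ c1 := by positivity
  refine ⟨(c1 + 1) / ‖z * (z - 1) * Gammaℝ z‖, by positivity, fun α μ h hα hμ => ?_⟩
  let i0 : Fin n := ⟨0, by omega⟩
  obtain ⟨G, hG, hGe⟩ := gdata1 h hμ i0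
  have hle : ∀ x : PS ∅ × ℕ, |d1 (rs α) x| * Real.exp (-(5 / 2 * LL x)) ≤
      ((n : ℝ) ^ 2 + 1) * Real.exp (-(3 / 2 * LL x)) := by
    intro x
    calc _ ≤ ((n : ℝ) ^ 2 + 1) * Real.exp (LL x) * Real.exp (-(5 / 2 * LL x)) :=
          mul_le_mul_of_nonneg_right (d1_abs hα x) (Real.exp_pos _).le
      _ = _ := by
          rw [mul_assoc, ← Real.exp_add]
          congr 2
          ring
  have hGM : ∀ s : ℂ, 5 / 2 ≤ s.re → ‖G s / DQ s‖ ≤ M := by
    intro s hs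
    have hne : DQ s ≠ 0 := DQ_ne_right (by linarith)
    rw [hGe s (by linarith), mul_div_cancel_left₀ _ hne, Complex.norm_exp, hM]
    refine Real.exp_le_exp.2 ((Complex.re_le_norm _).trans ?_)
    have hle2 : ∀ x : PS ∅ × ℕ, |d1 (rs α) x| * Real.exp (-(s.re * LL x)) ≤
        ((n : ℝ) ^ 2 + 1) * Real.exp (-(3 / 2 * LL x)) := by
      intro x
      refine le_trans (mul_le_mul_of_nonneg_left (Real.exp_le_exp.2 ?_) (abs_nonneg _)) (hle x)
      have := LL_nonneg x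
      nlinarith
    have hs2 : Summable fun x : PS ∅ × ℕ => |d1 (rs α) x| * Real.exp (-(s.re * LL x)) :=
      Summable.of_nonneg_of_le (fun x => by positivity) hle2 (hw.mul_left _)
    refine (DS_norm_le hs2).trans ?_
    refine (hs2.tsum_le_tsum hle2 (hw.mul_left _)).trans ?_
    rw [tsum_mul_left]
  have hcr := crude hG hCD (Real.exp_pos M0).le hGM (z := z) (by rw [hzre]; linarith)
    (by rw [hzre]; linarith)
  rw [hzim, abs_zero, mul_zero, add_zero] at hcr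
  unfold B1 at hcr
  rw [one_pow, one_mul, PK_eq] at hcr
  have hz2 : 1 < z.re := by rw [hzre]; linarith
  have hzne : z ≠ 1 := fun h0 => hz1 (by rw [h0, sub_self])
  have hGz : G z = z * (z - 1) * Gammaℝ z *
      ((Real.exp (∑' x : PX, ‖uX α x‖ ^ 2 * Real.exp (-((1 + η) * LX x))) : ℝ) : ℂ) := by
    rw [← exp_uX, ← hz, hGe z hz2, DQ_eq' (by linarith) hzne, logL_eq, ← exp_d1 h hz2]
    ring
  rw [hGz, norm_mul, Complex.norm_real, Real.norm_of_nonneg (Real.exp_pos _).le] at hcr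
  rw [div_mul_eq_mul_div, le_div_iff₀ hy0, mul_comm]
  refine hcr.trans ?_
  have hP : (0 : ℝ) ≤ (∏ i, ∏ j, (1 + ‖μ i - μ j‖)) ^ 3 := by
    have : (0 : ℝ) ≤ ∏ i, ∏ j, (1 + ‖μ i - μ j‖) :=
      Finset.prod_nonneg fun i _ => Finset.prod_nonneg fun j _ => by positivity
    positivity
  have e : (∏ i, ∏ j, (1 + ‖μ i - μ j‖)) ^ 3 *
      (Real.exp M0 * CD * (((3 * (n ^ 2 - 1)).factorial : ℝ) * Real.exp (5 / 2))) * Real.exp 26 =
      c1 * (∏ i, ∏ j, (1 + ‖μ i - μ j‖)) ^ 3 := by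
    rw [hc1, hM]; ring
  rw [e]
  exact mul_le_mul_of_nonneg_right (by linarith) hP

theorem summable_w {t : ℝ} (ht : 0 < t) :
    Summable fun x : PX => ((x.1 : ℕ) : ℝ) ^ (-(2 : ℝ)) * Real.exp (-(t * LX x)) := by
  have h1 := summable_pp (S := ∅) (fun p => ((p.1 : ℕ) : ℝ) ^ (-(2 : ℝ))) (fun p => by positivity)
    ht (by
      have h2 := Pool.Agent.W189.TP.summable_primes_subtype (S := ∅) (σ := t + 2) (by linarith)
      refine h2.congr fun p => ?_
      have hp : (0 : ℝ) < ((p.1 : ℕ) : ℝ) := by exact_mod_cast p.1.2.pos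
      rw [← Real.rpow_add hp]
      congr 1
      ring)
  refine (pe.summable_iff).1 (h1.congr fun x => ?_)
  rfl

theorem uX_le (hα : ∀ (p : Nat.Primes) i, ‖α p i‖ < ((p : ℕ) : ℝ) ^ (1 / 2 : ℝ)) (x : PX) :
    ‖uX α x‖ ^ 2 ≤ (n : ℝ) ^ 2 * Real.exp (LX x) := by
  have hq0 : (0 : ℝ) < ((x.1 : ℕ) : ℝ) := by exact_mod_cast x.1.2.pos
  have h3 : Real.exp (LX x) = ((x.1 : ℕ) : ℝ) ^ (x.2 + 1) := by
    have := rexp_LX x (-1)
    rw [neg_neg, neg_one_mul, neg_neg, Real.rpow_one] at this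
    exact this
  have hk : (1 : ℝ) ≤ (x.2 : ℝ) + 1 := by
    have : (0 : ℝ) ≤ x.2 := Nat.cast_nonneg _
    linarith
  have h1 : ‖∑ i, α x.1 i ^ (x.2 + 1)‖ ≤ n * (((x.1 : ℕ) : ℝ) ^ (1 / 2 : ℝ)) ^ (x.2 + 1) := by
    refine (norm_sum_le _ _).trans ?_
    calc _ ≤ ∑ _i : Fin n, (((x.1 : ℕ) : ℝ) ^ (1 / 2 : ℝ)) ^ (x.2 + 1) := by
          refine Finset.sum_le_sum fun i _ => ?_
          rw [norm_pow]
          exact pow_le_pow_left₀ (norm_nonneg _) (hα x.1 i).le _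
      _ = _ := by simp
  have h5 : Real.exp (LX x) = ((((x.1 : ℕ) : ℝ) ^ (1 / 2 : ℝ)) ^ (x.2 + 1)) ^ 2 := by
    rw [h3, pow_right_comm, ← Real.rpow_natCast ((((x.1 : ℕ) : ℝ) ^ (1 / 2 : ℝ))) 2,
      ← Real.rpow_mul hq0.le]
    norm_num
  rw [uX_sq]
  refine (div_le_self (sq_nonneg _) hk).trans ?_
  rw [h5]
  calc _ ≤ (n * (((x.1 : ℕ) : ℝ) ^ (1 / 2 : ℝ)) ^ (x.2 + 1)) ^ 2 :=
        pow_le_pow_left₀ (norm_nonneg _) h1 2
    _ = _ := by ring

theorem diag : S_DIAG := by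
  intro n hn η ε hη hε
  set η₁ : ℝ := min η 1 with hη₁
  have h10 : 0 < η₁ := lt_min hη one_pos
  have h11 : η₁ ≤ 1 := min_le_right _ _
  have h12 : η₁ ≤ η := min_le_left _ _
  obtain ⟨C, hC0, hC⟩ := crude_uX hn (η := η₁ / 2) (by positivity) (by linarith)
  obtain ⟨r, hr⟩ := exists_nat_ge (3 / ε + 1)
  have h3ε : 0 < 3 / ε := by positivity
  have hr1 : (1 : ℝ) ≤ r := by linarith
  have hr0 : (0 : ℝ) < r := by linarith
  have hrε : 3 / (r : ℝ) ≤ ε := by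
    rw [div_le_iff₀ hr0]
    have : 3 / ε ≤ r := by linarith
    rw [div_le_iff₀ hε] at this
    linarith
  set p0 : ℝ := Real.exp (2 / η₁ * Real.log r) with hp0
  have hp00 : 0 < p0 := Real.exp_pos _
  set W : ℝ := ∑' x : PX, ((x.1 : ℕ) : ℝ) ^ (-(2 : ℝ)) * Real.exp (-(η₁ * LX x)) with hW
  have hW0 : 0 ≤ W := tsum_nonneg fun x => by positivity
  refine ⟨Real.exp ((n : ℝ) ^ 2 * p0 ^ 2 * W + |Real.log C|), Real.exp_pos _,
    fun α μ h hα hμ => ⟨summable_uX h (by linarith), ?_⟩⟩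
  set P : ℝ := ∏ i, ∏ j, (1 + ‖μ i - μ j‖) with hP
  have hP1 : 1 ≤ P := by
    rw [hP, ← PK_eq μ ⟨0, by omega⟩]
    exact Pool.Agent.TH949.LT.one_le_PK _
  have hP0 : 0 < P := by linarith
  have hlogP : 0 ≤ Real.log P := Real.log_nonneg hP1
  have hS1 := summable_uX h (σ := 1 + η₁) (by linarith)
  have hS2 := summable_uX h (σ := 1 + η₁ / 2) (by linarith)
  have hS3 := summable_w h10
  -- comparison of the terms
  have hterm : ∀ x : PX, ‖uX α x‖ ^ 2 * Real.exp (-((1 + η) * LX x)) ≤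
      1 / r * (‖uX α x‖ ^ 2 * Real.exp (-((1 + η₁ / 2) * LX x))) +
        (n : ℝ) ^ 2 * p0 ^ 2 * (((x.1 : ℕ) : ℝ) ^ (-(2 : ℝ)) * Real.exp (-(η₁ * LX x))) := by
    intro x
    have hL := LX_nonneg x
    have hL1 := LX_ge x
    have hu := sq_nonneg ‖uX α x‖
    have hq0 : (0 : ℝ) < ((x.1 : ℕ) : ℝ) := by exact_mod_cast x.1.2.pos
    have e0 : Real.exp (-((1 + η) * LX x)) ≤ Real.exp (-((1 + η₁) * LX x)) := by
      refine Real.exp_le_exp.2 ?_
      nlinarith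
    refine (mul_le_mul_of_nonneg_left e0 hu).trans ?_
    have hA : 0 ≤ 1 / r * (‖uX α x‖ ^ 2 * Real.exp (-((1 + η₁ / 2) * LX x))) := by positivity
    have hB : 0 ≤ (n : ℝ) ^ 2 * p0 ^ 2 * (((x.1 : ℕ) : ℝ) ^ (-(2 : ℝ)) * Real.exp (-(η₁ * LX x))) := by
      positivity
    rcases le_or_gt p0 ((x.1 : ℕ) : ℝ) with hp | hp
    · have h1 : 2 / η₁ * Real.log r ≤ Real.log ((x.1 : ℕ) : ℝ) := by
        rw [Real.le_log_iff_exp_le hq0]
        exact hp
      have h2 : Real.log r ≤ η₁ / 2 * LX x := by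
        have h3 : Real.log r = η₁ / 2 * (2 / η₁ * Real.log r) := by field_simp
        rw [h3]
        exact mul_le_mul_of_nonneg_left (h1.trans hL1) (by positivity)
      have h3 : Real.exp (-((1 + η₁) * LX x)) ≤ 1 / r * Real.exp (-((1 + η₁ / 2) * LX x)) := by
        have h4 : 1 / (r : ℝ) = Real.exp (-(Real.log r)) := by
          rw [Real.exp_neg, Real.exp_log hr0, one_div]
        rw [h4, ← Real.exp_add]
        refine Real.exp_le_exp.2 ?_
        linarith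
      have h5 := mul_le_mul_of_nonneg_left h3 hu
      have h6 : ‖uX α x‖ ^ 2 * (1 / r * Real.exp (-((1 + η₁ / 2) * LX x))) =
          1 / r * (‖uX α x‖ ^ 2 * Real.exp (-((1 + η₁ / 2) * LX x))) := by ring
      linarith
    · have h1 := uX_le hα x
      have h2 : ‖uX α x‖ ^ 2 * Real.exp (-((1 + η₁) * LX x)) ≤ (n : ℝ) ^ 2 * Real.exp (-(η₁ * LX x)) := by
        calc _ ≤ (n : ℝ) ^ 2 * Real.exp (LX x) * Real.exp (-((1 + η₁) * LX x)) :=
              mul_le_mul_of_nonneg_right h1 (Real.exp_pos _).le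
          _ = _ := by
              rw [mul_assoc, ← Real.exp_add]
              congr 2
              ring
      have h3 : 1 ≤ p0 ^ 2 * ((x.1 : ℕ) : ℝ) ^ (-(2 : ℝ)) := by
        rw [Real.rpow_neg hq0.le, Real.rpow_ofNat, ← div_eq_mul_inv, le_div_iff₀ (by positivity), one_mul]
        exact pow_le_pow_left₀ hq0.le hp.le 2
      have h4 : (n : ℝ) ^ 2 * Real.exp (-(η₁ * LX x)) * 1 ≤
          (n : ℝ) ^ 2 * Real.exp (-(η₁ * LX x)) * (p0 ^ 2 * ((x.1 : ℕ) : ℝ) ^ (-(2 : ℝ))) :=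
        mul_le_mul_of_nonneg_left h3 (by positivity)
      have h5 : (n : ℝ) ^ 2 * Real.exp (-(η₁ * LX x)) * (p0 ^ 2 * ((x.1 : ℕ) : ℝ) ^ (-(2 : ℝ))) =
          (n : ℝ) ^ 2 * p0 ^ 2 * (((x.1 : ℕ) : ℝ) ^ (-(2 : ℝ)) * Real.exp (-(η₁ * LX x))) := by ring
      linarith
  have hsum : ∑' x : PX, ‖uX α x‖ ^ 2 * Real.exp (-((1 + η) * LX x)) ≤
      1 / r * (∑' x : PX, ‖uX α x‖ ^ 2 * Real.exp (-((1 + η₁ / 2) * LX x))) +
        (n : ℝ) ^ 2 * p0 ^ 2 * W := by
    rw [hW, ← tsum_mul_left, ← tsum_mul_left, ← (hS2.mul_left _).tsum_add (hS3.mul_left _)]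
    exact (summable_uX h (by linarith)).tsum_le_tsum hterm ((hS2.mul_left _).add (hS3.mul_left _))
  have hcr := hC α μ h hα hμ
  rw [← hP] at hcr
  have hlog : ∑' x : PX, ‖uX α x‖ ^ 2 * Real.exp (-((1 + η₁ / 2) * LX x)) ≤
      Real.log C + 3 * Real.log P := by
    have h1 := Real.log_le_log (Real.exp_pos _) hcr
    rw [Real.log_exp, Real.log_mul hC0.ne' (by positivity), Real.log_pow] at h1
    push_cast at h1
    exact h1
  rw [Real.rpow_def_of_pos hP0, ← Real.exp_add]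
  refine Real.exp_le_exp.2 (hsum.trans ?_)
  have h1 : 1 / (r : ℝ) * (∑' x : PX, ‖uX α x‖ ^ 2 * Real.exp (-((1 + η₁ / 2) * LX x))) ≤
      1 / (r : ℝ) * (Real.log C + 3 * Real.log P) := mul_le_mul_of_nonneg_left hlog (by positivity)
  have h2 : 1 / (r : ℝ) * (Real.log C + 3 * Real.log P) =
      1 / (r : ℝ) * Real.log C + 3 / (r : ℝ) * Real.log P := by ring
  have h3 : 1 / (r : ℝ) * Real.log C ≤ |Real.log C| := by
    refine (le_abs_self _).trans ?_
    rw [abs_mul, abs_of_pos (by positivity : (0 : ℝ) < 1 / r)]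
    refine mul_le_of_le_one_left (abs_nonneg _) ?_
    rw [div_le_one hr0]
    exact hr1
  have h4 : 3 / (r : ℝ) * Real.log P ≤ Real.log P * ε := by
    rw [mul_comm (Real.log P)]
    exact mul_le_mul_of_nonneg_right hrε hlogP
  linarith

end Pool.Agent.N846.DT
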