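import Pool.Agent.N846.DT.Stm
import Pool.Agent.N846.DT.Cross
import Pool.Agent.TH949.LT.ExpSum

/-! Smoothed sums with complex coefficients. -/

set_option autoImplicit false

namespace Pool.Agent.N846.DT

open Filter Topology Complex MeasureTheory Set
open Pool.Agent.TH949.LT (TT Lam VV VV_nonneg VV_le VV_zero EE EE_int kernel norm_exp_sq complex_exp_sum real_exp_sum)

theorem VV_half {y : ℝ} (hy : 0 ≤ y) : 1 / 2 ≤ VV y := by
  rw [← VV_zero]
  unfold VV
  refine mul_le_mul_of_nonneg_left ?_ (by positivity)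
  have hint : Integrable fun u : ℝ => Real.exp (-(y - u) ^ 2 / 4) := by
    have h1 := (integrable_exp_neg_mul_sq (b := 1 / 4) (by norm_num)).comp_sub_right y
    refine h1.congr (Eventually.of_forall fun u => ?_)
    simp only
    congr 1
    ring
  have h1 : ∫ u in Ioi (0 : ℝ), Real.exp (-(0 - u) ^ 2 / 4) = ∫ u in Ioi y, Real.exp (-(y - u) ^ 2 / 4) := by
    have h2 := (measurePreserving_add_right volume y).setIntegral_preimage_emb
      (MeasurableEquiv.addRight y).measurableEmbedding (fun u : ℝ => Real.exp (-(y - u) ^ 2 / 4)) (Ioi y)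
    rw [← h2]
    have h3 : (fun x : ℝ => x + y) ⁻¹' Ioi y = Ioi 0 := by
      ext x
      simp
    rw [h3]
    refine setIntegral_congr_fun measurableSet_Ioi fun x _ => ?_
    have e : -(0 - x) ^ 2 / 4 = -(y - (x + y)) ^ 2 / 4 := by ring
    change Real.exp (-(0 - x) ^ 2 / 4) = Real.exp (-(y - (x + y)) ^ 2 / 4)
    rw [e]
  rw [h1]
  exact setIntegral_mono_set hint.integrableOn (Eventually.of_forall fun u => (Real.exp_pos _).le)
    (Eventually.of_forall fun u hu => lt_of_le_of_lt hy hu)

theorem term_norm' (a : ℂ) (s : ℂ) (l : ℝ) : ‖a * cexp (-(s * l))‖ = ‖a‖ * Real.exp (-(s.re * l)) := by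
  rw [norm_mul, Complex.norm_exp]
  simp

theorem expandC {ι : Type*} [Countable ι] {c : ι → ℂ} {Λ : ι → ℝ} {F : ℂ → ℂ} {s0 : ℂ} {b : ℝ} (hb : 0 < b)
    (hs : Summable fun l => ‖c l‖ * Real.exp (-((s0.re + b) * Λ l)))
    (hF : ∀ s : ℂ, s.re = s0.re + b → HasSum (fun l => c l * cexp (-(s * Λ l))) (F s)) (y : ℝ) :
    HasSum (fun l => 2 * Real.pi * (c l * cexp (-(s0 * Λ l)) * VV (y - Λ l)))
      (∫ v : ℝ, F (s0 + (b + v * I)) * cexp ((b + v * I) * y) * EE b v) := by
  set G : ι → ℝ → ℂ := fun l v => (c l * cexp (-((s0 + (b + v * I)) * Λ l))) *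
    cexp ((b + v * I) * y) * EE b v with hG
  have hre : ∀ v : ℝ, (s0 + (b + v * I)).re = s0.re + b := by
    intro v
    simp
  have hEc : Continuous (EE b) := by
    unfold EE
    refine Continuous.div (by fun_prop) (by fun_prop) fun v h => ?_
    have := congrArg Complex.re h
    simp at this
    exact hb.ne' this
  have hGn : ∀ l v, ‖G l v‖ = ‖c l‖ * Real.exp (-((s0.re + b) * Λ l)) * (Real.exp (b * y) * ‖EE b v‖) := by
    intro l v
    rw [hG]
    simp only
    rw [norm_mul, norm_mul, term_norm', hre, Complex.norm_exp]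
    have : (((b : ℂ) + v * I) * y).re = b * y := by simp
    rw [this]
    ring
  have hGi : ∀ l, Integrable (G l) := by
    intro l
    have h1 : Integrable fun v : ℝ =>
        ‖c l‖ * Real.exp (-((s0.re + b) * Λ l)) * (Real.exp (b * y) * ‖EE b v‖) :=
      ((EE_int hb.ne').norm.const_mul _).const_mul _
    refine h1.mono' ?_ (Eventually.of_forall fun v => (hGn l v).le)
    refine Continuous.aestronglyMeasurable ?_
    rw [hG]
    exact (Continuous.mul (by fun_prop) (by fun_prop)).mul hEc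
  have h2 : Summable fun l => ∫ v : ℝ, ‖G l v‖ := by
    have : ∀ l, ∫ v : ℝ, ‖G l v‖ =
        ‖c l‖ * Real.exp (-((s0.re + b) * Λ l)) * ∫ v : ℝ, Real.exp (b * y) * ‖EE b v‖ := by
      intro l
      rw [← integral_const_mul]
      congr 1
      ext v
      exact hGn l v
    simp_rw [this]
    exact hs.mul_right _
  have h3 := hasSum_integral_of_summable_integral_norm hGi h2
  have h4 : ∀ v : ℝ, ∑' l, G l v = F (s0 + (b + v * I)) * cexp ((b + v * I) * y) * EE b v := by
    intro v
    have h5 := ((hF (s0 + (b + v * I)) (hre v)).mul_right (cexp ((b + v * I) * y))).mul_right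
      (EE b v)
    exact h5.tsum_eq
  simp_rw [h4] at h3
  refine h3.congr_fun fun l => ?_
  have h6 := kernel (c := b) hb (y - Λ l)
  have h7 : ∀ v : ℝ, G l v = c l * cexp (-(s0 * Λ l)) *
      (cexp (((b : ℂ) + v * I) ^ 2 + (b + v * I) * (y - Λ l : ℝ)) / (b + v * I)) := by
    intro v
    rw [hG]
    simp only [EE]
    have e : cexp (-((s0 + (b + v * I)) * Λ l)) * cexp ((b + v * I) * y) *
        cexp (((b : ℂ) + v * I) ^ 2) = cexp (-(s0 * Λ l)) *
        cexp (((b : ℂ) + v * I) ^ 2 + (b + v * I) * (y - Λ l : ℝ)) := by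
      rw [← Complex.exp_add, ← Complex.exp_add, ← Complex.exp_add]
      congr 1
      push_cast
      ring
    rw [mul_div_assoc', mul_div_assoc']
    congr 1
    linear_combination (c l) * e
  simp_rw [h7]
  rw [integral_const_mul, h6]
  ring

variable {X : Type}

/-- products over a multi-index -/
noncomputable def Uc (u : X → ℂ) (l : TT X) : ℂ := ∏ i, u (l.2 i)

/-- the coefficients of the exponential -/
noncomputable def co (u v : X → ℂ) (l : TT X) : ℂ :=
  Uc u l * (starRingEnd ℂ) (Uc v l) / (l.1.factorial : ℂ)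

theorem co_sum {u v : X → ℂ} {L : X → ℝ} {s : ℂ}
    (hs : Summable fun x => ‖u x‖ * ‖v x‖ * Real.exp (-(s.re * L x))) :
    HasSum (fun l : TT X => co u v l * cexp (-(s * Lam L l)))
      (cexp (∑' x, u x * (starRingEnd ℂ) (v x) * cexp (-(s * L x)))) := by
  have h1 := complex_exp_sum (f := fun x => u x * (starRingEnd ℂ) (v x) * cexp (-(s * L x)))
    (hs.congr fun x => by
      rw [term_norm', norm_mul, RCLike.norm_conj])
  refine h1.congr_fun fun l => ?_
  unfold co Lam Uc
  rw [Finset.prod_mul_distrib, Finset.prod_mul_distrib, ← Complex.exp_sum, Finset.sum_neg_distrib,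
    ← Finset.mul_sum, map_prod]
  push_cast
  ring

theorem co_abs {u v : X → ℂ} {L : X → ℝ} {σ : ℝ}
    (hs : Summable fun x => ‖u x‖ * ‖v x‖ * Real.exp (-(σ * L x))) :
    HasSum (fun l : TT X => ‖co u v l‖ * Real.exp (-(σ * Lam L l)))
      (Real.exp (∑' x, ‖u x‖ * ‖v x‖ * Real.exp (-(σ * L x)))) := by
  refine (real_exp_sum hs fun x => by positivity).congr_fun fun l => ?_
  unfold co Lam Uc
  rw [Finset.prod_mul_distrib, Finset.prod_mul_distrib, ← Real.exp_sum, Finset.sum_neg_distrib,
    ← Finset.mul_sum, norm_div, norm_mul, RCLike.norm_conj, norm_prod, norm_prod, Complex.norm_natCast]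
  ring

theorem Lam_nonneg {L : X → ℝ} (hL : ∀ x, 0 ≤ L x) (l : TT X) : 0 ≤ Lam L l :=
  Finset.sum_nonneg fun _ _ => hL _

end Pool.Agent.N846.DT
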