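import Pool.Agent.N846.DT.Real

/-! The density bound at the finite places, one line of integration. -/

set_option autoImplicit false

namespace Pool.Agent.N846.DT

open Filter Topology Complex MeasureTheory Set
open Pool.Agent.TH949.RES (SphericalCuspForm)

variable {n : ℕ}

theorem log_p_ge (p : Nat.Primes) : 0.69 ≤ Real.log ((p : ℕ) : ℝ) := by
  have h2 : (2 : ℝ) ≤ ((p : ℕ) : ℝ) := by exact_mod_cast p.2.two_le
  have h3 := Real.log_le_log (by norm_num) h2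
  have h4 := Real.log_two_gt_d9
  norm_num at h4 ⊢
  linarith

/-- the Euler factor at `p` -/
noncomputable def EF (p : Nat.Primes) (α β : Nat.Primes → Fin n → ℂ) (s : ℂ) : ℂ :=
  ∏ i, ∏ j, (1 - α p i * (starRingEnd ℂ) (β p j) * Complex.exp (-(s * (Real.log ((p : ℕ) : ℝ) : ℂ))))

theorem EF_bound (p : Nat.Primes) {α β : Nat.Primes → Fin n → ℂ}
    (hα : ∀ i, ‖α p i‖ < ((p : ℕ) : ℝ) ^ (1 / 2 : ℝ)) (hβ : ∀ i, ‖β p i‖ < ((p : ℕ) : ℝ) ^ (1 / 2 : ℝ))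
    {σ₀ η' : ℝ} (hσ : 0 < σ₀) (hη' : 0 ≤ η') {s : ℂ} (hs : s.re = -σ₀) :
    ‖EF p α β s‖ ≤ 2 ^ (n ^ 2) * (((p : ℕ) : ℝ) ^ (2 * n ^ 2)) ^ (1 / 2 + σ₀ + η') := by
  have hp1 : (1 : ℝ) ≤ ((p : ℕ) : ℝ) := by exact_mod_cast p.2.one_lt.le
  have hp0 : (0 : ℝ) < ((p : ℕ) : ℝ) := by linarith
  unfold EF
  rw [norm_prod]
  simp_rw [norm_prod]
  calc _ ≤ ∏ _i : Fin n, ∏ _j : Fin n, (2 * ((p : ℕ) : ℝ) ^ (1 + σ₀)) := by
        refine prod2_le (fun i j => norm_nonneg _) fun i j => ?_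
        refine (norm_sub_le _ _).trans ?_
        rw [norm_one, norm_mul, norm_mul, RCLike.norm_conj, Complex.norm_exp]
        have e1 : (-(s * (Real.log ((p : ℕ) : ℝ) : ℂ))).re = Real.log ((p : ℕ) : ℝ) * σ₀ := by
          rw [Complex.neg_re, Complex.re_mul_ofReal, hs]
          ring
        rw [e1, ← Real.rpow_def_of_pos hp0]
        have e2 : ‖α p i‖ * ‖β p j‖ ≤ ((p : ℕ) : ℝ) := by
          have e3 : ((p : ℕ) : ℝ) = ((p : ℕ) : ℝ) ^ (1 / 2 : ℝ) * ((p : ℕ) : ℝ) ^ (1 / 2 : ℝ) := by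
            rw [← Real.rpow_add hp0]
            norm_num
          calc _ ≤ ((p : ℕ) : ℝ) ^ (1 / 2 : ℝ) * ((p : ℕ) : ℝ) ^ (1 / 2 : ℝ) :=
                mul_le_mul (hα i).le (hβ j).le (norm_nonneg _) (by positivity)
            _ = _ := e3.symm
        have e4 : ((p : ℕ) : ℝ) ^ (1 + σ₀) = ((p : ℕ) : ℝ) * ((p : ℕ) : ℝ) ^ σ₀ := by
          rw [Real.rpow_add hp0, Real.rpow_one]
        have e5 : 1 ≤ ((p : ℕ) : ℝ) ^ σ₀ := Real.one_le_rpow hp1 hσ.le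
        have e6 : ‖α p i‖ * ‖β p j‖ * ((p : ℕ) : ℝ) ^ σ₀ ≤ ((p : ℕ) : ℝ) * ((p : ℕ) : ℝ) ^ σ₀ :=
          mul_le_mul_of_nonneg_right e2 (by positivity)
        rw [e4]
        nlinarith
    _ = (2 * ((p : ℕ) : ℝ) ^ (1 + σ₀)) ^ (n ^ 2) := by
        simp_rw [Finset.prod_const, Finset.card_univ, Fintype.card_fin]
        rw [← pow_mul, sq]
    _ = 2 ^ (n ^ 2) * (((p : ℕ) : ℝ) ^ (1 + σ₀)) ^ (n ^ 2) := mul_pow _ _ _
    _ ≤ _ := by
        refine mul_le_mul_of_nonneg_left ?_ (by positivity)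
        rw [← Real.rpow_natCast, ← Real.rpow_natCast, ← Real.rpow_mul hp0.le, ← Real.rpow_mul hp0.le]
        refine Real.rpow_le_rpow_of_exponent_le hp1 ?_
        push_cast
        have : (0 : ℝ) ≤ (n : ℝ) ^ 2 := by positivity
        nlinarith

theorem fin_core (hP : S_PAIR) (hDi : S_DIAG) (hPP : S_PAIRP) (hn : 2 ≤ n) {σ₀ η η' : ℝ} (hσ : 0 < σ₀)
    (hη : 0 < η) (hη1 : η ≤ 1) (hη' : 0 < η') : ∃ A : ℝ, 0 < A ∧
    ∀ (ι : Type) [Fintype ι] (α : ι → Nat.Primes → Fin n → ℂ) (μ : ι → Fin n → ℂ), SphericalFamily α μ →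
      ∀ (p : Nat.Primes) (δ Q : ℝ), 0 ≤ δ → δ ≤ 1 / 2 → 1 ≤ Q →
        (∀ f, ∃ k, δ ≤ |Real.logb ((p : ℕ) : ℝ) ‖α f p k‖|) →
        (∀ f g, ∏ k, ∏ l, (1 + |(μ f k).im - (μ g l).im|) ≤ Q) →
        (Fintype.card ι : ℝ) ≤ A * (((p : ℕ) : ℝ) ^ (2 * n ^ 2) * Q) ^ ex σ₀ η η' δ := by
  obtain ⟨CP, hCP0, hCP⟩ := hP n σ₀ hσ
  obtain ⟨C1, hC10, hC1⟩ := hDi n hn η η' hη hη'
  obtain ⟨C2, hC20, hC2⟩ := hDi n hn σ₀ η' hσ hη'
  obtain ⟨A, hA0, hA⟩ := core_gen σ₀ η η'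
    (CP * (11 ^ (n ^ 2) : ℝ) ^ (1 / 2 + σ₀) * (C2 * (2 ^ (n ^ 2) : ℝ) ^ η') * 2 ^ (n ^ 2))
    (C1 * (2 ^ (n ^ 2) : ℝ) ^ η')
    ((n ^ 2 : ℕ) * (1 / 2 + σ₀)) hσ hη hη1 hη'.le (by positivity) (by positivity) (by positivity)
  refine ⟨A, hA0, ?_⟩
  intro ι _ α μ h p δ Q hδ hδ2 hQ hk hcond
  have hQ0 : 0 < Q := by linarith
  have hp1 : (1 : ℝ) < ((p : ℕ) : ℝ) := by exact_mod_cast p.2.one_lt
  have hp0 : (0 : ℝ) < ((p : ℕ) : ℝ) := by linarith
  have hlp := log_p_ge p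
  have hlp0 : 0 < Real.log ((p : ℕ) : ℝ) := by linarith
  set P : ℝ := ((p : ℕ) : ℝ) ^ (2 * n ^ 2) with hPdef
  have hP1 : 1 ≤ P := one_le_pow₀ hp1.le
  have hR1 : 1 ≤ P * Q := by nlinarith
  have hPQ : Q ≤ P * Q := by nlinarith
  -- the exceptional parameters
  have hi : ∀ f, ∃ i, δ ≤ Real.logb ((p : ℕ) : ℝ) ‖α f p i‖ := by
    intro f
    obtain ⟨k, hk1⟩ := hk f
    rcases le_total (Real.logb ((p : ℕ) : ℝ) ‖α f p k‖) 0 with h0 | h0
    · rw [abs_of_nonpos h0] at hk1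
      obtain ⟨τ, hτ⟩ := (h.form f).unitary p
      refine ⟨τ k, ?_⟩
      rw [hτ, norm_inv, RCLike.norm_conj, Real.logb_inv]
      exact hk1
    · rw [abs_of_nonneg h0] at hk1
      exact ⟨k, hk1⟩
  choose i hi1 using hi
  have hself : ∀ f, ∏ i, ∏ j, (1 + ‖μ f i - μ f j‖) ≤ 2 ^ (n ^ 2) * Q := fun f =>
    cond_self (h.real_bound f) (hcond f f)
  have hself1 : ∀ f, 1 ≤ ∏ i, ∏ j, (1 + ‖μ f i - μ f j‖) := fun f =>
    one_le_prod2 fun i j => by linarith [norm_nonneg (μ f i - μ f j)]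
  have hpow : ∀ f, (∏ i, ∏ j, (1 + ‖μ f i - μ f j‖)) ^ η' ≤ (2 ^ (n ^ 2) : ℝ) ^ η' * Q ^ η' := by
    intro f
    rw [← Real.mul_rpow (by positivity) hQ0.le]
    exact Real.rpow_le_rpow (by linarith [hself1 f]) (hself f) hη'.le
  have hD1 := fun f => hC1 (α f) (μ f) (h.form f) (h.finite_bound f) (h.real_bound f)
  have hD2 := fun f => hC2 (α f) (μ f) (h.form f) (h.finite_bound f) (h.real_bound f)
  have hpair := fun f g (hfg : f ≠ g) => hCP (α f) (α g) (μ f) (μ g) (h.form f) (h.form g) (h.real_bound f)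
    (h.real_bound g) (h.pair f g hfg)
  choose! F hF1 hF2 hF3 using hpair
  set s : ι → ℂ := fun f => Complex.log (α f p (i f)) / (Real.log ((p : ℕ) : ℝ) : ℂ) with hs
  have hsre : ∀ f, (s f).re = Real.logb ((p : ℕ) : ℝ) ‖α f p (i f)‖ := by
    intro f
    simp only [hs]
    rw [Complex.div_ofReal_re, Complex.log_re]
    rfl
  have hsim : ∀ f, |(s f).im| ≤ 5 := by
    intro f
    simp only [hs]
    rw [Complex.div_ofReal_im, Complex.log_im, abs_div, abs_of_pos hlp0, div_le_iff₀ hlp0]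
    have h1 := Complex.abs_arg_le_pi (α f p (i f))
    have h2 := Real.pi_lt_d2
    nlinarith
  have hexp : ∀ f, cexp (s f * (Real.log ((p : ℕ) : ℝ) : ℂ)) = α f p (i f) := by
    intro f
    have hne : ((Real.log ((p : ℕ) : ℝ) : ℝ) : ℂ) ≠ 0 := by exact_mod_cast hlp0.ne'
    simp only [hs]
    rw [div_mul_cancel₀ _ hne, Complex.exp_log ((h.form f).ne_zero p (i f))]
  have him : ∀ f g, |(s f + (starRingEnd ℂ) (s g)).im| ≤ 10 := by
    intro f g
    rw [add_im, conj_im]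
    have h1 := abs_le.1 (hsim f)
    have h2 := abs_le.1 (hsim g)
    rw [abs_le]
    constructor <;> linarith [h1.1, h1.2, h2.1, h2.2]
  have hule : ∀ f (x : PX), ‖uP p (α f) x‖ ^ 2 ≤ ‖uX (α f) x‖ ^ 2 := by
    intro f x
    unfold uP
    split_ifs
    · simp
    · exact le_rfl
  refine hA PX ι (fun f => uP p (α f)) LX s (fun f g s => F f g s * EF p (α f) (α g) s) δ (P * Q) LX_nonneg
    hδ hδ2 hR1 ?_ ?_ ?_ ?_ ?_ ?_ ?_
  · intro f
    rw [hsre]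
    exact hi1 f
  · intro f
    rw [hsre]
    have h1 := h.finite_bound f p (i f)
    have h2 : 0 < ‖α f p (i f)‖ := norm_pos_iff.2 ((h.form f).ne_zero p (i f))
    rw [Real.logb_le_iff_le_rpow hp1 h2]
    exact h1.le
  · intro f
    refine Summable.of_nonneg_of_le (fun x => by positivity) (fun x => ?_) (hD1 f).1
    exact mul_le_mul_of_nonneg_right (hule f x) (Real.exp_pos _).le
  · intro f
    have h1 : ∑' x, ‖uP p (α f) x‖ ^ 2 * Real.exp (-((1 + η) * LX x)) ≤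
        ∑' x, ‖uX (α f) x‖ ^ 2 * Real.exp (-((1 + η) * LX x)) := by
      refine Summable.tsum_le_tsum (fun x => mul_le_mul_of_nonneg_right (hule f x) (Real.exp_pos _).le)
        (Summable.of_nonneg_of_le (fun x => by positivity) (fun x => ?_) (hD1 f).1) (hD1 f).1
      exact mul_le_mul_of_nonneg_right (hule f x) (Real.exp_pos _).le
    refine (Real.exp_le_exp.2 h1).trans ((hD1 f).2.trans ?_)
    rw [mul_assoc]
    refine mul_le_mul_of_nonneg_left ((hpow f).trans ?_) hC10.le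
    exact mul_le_mul_of_nonneg_left (Real.rpow_le_rpow hQ0.le hPQ hη'.le) (by positivity)
  · intro f g hfg
    exact hPP n p (α f) (α g) (F f g) (h.finite_bound f) (h.finite_bound g) (hF1 f g hfg)
  · intro f g hfg
    have h1 : EF p (α f) (α g) (s f + (starRingEnd ℂ) (s g)) = 0 := by
      unfold EF
      refine Finset.prod_eq_zero (Finset.mem_univ (i f)) (Finset.prod_eq_zero (Finset.mem_univ (i g)) ?_)
      have h2 : cexp (-((s f + (starRingEnd ℂ) (s g)) * (Real.log ((p : ℕ) : ℝ) : ℂ))) =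
          (α f p (i f) * (starRingEnd ℂ) (α g p (i g)))⁻¹ := by
        rw [Complex.exp_neg, add_mul, Complex.exp_add, hexp f]
        congr 2
        rw [← hexp g, ← Complex.exp_conj]
        congr 1
        rw [map_mul, Complex.conj_ofReal]
      rw [h2, mul_inv_cancel₀, sub_self]
      refine mul_ne_zero ((h.form f).ne_zero _ _) ?_
      rw [Ne, map_eq_zero]
      exact (h.form g).ne_zero _ _
    simp only [h1, mul_zero]
  · intro f g hfg v
    have h1 := hF3 f g hfg ((s f + (starRingEnd ℂ) (s g)).im + v)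
    set t0 : ℝ := (s f + (starRingEnd ℂ) (s g)).im with ht0
    have ht0b : |t0| ≤ 10 := him f g
    have h2 := EF_bound p (α := α f) (β := α g) (h.finite_bound f p) (h.finite_bound g p) hσ hη'.le
      (s := ((-σ₀ : ℝ) : ℂ) + (t0 + v : ℝ) * I) (by simp)
    simp only [norm_mul]
    have e1 : ∏ k, ∏ l, (1 + |(t0 + v) + (μ f k - μ g l).im|) ≤ 11 ^ (n ^ 2) * Q * (1 + |v|) ^ (n ^ 2) := by
      calc _ ≤ ∏ k, ∏ l, ((11 * (1 + |v|)) * (1 + |(μ f k).im - (μ g l).im|)) := by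
            refine prod2_le (fun k l => by positivity) fun k l => ?_
            rw [sub_im]
            have e3 := abs_add_le (t0 + v) ((μ f k).im - (μ g l).im)
            have e4 := abs_add_le t0 v
            have e5 := mul_nonneg (abs_nonneg v) (abs_nonneg ((μ f k).im - (μ g l).im))
            nlinarith [abs_nonneg v, abs_nonneg ((μ f k).im - (μ g l).im)]
        _ = (11 * (1 + |v|)) ^ (n ^ 2) * ∏ k, ∏ l, (1 + |(μ f k).im - (μ g l).im|) :=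
            prod2_const_mul _ _
        _ ≤ (11 * (1 + |v|)) ^ (n ^ 2) * Q := mul_le_mul_of_nonneg_left (hcond f g) (by positivity)
        _ = _ := by rw [mul_pow]; ring
    have e4 : (∏ k, ∏ l, (1 + |(t0 + v) + (μ f k - μ g l).im|)) ^ (1 / 2 + σ₀) ≤
        (11 ^ (n ^ 2) : ℝ) ^ (1 / 2 + σ₀) * Q ^ (1 / 2 + σ₀) * (1 + |v|) ^ ((n ^ 2 : ℕ) * (1 / 2 + σ₀)) := by
      refine (Real.rpow_le_rpow (Finset.prod_nonneg fun k _ => Finset.prod_nonneg fun l _ => by positivity)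
        e1 (by linarith)).trans (le_of_eq ?_)
      rw [Real.mul_rpow (by positivity) (by positivity), Real.mul_rpow (by positivity) hQ0.le,
        ← Real.rpow_natCast (1 + |v|) (n ^ 2), ← Real.rpow_mul (by positivity)]
    have e5 : Real.exp ((∑' x : PX, ‖uX (α f) x‖ ^ 2 * Real.exp (-((1 + σ₀) * LX x))) / 2 +
        (∑' x : PX, ‖uX (α g) x‖ ^ 2 * Real.exp (-((1 + σ₀) * LX x))) / 2) ≤
        C2 * (2 ^ (n ^ 2) : ℝ) ^ η' * Q ^ η' := by
      rw [mul_assoc]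
      exact half_exp ((hD2 f).2.trans (mul_le_mul_of_nonneg_left (hpow f) hC20.le))
        ((hD2 g).2.trans (mul_le_mul_of_nonneg_left (hpow g) hC20.le))
    have e6 : ‖F f g (((-σ₀ : ℝ) : ℂ) + (t0 + v : ℝ) * I)‖ ≤
        CP * ((11 ^ (n ^ 2) : ℝ) ^ (1 / 2 + σ₀) * Q ^ (1 / 2 + σ₀) * (1 + |v|) ^ ((n ^ 2 : ℕ) * (1 / 2 + σ₀))) *
          (C2 * (2 ^ (n ^ 2) : ℝ) ^ η' * Q ^ η') := by
      refine h1.trans ?_
      refine mul_le_mul (mul_le_mul_of_nonneg_left e4 hCP0.le) e5 (Real.exp_pos _).le (by positivity)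
    refine (mul_le_mul e6 h2 (norm_nonneg _) (by positivity)).trans (le_of_eq ?_)
    rw [Real.mul_rpow (by linarith) hQ0.le, Real.rpow_add hQ0 (1 / 2 + σ₀) η']
    ring

end Pool.Agent.N846.DT
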