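import Pool.Agent.N846.DT.Fin

/-! The density theorem: all parts. -/

set_option autoImplicit false

namespace Pool.Agent.N846.DT

open Filter Topology Complex MeasureTheory Set
open Pool.Agent.TH949.RES (SphericalCuspForm)

variable {n : ℕ}

theorem SphericalFamily.sub {ι : Type} {α : ι → Nat.Primes → Fin n → ℂ} {μ : ι → Fin n → ℂ}
    (h : SphericalFamily α μ) {κ : Type} (e : κ → ι) (he : Function.Injective e) :
    SphericalFamily (fun f => α (e f)) (fun f => μ (e f)) :=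
  ⟨fun f => h.form _, fun f => h.finite_bound _, fun f => h.real_bound _,
    fun f g hfg => h.pair _ _ fun h' => hfg (he h')⟩

theorem finite_of_bound {ι : Type} {S : Set ι} {B : ℝ} (h : ∀ T : Finset ι, (∀ f ∈ T, f ∈ S) → (T.card : ℝ) ≤ B) :
    S.Finite ∧ (S.ncard : ℝ) ≤ B := by
  have hfin : S.Finite := by
    by_contra hinf
    obtain ⟨m, hm⟩ := exists_nat_gt B
    obtain ⟨T, hT, hTc⟩ := Set.Infinite.exists_subset_card_eq hinf m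
    have := h T fun f hf => hT hf
    rw [hTc] at this
    linarith
  refine ⟨hfin, ?_⟩
  have := h hfin.toFinset fun f hf => by simpa using hf
  rwa [← Set.ncard_eq_toFinset_card S hfin] at this

theorem dens_le_one {δ : ℝ} (hδ : 0 ≤ δ) (hδ2 : δ ≤ 1 / 2) : 0 ≤ dens δ ∧ dens δ ≤ 1 := by
  unfold dens
  have h1 : (1 : ℝ) ≤ max 1 (4 * δ) := le_max_left _ _
  refine ⟨div_nonneg (by linarith) (by linarith), ?_⟩
  rw [div_le_one (by linarith)]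
  linarith

/-- the two choices of the line -/
theorem two_lines {P : ℝ → ℝ → ℝ → ℝ → ℝ → Prop}
    (h : ∀ σ₀ η η' : ℝ, 0 < σ₀ → 0 < η → η ≤ 1 → 0 < η' → ∃ A : ℝ, 0 < A ∧ ∀ δ R c : ℝ, 0 ≤ δ → δ ≤ 1 / 2 →
      1 ≤ R → P δ R c 0 0 → c ≤ A * R ^ ex σ₀ η η' δ) {ε : ℝ} (hε : 0 < ε) :
    ∃ A : ℝ, 0 < A ∧ ∀ δ R c : ℝ, 0 ≤ δ → δ ≤ 1 / 2 → 1 ≤ R → P δ R c 0 0 → c ≤ A * R ^ (dens δ + ε) := by
  set e : ℝ := min ε 1 with he
  have he0 : 0 < e := lt_min hε one_pos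
  have he1 : e ≤ 1 := min_le_right _ _
  have hee : e ≤ ε := min_le_left _ _
  obtain ⟨A1, hA1, h1⟩ := h (4 / e) (e / 4) (e / 4) (by positivity) (by positivity) (by linarith) (by positivity)
  obtain ⟨A2, hA2, h2⟩ := h (e / 10) (e / 10) (e / 10) (by positivity) (by positivity) (by linarith) (by positivity)
  refine ⟨A1 + A2, by positivity, fun δ R c hδ hδ2 hR hP => ?_⟩
  have hX : 0 ≤ R ^ (dens δ + ε) := by positivity
  rcases le_total δ (1 / 4) with h4 | h4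
  · refine (h1 δ R c hδ hδ2 hR hP).trans ?_
    have h5 : R ^ ex (4 / e) (e / 4) (e / 4) δ ≤ R ^ (dens δ + ε) :=
      Real.rpow_le_rpow_of_exponent_le hR ((ex_small he0 he1 hδ h4).trans (by linarith))
    nlinarith
  · refine (h2 δ R c hδ hδ2 hR hP).trans ?_
    have h5 : R ^ ex (e / 10) (e / 10) (e / 10) δ ≤ R ^ (dens δ + ε) :=
      Real.rpow_le_rpow_of_exponent_le hR ((ex_large he0 he1 h4 hδ2).trans (by linarith))
    nlinarith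

/-- the real place -/
theorem real_all (hP : S_PAIR) (hDi : S_DIAG) (hn : 2 ≤ n) {ε : ℝ} (hε : 0 < ε) : ∃ A : ℝ, 0 < A ∧
    ∀ (ι : Type) (α : ι → Nat.Primes → Fin n → ℂ) (μ : ι → Fin n → ℂ), SphericalFamily α μ →
      ∀ (δ Q : ℝ) (γ : ι → ℝ) (S : Set ι), 0 ≤ δ → 1 ≤ Q →
        (∀ f ∈ S, ∃ k, (μ f k).im = γ f ∧ δ ≤ |(μ f k).re|) →
        (∀ f ∈ S, ∀ g ∈ S, ∏ k, ∏ l, (1 + |((μ f k).im - γ f) - ((μ g l).im - γ g)|) ≤ Q) →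
        S.Finite ∧ (S.ncard : ℝ) ≤ A * Q ^ (dens δ + ε) := by
  obtain ⟨A, hA0, hA⟩ := two_lines (P := fun δ R c _ _ => ∃ (ι : Type) (_ : Fintype ι)
      (α : ι → Nat.Primes → Fin n → ℂ) (μ : ι → Fin n → ℂ) (γ : ι → ℝ), SphericalFamily α μ ∧
        (∀ f, ∃ k, (μ f k).im = γ f ∧ δ ≤ |(μ f k).re|) ∧
        (∀ f g, ∏ k, ∏ l, (1 + |((μ f k).im - γ f) - ((μ g l).im - γ g)|) ≤ R) ∧ c = (Fintype.card ι : ℝ))
    (fun σ₀ η η' hσ hη hη1 hη' => by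
      obtain ⟨A, hA0, hA⟩ := real_core (n := n) hP hDi hn hσ hη hη1 hη'
      refine ⟨A, hA0, ?_⟩
      rintro δ R c hδ hδ2 hR ⟨ι, hι, α, μ, γ, h1, h2, h3, rfl⟩
      exact hA ι α μ h1 δ R γ hδ hδ2 hR h2 h3) hε
  refine ⟨A, hA0, ?_⟩
  intro ι α μ h δ Q γ S hδ hQ hk hcond
  have hQX : 0 ≤ A * Q ^ (dens δ + ε) := by positivity
  refine finite_of_bound fun T hT => ?_
  rcases T.eq_empty_or_nonempty with hTe | ⟨f0, hf0⟩
  · rw [hTe]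
    simpa using hQX
  have hδ2 : δ ≤ 1 / 2 := by
    obtain ⟨k, -, hk2⟩ := hk f0 (hT f0 hf0)
    linarith [h.real_bound f0 k]
  refine hA δ Q (T.card : ℝ) hδ hδ2 hQ ⟨{f // f ∈ T}, inferInstance, fun f => α f.1, fun f => μ f.1,
    fun f => γ f.1, h.sub (fun f : {f // f ∈ T} => f.1) Subtype.val_injective,
    fun f => hk f.1 (hT _ f.2), fun f g => hcond f.1 (hT _ f.2) g.1 (hT _ g.2), ?_⟩
  simp

/-- the finite places -/
theorem fin_all (hP : S_PAIR) (hDi : S_DIAG) (hPP : S_PAIRP) (hn : 2 ≤ n) {ε : ℝ} (hε : 0 < ε) :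
    ∃ A : ℝ, 0 < A ∧
    ∀ (ι : Type) (α : ι → Nat.Primes → Fin n → ℂ) (μ : ι → Fin n → ℂ), SphericalFamily α μ →
      ∀ (p : Nat.Primes) (δ Q : ℝ) (S : Set ι), 0 ≤ δ → 1 ≤ Q →
        (∀ f ∈ S, ∃ k, δ ≤ |Real.logb ((p : ℕ) : ℝ) ‖α f p k‖|) →
        (∀ f ∈ S, ∀ g ∈ S, ∏ k, ∏ l, (1 + |(μ f k).im - (μ g l).im|) ≤ Q) →
        S.Finite ∧ (S.ncard : ℝ) ≤ A * (((p : ℕ) : ℝ) ^ (2 * n ^ 2) * Q) ^ (dens δ + ε) := by
  obtain ⟨A, hA0, hA⟩ := two_lines (P := fun δ R c _ _ => ∃ (ι : Type) (_ : Fintype ι)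
      (α : ι → Nat.Primes → Fin n → ℂ) (μ : ι → Fin n → ℂ) (p : Nat.Primes) (Q : ℝ), SphericalFamily α μ ∧
        (∀ f, ∃ k, δ ≤ |Real.logb ((p : ℕ) : ℝ) ‖α f p k‖|) ∧ 1 ≤ Q ∧
        (∀ f g, ∏ k, ∏ l, (1 + |(μ f k).im - (μ g l).im|) ≤ Q) ∧ c = (Fintype.card ι : ℝ) ∧
        R = ((p : ℕ) : ℝ) ^ (2 * n ^ 2) * Q)
    (fun σ₀ η η' hσ hη hη1 hη' => by
      obtain ⟨A, hA0, hA⟩ := fin_core (n := n) hP hDi hPP hn hσ hη hη1 hη'
      refine ⟨A, hA0, ?_⟩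
      rintro δ R c hδ hδ2 hR ⟨ι, hι, α, μ, p, Q, h1, h2, h3, h4, rfl, rfl⟩
      exact hA ι α μ h1 p δ Q hδ hδ2 h3 h2 h4) hε
  refine ⟨A, hA0, ?_⟩
  intro ι α μ h p δ Q S hδ hQ hk hcond
  have hp1 : (1 : ℝ) < ((p : ℕ) : ℝ) := by exact_mod_cast p.2.one_lt
  have hP1 : (1 : ℝ) ≤ ((p : ℕ) : ℝ) ^ (2 * n ^ 2) := one_le_pow₀ hp1.le
  have hR1 : 1 ≤ ((p : ℕ) : ℝ) ^ (2 * n ^ 2) * Q := by nlinarith
  have hQX : 0 ≤ A * (((p : ℕ) : ℝ) ^ (2 * n ^ 2) * Q) ^ (dens δ + ε) := by positivity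
  refine finite_of_bound fun T hT => ?_
  rcases T.eq_empty_or_nonempty with hTe | ⟨f0, hf0⟩
  · rw [hTe]
    simpa using hQX
  have hδ2 : δ ≤ 1 / 2 := by
    obtain ⟨k, hk2⟩ := hk f0 (hT f0 hf0)
    have hub : ∀ i, Real.logb ((p : ℕ) : ℝ) ‖α f0 p i‖ ≤ 1 / 2 := by
      intro i
      have h2 : 0 < ‖α f0 p i‖ := norm_pos_iff.2 ((h.form f0).ne_zero p i)
      rw [Real.logb_le_iff_le_rpow hp1 h2]
      exact (h.finite_bound f0 p i).le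
    rcases le_total (Real.logb ((p : ℕ) : ℝ) ‖α f0 p k‖) 0 with h0 | h0
    · rw [abs_of_nonpos h0] at hk2
      obtain ⟨τ, hτ⟩ := (h.form f0).unitary p
      have h3 := hub (τ k)
      rw [hτ, norm_inv, RCLike.norm_conj, Real.logb_inv] at h3
      linarith
    · rw [abs_of_nonneg h0] at hk2
      linarith [hub k]
  refine hA δ _ (T.card : ℝ) hδ hδ2 hR1 ⟨{f // f ∈ T}, inferInstance, fun f => α f.1, fun f => μ f.1,
    p, Q, h.sub (fun f : {f // f ∈ T} => f.1) Subtype.val_injective,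
    fun f => hk f.1 (hT _ f.2), hQ, fun f g => hcond f.1 (hT _ f.2) g.1 (hT _ g.2), ?_, rfl⟩
  simp

end Pool.Agent.N846.DT
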