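import Pool.Agent.N846.DT.Stm
import Pool.Agent.Y180.GL.Gam

/-!
# Project DT (helper846), part GAM (helper614): the quotient of two Gamma factors

Two-sided Stirling bounds in vertical strips from the lower bound `gam_all` and the reflection formula.
-/

set_option autoImplicit false

namespace Pool.Agent.N846.DT

open Complex MeasureTheory
open Pool.Agent.Y180.GL (cG cG_pos gam_all)

namespace GAM

lemma nrm_le (x t : ℝ) (ht : 0 ≤ t) : ‖(x : ℂ) + t * I‖ ≤ |x| + t := by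
  calc ‖(x : ℂ) + t * I‖ ≤ ‖(x : ℂ)‖ + ‖(t : ℂ) * I‖ := norm_add_le _ _
    _ = |x| + t := by
      rw [norm_mul, Complex.norm_I, mul_one, Complex.norm_real, Complex.norm_real,
        Real.norm_eq_abs, Real.norm_of_nonneg ht]

lemma ne0 (x t : ℝ) (ht : 1 ≤ t) : (x : ℂ) + t * I ≠ 0 := by
  intro h
  have := congrArg Complex.im h
  simp at this
  linarith

/-- lower bound, all real parts -/
lemma low (n : ℕ) : ∃ c : ℝ, 0 < c ∧ ∀ x t : ℝ, -(n : ℝ) < x → 1 ≤ t →
    c * t ^ (x - 1 / 2) * Real.exp (-(Real.pi / 2 * t)) ≤ ‖Gamma ((x : ℂ) + t * I)‖ := by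
  induction n with
  | zero => exact ⟨cG, cG_pos, fun x t h0 ht => gam_all (by simpa using h0) ht⟩
  | succ n ih =>
    obtain ⟨c, hc, h⟩ := ih
    refine ⟨min cG (c / (n + 2)), lt_min cG_pos (by positivity), ?_⟩
    intro x t hx ht
    have ht0 : 0 < t := by linarith
    rcases lt_or_ge 0 x with h0 | h0
    · refine le_trans ?_ (gam_all h0 ht)
      gcongr
      exact min_le_left _ _
    · push_cast at hx
      have h1 := h (x + 1) t (by linarith) ht
      have e : (((x + 1 : ℝ) : ℂ) + t * I) = ((x : ℂ) + t * I) + 1 := by push_cast; ring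
      rw [e, Complex.Gamma_add_one _ (ne0 x t ht), norm_mul] at h1
      have h2 : ‖(x : ℂ) + t * I‖ ≤ (n + 2) * t := by
        refine (nrm_le x t ht0.le).trans ?_
        rw [abs_of_nonpos h0]
        nlinarith
      have h3 : ‖(x : ℂ) + t * I‖ * ‖Gamma ((x : ℂ) + t * I)‖ ≤
          ((n + 2) * t) * ‖Gamma ((x : ℂ) + t * I)‖ :=
        mul_le_mul_of_nonneg_right h2 (norm_nonneg _)
      have h4 : t ^ (x + 1 - 1 / 2) = t * t ^ (x - 1 / 2) := by
        rw [show x + 1 - 1 / 2 = 1 + (x - 1 / 2) by ring, Real.rpow_add ht0, Real.rpow_one]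
      rw [h4] at h1
      have h5 := h1.trans h3
      have h6 : t * ((n + 2) * (c / (n + 2) * t ^ (x - 1 / 2) * Real.exp (-(Real.pi / 2 * t)))) ≤
          t * ((n + 2) * ‖Gamma ((x : ℂ) + t * I)‖) := by
        have e1 : t * ((n + 2) * (c / (n + 2) * t ^ (x - 1 / 2) * Real.exp (-(Real.pi / 2 * t)))) =
            c * (t * t ^ (x - 1 / 2)) * Real.exp (-(Real.pi / 2 * t)) := by
          field_simp
        rw [e1]
        linarith
      have h7 := le_of_mul_le_mul_left (le_of_mul_le_mul_left h6 ht0) (by positivity)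
      refine le_trans ?_ h7
      gcongr
      exact min_le_right _ _

lemma sin_low (x t : ℝ) : Real.sinh (Real.pi * t) ≤ ‖Complex.sin (Real.pi * ((x : ℂ) + t * I))‖ := by
  have h : Complex.sin (Real.pi * ((x : ℂ) + t * I)) =
      ⟨Real.sin (Real.pi * x) * Real.cosh (Real.pi * t),
        Real.cos (Real.pi * x) * Real.sinh (Real.pi * t)⟩ := by
    rw [show (Real.pi : ℂ) * ((x : ℂ) + t * I) =
      ((Real.pi * x : ℝ) : ℂ) + ((Real.pi * t : ℝ) : ℂ) * I by push_cast; ring,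
      Complex.sin_add_mul_I]
    rw [← ofReal_cos, ← ofReal_cosh, ← ofReal_sin, ← ofReal_sinh]
    have hx : ∀ a b c d : ℝ, ((a : ℂ) * (b : ℂ) + (c : ℂ) * (d : ℂ) * I) = ⟨a * b, c * d⟩ := by
      intro a b c d
      apply Complex.ext <;> simp
    exact hx _ _ _ _
  rw [h]
  refine le_trans (le_abs_self _) ?_
  rw [← Real.sqrt_sq_eq_abs]
  rw [Complex.norm_def]
  apply Real.sqrt_le_sqrt
  rw [Complex.normSq_mk]
  have h1 := Real.sin_sq_add_cos_sq (Real.pi * x)
  have h2 := Real.cosh_sq (Real.pi * t)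
  nlinarith [sq_nonneg (Real.sin (Real.pi * x)), sq_nonneg (Real.cos (Real.pi * x))]

/-- upper bound -/
lemma up (n : ℕ) : ∃ C : ℝ, 0 < C ∧ ∀ x t : ℝ, x < n + 1 → 1 ≤ t →
    ‖Gamma ((x : ℂ) + t * I)‖ ≤ C * t ^ (x - 1 / 2) * Real.exp (-(Real.pi / 2 * t)) := by
  have hcG := cG_pos
  have hπ := Real.pi_gt_three
  induction n with
  | zero =>
    refine ⟨4 * Real.pi / cG, by positivity, ?_⟩
    intro x t hx ht
    have ht0 : 0 < t := by linarith
    have hx1 : 0 < 1 - x := by simp at hx; linarith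
    have h1 := gam_all hx1 ht
    have h2 := Complex.Gamma_mul_Gamma_one_sub ((x : ℂ) + t * I)
    have h3 : ‖Gamma (1 - ((x : ℂ) + t * I))‖ = ‖Gamma (((1 - x : ℝ) : ℂ) + t * I)‖ := by
      have : (1 - ((x : ℂ) + t * I)) = (starRingEnd ℂ) (((1 - x : ℝ) : ℂ) + t * I) := by
        apply Complex.ext <;> simp
      rw [this, Complex.Gamma_conj, RCLike.norm_conj]
    have h4 := congrArg norm h2
    rw [norm_mul, norm_div, h3, Complex.norm_real, Real.norm_of_nonneg Real.pi_pos.le] at h4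
    have hs := sin_low x t
    have hsh : Real.exp (Real.pi * t) / 4 ≤ Real.sinh (Real.pi * t) := by
      rw [Real.sinh_eq]
      have e1 : (1 : ℝ) ≤ Real.pi * t := by nlinarith
      have e2 := Real.add_one_le_exp (Real.pi * t)
      have e3 : Real.exp (-(Real.pi * t)) ≤ 1 := Real.exp_le_one_iff.2 (by linarith)
      linarith
    have hsp : 0 < ‖Complex.sin (Real.pi * ((x : ℂ) + t * I))‖ := by
      have := Real.exp_pos (Real.pi * t)
      linarith
    -- G * G' * sin = π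
    have h5 : ‖Gamma ((x : ℂ) + t * I)‖ * (cG * t ^ (1 - x - 1 / 2) *
        Real.exp (-(Real.pi / 2 * t))) * (Real.exp (Real.pi * t) / 4) ≤ Real.pi := by
      calc _ ≤ ‖Gamma ((x : ℂ) + t * I)‖ * ‖Gamma (((1 - x : ℝ) : ℂ) + t * I)‖ *
            ‖Complex.sin (Real.pi * ((x : ℂ) + t * I))‖ := by
            gcongr
            exact hsh.trans hs
        _ = Real.pi := by
            rw [h4]
            field_simp
    have h6 : t ^ (1 - x - 1 / 2) * t ^ (x - 1 / 2) = 1 := by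
      rw [← Real.rpow_add ht0, show 1 - x - 1 / 2 + (x - 1 / 2) = 0 by ring, Real.rpow_zero]
    have h7 : Real.exp (-(Real.pi / 2 * t)) * Real.exp (Real.pi * t) *
        Real.exp (-(Real.pi / 2 * t)) = 1 := by
      rw [← Real.exp_add, ← Real.exp_add]
      have : -(Real.pi / 2 * t) + Real.pi * t + -(Real.pi / 2 * t) = 0 := by ring
      rw [this, Real.exp_zero]
    have h8 : ‖Gamma ((x : ℂ) + t * I)‖ = (‖Gamma ((x : ℂ) + t * I)‖ * (cG * t ^ (1 - x - 1 / 2) *
        Real.exp (-(Real.pi / 2 * t))) * (Real.exp (Real.pi * t) / 4)) * (4 / cG) *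
        (t ^ (x - 1 / 2) * Real.exp (-(Real.pi / 2 * t))) := by
      have e1 : (‖Gamma ((x : ℂ) + t * I)‖ * (cG * t ^ (1 - x - 1 / 2) *
        Real.exp (-(Real.pi / 2 * t))) * (Real.exp (Real.pi * t) / 4)) * (4 / cG) *
        (t ^ (x - 1 / 2) * Real.exp (-(Real.pi / 2 * t))) = ‖Gamma ((x : ℂ) + t * I)‖ *
        (t ^ (1 - x - 1 / 2) * t ^ (x - 1 / 2)) * (Real.exp (-(Real.pi / 2 * t)) *
        Real.exp (Real.pi * t) * Real.exp (-(Real.pi / 2 * t))) := by
        field_simp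
      rw [e1, h6, h7, mul_one, mul_one]
    rw [h8]
    calc _ ≤ Real.pi * (4 / cG) * (t ^ (x - 1 / 2) * Real.exp (-(Real.pi / 2 * t))) := by
          gcongr
      _ = _ := by ring
  | succ n ih =>
    obtain ⟨C, hC, h⟩ := ih
    refine ⟨max C (C * (n + 2)), lt_max_of_lt_left hC, ?_⟩
    intro x t hx ht
    have ht0 : 0 < t := by linarith
    rcases lt_or_ge x 1 with h0 | h0
    · refine le_trans (h x t (by have : (0:ℝ) ≤ n := Nat.cast_nonneg n; linarith) ht) ?_
      gcongr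
      exact le_max_left _ _
    · push_cast at hx
      have h1 := h (x - 1) t (by linarith) ht
      have e : ((x : ℂ) + t * I) = (((x - 1 : ℝ) : ℂ) + t * I) + 1 := by push_cast; ring
      rw [e, Complex.Gamma_add_one _ (ne0 (x - 1) t ht), norm_mul]
      have h2 : ‖((x - 1 : ℝ) : ℂ) + t * I‖ ≤ (n + 2) * t := by
        refine (nrm_le (x - 1) t ht0.le).trans ?_
        rw [abs_of_nonneg (by linarith)]
        nlinarith
      have h4 : t ^ (x - 1 / 2) = t * t ^ (x - 1 - 1 / 2) := by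
        rw [show x - 1 / 2 = 1 + (x - 1 - 1 / 2) by ring, Real.rpow_add ht0, Real.rpow_one]
      rw [h4]
      calc ‖((x - 1 : ℝ) : ℂ) + t * I‖ * ‖Gamma (((x - 1 : ℝ) : ℂ) + t * I)‖
          ≤ ((n + 2) * t) * (C * t ^ (x - 1 - 1 / 2) * Real.exp (-(Real.pi / 2 * t))) := by
            gcongr
        _ = (C * (n + 2)) * (t * t ^ (x - 1 - 1 / 2)) * Real.exp (-(Real.pi / 2 * t)) := by ring
        _ ≤ _ := by
            gcongr
            exact le_max_right _ _

/-- the quotient for large imaginary part -/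
lemma quo (a : ℝ) (B : ℝ) : ∃ C : ℝ, 0 < C ∧ ∀ x y : ℝ, -B ≤ x → x ≤ B → 1 ≤ |y| →
    ‖Gamma ((((x + a : ℝ) : ℂ) + y * I)) * (Gamma ((x : ℂ) + y * I))⁻¹‖ ≤ C * |y| ^ a := by
  obtain ⟨n, hn⟩ := exists_nat_gt B
  obtain ⟨m, hm⟩ := exists_nat_gt (B + a)
  obtain ⟨c, hc, h1⟩ := low n
  obtain ⟨C, hC, h2⟩ := up m
  refine ⟨C / c, by positivity, ?_⟩
  -- positive imaginary part
  have key : ∀ x y : ℝ, -B ≤ x → x ≤ B → 1 ≤ y →
      ‖Gamma ((((x + a : ℝ) : ℂ) + y * I)) * (Gamma ((x : ℂ) + y * I))⁻¹‖ ≤ C / c * y ^ a := by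
    intro x y hx1 hx2 hy
    have hy0 : 0 < y := by linarith
    have g1 := h1 x y (by linarith) hy
    have g2 := h2 (x + a) y (by linarith) hy
    rw [norm_mul, norm_inv]
    have hp : 0 < c * y ^ (x - 1 / 2) * Real.exp (-(Real.pi / 2 * y)) := by positivity
    have hp2 : 0 < ‖Gamma ((x : ℂ) + y * I)‖ := hp.trans_le g1
    rw [← div_eq_mul_inv, div_le_iff₀ hp2]
    calc ‖Gamma (((x + a : ℝ) : ℂ) + y * I)‖
        ≤ C * y ^ (x + a - 1 / 2) * Real.exp (-(Real.pi / 2 * y)) := g2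
      _ = C / c * y ^ a * (c * y ^ (x - 1 / 2) * Real.exp (-(Real.pi / 2 * y))) := by
          rw [show x + a - 1 / 2 = a + (x - 1 / 2) by ring, Real.rpow_add hy0]
          field_simp
      _ ≤ _ := by gcongr
  intro x y hx1 hx2 hy
  rcases le_total 0 y with h | h
  · rw [abs_of_nonneg h] at hy ⊢
    exact key x y hx1 hx2 hy
  · rw [abs_of_nonpos h] at hy ⊢
    have h3 := key x (-y) hx1 hx2 hy
    have e1 : ((((x + a : ℝ) : ℂ) + y * I)) = (starRingEnd ℂ) (((x + a : ℝ) : ℂ) + ((-y : ℝ) : ℂ) * I) := by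
      apply Complex.ext <;> simp
    have e2 : (((x : ℂ) + y * I)) = (starRingEnd ℂ) ((x : ℂ) + ((-y : ℝ) : ℂ) * I) := by
      apply Complex.ext <;> simp
    rw [e1, e2, Complex.Gamma_conj, Complex.Gamma_conj, norm_mul, norm_inv, RCLike.norm_conj,
      RCLike.norm_conj, ← norm_inv, ← norm_mul]
    exact h3

end GAM

open GAM in
theorem gam : S_GAM := by
  intro σ₀ hσ
  have hπ := Real.pi_pos
  obtain ⟨a, ha⟩ : ∃ a : ℝ, a = 1 / 2 + σ₀ := ⟨_, rfl⟩
  have ha0 : 0 < a := by rw [ha]; linarith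
  obtain ⟨C1, hC1, h1⟩ := quo a (1 + σ₀)
  -- compactness
  have hK : IsCompact (Set.Icc (-1 - σ₀) 1 ×ℂ Set.Icc (-2 : ℝ) 2) :=
    isCompact_Icc.reProdIm isCompact_Icc
  have hcont : ContinuousOn (fun z : ℂ => Complex.Gammaℝ (z + ((1 + 2 * σ₀ : ℝ) : ℂ)) *
      (Complex.Gammaℝ z)⁻¹) (Set.Icc (-1 - σ₀) 1 ×ℂ Set.Icc (-2 : ℝ) 2) := by
    intro z hz
    have hz' := Complex.mem_reProdIm.1 hz
    have hre : 0 < (z + ((1 + 2 * σ₀ : ℝ) : ℂ)).re := by
      rw [add_re, ofReal_re]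
      have := hz'.1.1
      linarith
    have hd : DifferentiableAt ℂ Complex.Gammaℝ (z + ((1 + 2 * σ₀ : ℝ) : ℂ)) := by
      have : Complex.Gammaℝ = fun s => (Real.pi : ℂ) ^ (-s / 2) * Gamma (s / 2) := by
        funext s
        rw [Complex.Gammaℝ_def]
      rw [this]
      refine DifferentiableAt.mul ?_ ?_
      · refine DifferentiableAt.const_cpow (by fun_prop) (Or.inl ?_)
        exact_mod_cast Real.pi_pos.ne'
      · refine (Complex.differentiableAt_Gamma _ ?_).comp _ (by fun_prop)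
        intro m hm
        have := congrArg Complex.re hm
        simp at this
        have h5 : (0 : ℝ) ≤ m := Nat.cast_nonneg m
        simp at hre
        linarith
    refine ContinuousAt.continuousWithinAt (ContinuousAt.mul ?_ ?_)
    · have h6 : ContinuousAt (fun z : ℂ => z + ((1 + 2 * σ₀ : ℝ) : ℂ)) z := by fun_prop
      exact ContinuousAt.comp (g := Complex.Gammaℝ) hd.continuousAt h6
    · exact (Complex.differentiable_Gammaℝ_inv z).continuousAt
  obtain ⟨M, hM⟩ := hK.exists_bound_of_continuousOn hcont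
  obtain ⟨C, hC⟩ : ∃ C : ℝ, C = max 1 (max M (C1 * Real.pi ^ (-a))) := ⟨_, rfl⟩
  refine ⟨C, by rw [hC]; exact lt_max_of_lt_left one_pos, ?_⟩
  intro z hz1 hz2
  rw [← ha]
  rcases le_or_gt |z.im| 2 with h | h
  · have h2 := hM z (Complex.mem_reProdIm.2 ⟨⟨hz1, hz2⟩, abs_le.1 h⟩)
    have h3 : (1 : ℝ) ≤ (1 + |z.im|) ^ a :=
      Real.one_le_rpow (by have := abs_nonneg z.im; linarith) ha0.le
    have h4 : M ≤ C := by rw [hC]; exact (le_max_left _ _).trans (le_max_right _ _)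
    have h5 : 0 ≤ C := by rw [hC]; exact zero_le_one.trans (le_max_left _ _)
    calc _ ≤ M := h2
      _ ≤ C := h4
      _ = C * 1 := (mul_one _).symm
      _ ≤ _ := by gcongr
  · have hy : 1 ≤ |z.im / 2| := by
      rw [abs_div, abs_two]
      linarith
    have h2 := h1 (z.re / 2) (z.im / 2) (by linarith) (by linarith) hy
    have ez : z / 2 = ((z.re / 2 : ℝ) : ℂ) + ((z.im / 2 : ℝ) : ℂ) * I := by
      apply Complex.ext <;> simp
    have ez2 : (z + ((1 + 2 * σ₀ : ℝ) : ℂ)) / 2 = ((z.re / 2 + a : ℝ) : ℂ) +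
        ((z.im / 2 : ℝ) : ℂ) * I := by
      rw [ha]
      apply Complex.ext
      · simp
        ring
      · simp
    rw [Complex.Gammaℝ_def, Complex.Gammaℝ_def, ez, ez2]
    have e3 : ‖(Real.pi : ℂ) ^ (-(z + ((1 + 2 * σ₀ : ℝ) : ℂ)) / 2)‖ *
        ‖((Real.pi : ℂ) ^ (-z / 2))⁻¹‖ = Real.pi ^ (-a) := by
      rw [norm_inv, norm_cpow_eq_rpow_re_of_pos hπ, norm_cpow_eq_rpow_re_of_pos hπ,
        ← Real.rpow_neg hπ.le, ← Real.rpow_add hπ]
      congr 1
      rw [ha]
      simp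
      ring
    rw [mul_inv, norm_mul, norm_mul, norm_mul]
    rw [norm_mul] at h2
    calc ‖(Real.pi : ℂ) ^ (-(z + ((1 + 2 * σ₀ : ℝ) : ℂ)) / 2)‖ *
          ‖Gamma (((z.re / 2 + a : ℝ) : ℂ) + ((z.im / 2 : ℝ) : ℂ) * I)‖ *
          (‖((Real.pi : ℂ) ^ (-z / 2))⁻¹‖ *
          ‖(Gamma (((z.re / 2 : ℝ) : ℂ) + ((z.im / 2 : ℝ) : ℂ) * I))⁻¹‖)
        = (‖(Real.pi : ℂ) ^ (-(z + ((1 + 2 * σ₀ : ℝ) : ℂ)) / 2)‖ *
        ‖((Real.pi : ℂ) ^ (-z / 2))⁻¹‖) *
          (‖Gamma (((z.re / 2 + a : ℝ) : ℂ) + ((z.im / 2 : ℝ) : ℂ) * I)‖ *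
          ‖(Gamma (((z.re / 2 : ℝ) : ℂ) + ((z.im / 2 : ℝ) : ℂ) * I))⁻¹‖) := by ring
      _ ≤ Real.pi ^ (-a) * (C1 * |z.im / 2| ^ a) := by
          rw [e3]
          gcongr
      _ = (C1 * Real.pi ^ (-a)) * |z.im / 2| ^ a := by ring
      _ ≤ C * (1 + |z.im|) ^ a := by
          have h5 : 0 ≤ C := by rw [hC]; exact zero_le_one.trans (le_max_left _ _)
          gcongr
          · rw [hC]; exact (le_max_right _ _).trans (le_max_right _ _)
          · rw [abs_div, abs_two]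
            have := abs_nonneg z.im
            linarith

end Pool.Agent.N846.DT
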