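import Pool.Agent.N846.DT.Stm

/-!
# DT/PAIR: the Rankin-Selberg `L`-function of two different forms (helper73)

Trivial zeros and the size on the left.
-/

set_option autoImplicit false

namespace Pool.Agent.N846.DT

open Complex MeasureTheory Filter Topology
open Pool.Agent.TH949.RES (SphericalCuspForm)

variable {n : ℕ}

namespace PairAux

theorem sqrt_mul_self_c (k : ℕ) :
    ((Real.sqrt ((k : ℝ) + 1) : ℝ) : ℂ) * ((Real.sqrt ((k : ℝ) + 1) : ℝ) : ℂ) = (k : ℂ) + 1 := by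
  rw [← Complex.ofReal_mul, Real.mul_self_sqrt (by positivity)]
  push_cast
  ring

theorem exp_LX (x : PX) (s : ℂ) :
    (((x.1 : ℕ) : ℂ) ^ (-s)) ^ (x.2 + 1) = Complex.exp (-(s * (LX x : ℂ))) := by
  have hp : ((x.1 : ℕ) : ℂ) ≠ 0 := by exact_mod_cast x.1.2.ne_zero
  have hl : Complex.log ((x.1 : ℕ) : ℂ) = ((Real.log ((x.1 : ℕ) : ℝ) : ℝ) : ℂ) := by
    rw [← Complex.ofReal_natCast]
    exact (Complex.ofReal_log (Nat.cast_nonneg _)).symm
  rw [Complex.cpow_def_of_ne_zero hp, ← Complex.exp_nat_mul, hl]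
  congr 1
  unfold LX
  push_cast
  ring

theorem exp_LXr (x : PX) (σ : ℝ) :
    (((x.1 : ℕ) : ℝ) ^ (-σ)) ^ (x.2 + 1) = Real.exp (-(σ * LX x)) := by
  have hp : (0 : ℝ) < ((x.1 : ℕ) : ℝ) := by exact_mod_cast x.1.2.pos
  rw [Real.rpow_def_of_pos hp, ← Real.exp_nat_mul]
  congr 1
  unfold LX
  push_cast
  ring

theorem term_eq (α β : Nat.Primes → Fin n → ℂ) (s : ℂ) (x : PX) :
    (∑ i, α x.1 i ^ (x.2 + 1)) * (starRingEnd ℂ) (∑ i, β x.1 i ^ (x.2 + 1)) /
      ((x.2 : ℂ) + 1) * (((x.1 : ℕ) : ℂ) ^ (-s)) ^ (x.2 + 1) =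
    uX α x * (starRingEnd ℂ) (uX β x) * Complex.exp (-(s * (LX x : ℂ))) := by
  rw [exp_LX]
  congr 1
  unfold uX
  rw [map_div₀, Complex.conj_ofReal, div_mul_div_comm, sqrt_mul_self_c]

theorem logP_eq (α β : Nat.Primes → Fin n → ℂ) (s : ℂ) :
    logP α β s = ∑' x, uX α x * (starRingEnd ℂ) (uX β x) * Complex.exp (-(s * (LX x : ℂ))) :=
  tsum_congr fun x => term_eq α β s x

theorem sq_eq (α : Nat.Primes → Fin n → ℂ) (σ : ℝ) (x : PX) :
    ‖uX α x‖ ^ 2 * Real.exp (-(σ * LX x)) =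
    ‖∑ i, α x.1 i ^ (x.2 + 1)‖ ^ 2 / ((x.2 : ℝ) + 1) * (((x.1 : ℕ) : ℝ) ^ (-σ)) ^ (x.2 + 1) := by
  rw [exp_LXr]
  congr 1
  unfold uX
  rw [norm_div, div_pow, Complex.norm_real, Real.norm_of_nonneg (Real.sqrt_nonneg _),
    Real.sq_sqrt (by positivity)]

theorem summ {α : Nat.Primes → Fin n → ℂ} {μ : Fin n → ℂ} (h : SphericalCuspForm α μ) {σ : ℝ}
    (hσ : 1 < σ) : Summable fun x : PX => ‖uX α x‖ ^ 2 * Real.exp (-(σ * LX x)) := by
  refine (h.summable σ hσ).congr fun x => ?_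
  rw [sq_eq]

theorem norm_term_le (α β : Nat.Primes → Fin n → ℂ) (s : ℂ) (x : PX) :
    ‖uX α x * (starRingEnd ℂ) (uX β x) * Complex.exp (-(s * (LX x : ℂ)))‖ ≤
    ‖uX α x‖ ^ 2 * Real.exp (-(s.re * LX x)) / 2 +
      ‖uX β x‖ ^ 2 * Real.exp (-(s.re * LX x)) / 2 := by
  rw [norm_mul, norm_mul, RCLike.norm_conj, Complex.norm_exp]
  have e : (-(s * (LX x : ℂ))).re = -(s.re * LX x) := by simp
  rw [e]
  have h1 : 0 < Real.exp (-(s.re * LX x)) := Real.exp_pos _
  have h2 := sq_nonneg (‖uX α x‖ - ‖uX β x‖)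
  nlinarith

theorem norm_exp_logP {α β : Nat.Primes → Fin n → ℂ} {μ ν : Fin n → ℂ}
    (hα : SphericalCuspForm α μ) (hβ : SphericalCuspForm β ν) {s : ℂ} (hs : 1 < s.re) :
    ‖Complex.exp (logP α β s)‖ ≤
      Real.exp ((∑' x : PX, ‖uX α x‖ ^ 2 * Real.exp (-(s.re * LX x))) / 2 +
            (∑' x : PX, ‖uX β x‖ ^ 2 * Real.exp (-(s.re * LX x))) / 2) := by
  rw [Complex.norm_exp]
  refine Real.exp_le_exp.2 ((Complex.re_le_norm _).trans ?_)
  rw [logP_eq]
  have h1 := (summ hα hs).div_const 2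
  have h2 := (summ hβ hs).div_const 2
  have h3 : Summable fun x : PX =>
      ‖uX α x * (starRingEnd ℂ) (uX β x) * Complex.exp (-(s * (LX x : ℂ)))‖ :=
    Summable.of_nonneg_of_le (fun _ => norm_nonneg _) (norm_term_le α β s) (h1.add h2)
  refine (norm_tsum_le_tsum_norm h3).trans ?_
  rw [← tsum_div_const, ← tsum_div_const, ← h1.tsum_add h2]
  exact h3.tsum_le_tsum (norm_term_le α β s) (h1.add h2)

end PairAux

open PairAux

theorem pair (hG : S_GAM) : S_PAIR := by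
  intro n σ₀ hσ
  obtain ⟨C, hC, hGam⟩ := hG σ₀ hσ
  refine ⟨C ^ (n * n), pow_pos hC _, ?_⟩
  intro α β μ ν hα hβ hμ hν hpair
  obtain ⟨F, Ξ, hF, hΞ, hFe, hgr, hΞF, hfe⟩ := hpair.continuation
  have hκ1 : ∀ i j, -1 < (μ i - ν j).re := by
    intro i j
    have h1 := abs_lt.1 (hμ i)
    have h2 := abs_lt.1 (hν j)
    rw [Complex.sub_re]
    linarith
  have hκ2 : ∀ i j, (μ i - ν j).re < 1 := by
    intro i j
    have h1 := abs_lt.1 (hμ i)
    have h2 := abs_lt.1 (hν j)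
    rw [Complex.sub_re]
    linarith
  -- the identity everywhere
  have key : ∀ s : ℂ, F s = Ξ s * ∏ i, ∏ j, (Gammaℝ (s + (μ i - ν j)))⁻¹ := by
    set G : ℂ → ℂ := fun s => Ξ s * ∏ i, ∏ j, (Gammaℝ (s + (μ i - ν j)))⁻¹ with hG
    have hGd : Differentiable ℂ G := by
      refine hΞ.mul ?_
      refine Differentiable.fun_finsetProd fun i _ => ?_
      refine Differentiable.fun_finsetProd fun j _ => ?_
      exact differentiable_Gammaℝ_inv.comp (by fun_prop)
    have hev : F =ᶠ[𝓝 (3 : ℂ)] G := by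
      have hopen : IsOpen {s : ℂ | 1 < s.re} := isOpen_lt continuous_const Complex.continuous_re
      filter_upwards [hopen.mem_nhds (show (3 : ℂ) ∈ {s : ℂ | 1 < s.re} by simp)] with s hs
      have hs' : 1 < s.re := hs
      simp only [hG]
      rw [hΞF s hs']
      have hp : ∏ i, ∏ j, Gammaℝ (s + (μ i - ν j)) ≠ 0 := by
        refine Finset.prod_ne_zero_iff.2 fun i _ => Finset.prod_ne_zero_iff.2 fun j _ =>
          Gammaℝ_ne_zero_of_re_pos ?_
        have := hκ1 i j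
        rw [Complex.add_re]
        linarith
      have e : ∏ i, ∏ j, (Gammaℝ (s + (μ i - ν j)))⁻¹ = (∏ i, ∏ j, Gammaℝ (s + (μ i - ν j)))⁻¹ := by
        simp_rw [Finset.prod_inv_distrib]
      rw [e, mul_assoc, mul_inv_cancel₀ hp, mul_one]
    have hFa : AnalyticOnNhd ℂ F Set.univ := hF.differentiableOn.analyticOnNhd isOpen_univ
    have hGa : AnalyticOnNhd ℂ G Set.univ := hGd.differentiableOn.analyticOnNhd isOpen_univ
    have := hFa.eq_of_eventuallyEq hGa hev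
    intro s
    exact congrFun this s
  refine ⟨F, ⟨hF, fun s hs => ?_, hgr⟩, fun i j => ?_, fun t => ?_⟩
  · rw [hFe s (by linarith), logP_eq]
  · rw [key]
    have h0 : ∏ i', ∏ j', (Gammaℝ (-(μ i - ν j) + (μ i' - ν j')))⁻¹ = 0 := by
      refine Finset.prod_eq_zero (Finset.mem_univ i) (Finset.prod_eq_zero (Finset.mem_univ j) ?_)
      rw [neg_add_cancel, inv_eq_zero]
      exact Gammaℝ_eq_zero_iff.2 ⟨0, by simp⟩
    rw [h0, mul_zero]
  · set s : ℂ := ((-σ₀ : ℝ) : ℂ) + t * I with hs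
    set w : ℂ := ((1 + σ₀ : ℝ) : ℂ) + t * I with hw
    have hwre : w.re = 1 + σ₀ := by simp [hw]
    have hsre : s.re = -σ₀ := by simp [hs]
    have hsim : s.im = t := by simp [hs]
    have h1 : ‖Ξ s‖ = ‖Ξ w‖ := by
      have h2 := hfe (1 - s)
      rw [sub_sub_cancel] at h2
      have h3 : (starRingEnd ℂ) (1 - s) = w := by
        apply Complex.ext
        · simp [hs, hw]
        · simp [hs, hw]
      rw [h2, RCLike.norm_conj, h3]
    have h2 : ‖Ξ w‖ = ‖F w‖ * ∏ i, ∏ j, ‖Gammaℝ (w + (μ i - ν j))‖ := by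
      rw [hΞF w (by rw [hwre]; linarith), norm_mul, norm_prod]
      simp_rw [norm_prod]
    have h3 : ‖F s‖ = ‖F w‖ * ∏ i, ∏ j, ‖Gammaℝ (s + (μ i - ν j) + ((1 + 2 * σ₀ : ℝ) : ℂ)) *
        (Gammaℝ (s + (μ i - ν j)))⁻¹‖ := by
      rw [key s, norm_mul, h1, h2, norm_prod, mul_assoc, ← Finset.prod_mul_distrib]
      congr 1
      refine Finset.prod_congr rfl fun i _ => ?_
      rw [norm_prod, ← Finset.prod_mul_distrib]
      refine Finset.prod_congr rfl fun j _ => ?_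
      rw [← norm_mul]
      congr 3
      rw [hs, hw]
      push_cast
      ring
    have h4 : ∏ i, ∏ j, ‖Gammaℝ (s + (μ i - ν j) + ((1 + 2 * σ₀ : ℝ) : ℂ)) *
        (Gammaℝ (s + (μ i - ν j)))⁻¹‖ ≤
        C ^ (n * n) * (∏ i, ∏ j, (1 + |t + (μ i - ν j).im|)) ^ (1 / 2 + σ₀) := by
      have h5 : ∏ i, ∏ j, ‖Gammaℝ (s + (μ i - ν j) + ((1 + 2 * σ₀ : ℝ) : ℂ)) *
          (Gammaℝ (s + (μ i - ν j)))⁻¹‖ ≤
          ∏ i : Fin n, ∏ j : Fin n, (C * (1 + |t + (μ i - ν j).im|) ^ (1 / 2 + σ₀)) := by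
        refine Finset.prod_le_prod (fun i _ => Finset.prod_nonneg fun j _ => norm_nonneg _)
          fun i _ => Finset.prod_le_prod (fun j _ => norm_nonneg _) fun j _ => ?_
        have h6 := hGam (s + (μ i - ν j)) (by
          rw [Complex.add_re, hsre]
          linarith [hκ1 i j]) (by
          rw [Complex.add_re, hsre]
          linarith [hκ2 i j])
        rw [Complex.add_im, hsim] at h6
        exact h6
      refine h5.trans (le_of_eq ?_)
      have e1 : ∀ i : Fin n, ∏ j : Fin n, (C * (1 + |t + (μ i - ν j).im|) ^ (1 / 2 + σ₀)) =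
          C ^ n * (∏ j : Fin n, (1 + |t + (μ i - ν j).im|)) ^ (1 / 2 + σ₀) := by
        intro i
        rw [Finset.prod_mul_distrib, Finset.prod_const, Finset.card_univ, Fintype.card_fin,
          Real.finsetProd_rpow _ _ fun j _ => by positivity]
      rw [Finset.prod_congr rfl fun i _ => e1 i, Finset.prod_mul_distrib, Finset.prod_const,
        Finset.card_univ, Fintype.card_fin, ← pow_mul,
        Real.finsetProd_rpow _ _ fun j _ => Finset.prod_nonneg fun k _ => by positivity]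
    have h5 : ‖F w‖ ≤ Real.exp ((∑' x : PX, ‖uX α x‖ ^ 2 * Real.exp (-((1 + σ₀) * LX x))) / 2 +
            (∑' x : PX, ‖uX β x‖ ^ 2 * Real.exp (-((1 + σ₀) * LX x))) / 2) := by
      rw [hFe w (by rw [hwre]; linarith)]
      have := norm_exp_logP hα hβ (s := w) (by rw [hwre]; linarith)
      rw [hwre] at this
      exact this
    rw [h3, mul_comm]
    exact mul_le_mul h4 h5 (norm_nonneg _) (by
      refine mul_nonneg (pow_nonneg hC.le _) (Real.rpow_nonneg (Finset.prod_nonneg fun i _ =>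
        Finset.prod_nonneg fun j _ => by positivity) _))

end Pool.Agent.N846.DT
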