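import Pool.Agent.N846.DT.Stm

/-!
# Removing the Euler factor at a prime

`N846/DT`, part PAIRP (written by helper157).
-/

set_option autoImplicit false

namespace Pool.Agent.N846.DT

open Complex MeasureTheory

variable {n : ℕ}

namespace PP

theorem exp_fac {ι : Type} [Fintype ι] {b : ι → ℂ} {w : ℂ} (hz : ∀ i, ‖b i * w‖ < 1 / 2) :
    HasSum (fun k : ℕ => (∑ i, b i ^ (k + 1)) / ((k : ℂ) + 1) * w ^ (k + 1))
      (∑ i, -Complex.log (1 - b i * w)) ∧
    Complex.exp (∑ i, -Complex.log (1 - b i * w)) = (∏ i, (1 - b i * w))⁻¹ ∧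
    ∏ i, (1 - b i * w) ≠ 0 := by
  have hne : ∀ i, 1 - b i * w ≠ 0 := by
    intro i h0
    have h3 := hz i
    rw [← sub_eq_zero.1 h0] at h3
    norm_num at h3
  refine ⟨?_, ?_, Finset.prod_ne_zero_iff.2 fun i _ => hne i⟩
  · have hlog : ∀ i, HasSum (fun k : ℕ => (b i * w) ^ (k + 1) / ((k : ℂ) + 1))
        (-Complex.log (1 - b i * w)) := by
      intro i
      have h1 := Complex.hasSum_taylorSeries_neg_log ((hz i).trans (by norm_num))
      have h2 := (hasSum_nat_add_iff' 1).2 h1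
      simp only [Finset.range_one, Finset.sum_singleton, pow_zero, Nat.cast_zero, div_zero, sub_zero,
        Nat.cast_add, Nat.cast_one] at h2
      exact h2
    refine (hasSum_sum fun i (_ : i ∈ Finset.univ) => hlog i).congr_fun fun k => ?_
    simp_rw [mul_pow]
    rw [← Finset.sum_div, ← Finset.sum_mul]
    ring
  · rw [Complex.exp_sum, ← Finset.prod_inv_distrib]
    refine Finset.prod_congr rfl fun i _ => ?_
    rw [Complex.exp_neg, Complex.exp_log (hne i)]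

theorem q_pos (q : Nat.Primes) : (0 : ℝ) < ((q : ℕ) : ℝ) := by exact_mod_cast q.2.pos

theorem q_two (q : Nat.Primes) : (2 : ℝ) ≤ ((q : ℕ) : ℝ) := by exact_mod_cast q.2.two_le

/-- `|e^(-s log q)| = q^(-Re s)` -/
theorem norm_w (q : Nat.Primes) (s : ℂ) :
    ‖Complex.exp (-(s * (Real.log ((q : ℕ) : ℝ) : ℂ)))‖ = Real.exp (-(s.re * Real.log ((q : ℕ) : ℝ))) := by
  rw [Complex.norm_exp]
  rw [Complex.neg_re, Complex.re_mul_ofReal]

theorem norm_w3 (q : Nat.Primes) {s : ℂ} (hs : 3 ≤ s.re) :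
    ‖Complex.exp (-(s * (Real.log ((q : ℕ) : ℝ) : ℂ)))‖ ≤ (((q : ℕ) : ℝ) ^ 3)⁻¹ := by
  rw [norm_w]
  have hl : 0 ≤ Real.log ((q : ℕ) : ℝ) := Real.log_nonneg (by linarith [q_two q])
  have h1 : Real.exp (-(s.re * Real.log ((q : ℕ) : ℝ))) ≤ Real.exp (-(3 * Real.log ((q : ℕ) : ℝ))) := by
    apply Real.exp_le_exp.2
    nlinarith
  refine h1.trans (le_of_eq ?_)
  rw [Real.exp_neg]
  congr 1
  have h2 := Real.exp_nat_mul (Real.log ((q : ℕ) : ℝ)) 3
  push_cast at h2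
  rw [h2, Real.exp_log (q_pos q)]

theorem cexp_LX (x : PX) (s : ℂ) :
    Complex.exp (-(s * (LX x : ℂ))) = Complex.exp (-(s * (Real.log ((x.1 : ℕ) : ℝ) : ℂ))) ^ (x.2 + 1) := by
  rw [← Complex.exp_nat_mul]
  congr 1
  unfold LX
  push_cast
  ring

theorem mul_uX (α β : Nat.Primes → Fin n → ℂ) (x : PX) :
    uX α x * (starRingEnd ℂ) (uX β x) =
      (∑ ij : Fin n × Fin n, (α x.1 ij.1 * (starRingEnd ℂ) (β x.1 ij.2)) ^ (x.2 + 1)) / ((x.2 : ℂ) + 1) := by
  unfold uX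
  have h1 : ((Real.sqrt ((x.2 : ℝ) + 1) : ℝ) : ℂ) * ((Real.sqrt ((x.2 : ℝ) + 1) : ℝ) : ℂ) = (x.2 : ℂ) + 1 := by
    rw [← Complex.ofReal_mul, Real.mul_self_sqrt (by positivity)]
    push_cast
    rfl
  rw [map_div₀, Complex.conj_ofReal, div_mul_div_comm, h1, map_sum, Finset.sum_mul_sum, Fintype.sum_prod_type]
  simp_rw [map_pow, mul_pow]

theorem norm_b {a b : ℂ} {q : ℝ} (hq : 0 < q) (ha : ‖a‖ < q ^ (1 / 2 : ℝ)) (hb : ‖b‖ < q ^ (1 / 2 : ℝ)) :
    ‖a * (starRingEnd ℂ) b‖ ≤ q := by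
  rw [norm_mul, RCLike.norm_conj]
  calc ‖a‖ * ‖b‖ ≤ q ^ (1 / 2 : ℝ) * q ^ (1 / 2 : ℝ) :=
        mul_le_mul ha.le hb.le (norm_nonneg _) (by positivity)
    _ = q := by
        rw [← Real.rpow_add hq]
        norm_num

theorem summable_g {α β : Nat.Primes → Fin n → ℂ}
    (hα : ∀ (q : Nat.Primes) i, ‖α q i‖ < ((q : ℕ) : ℝ) ^ (1 / 2 : ℝ))
    (hβ : ∀ (q : Nat.Primes) i, ‖β q i‖ < ((q : ℕ) : ℝ) ^ (1 / 2 : ℝ)) {s : ℂ} (hs : 3 ≤ s.re) :
    Summable fun x : PX => uX α x * (starRingEnd ℂ) (uX β x) * Complex.exp (-(s * (LX x : ℂ))) := by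
  have h1 : Summable fun q : Nat.Primes => (((q : ℕ) : ℝ) ^ 2)⁻¹ :=
    (Real.summable_nat_pow_inv.2 (by norm_num : 1 < 2)).comp_injective Subtype.val_injective
  have h2 : Summable fun k : ℕ => ((1 : ℝ) / 4) ^ k := summable_geometric_of_lt_one (by norm_num) (by norm_num)
  have h3 := (h1.mul_of_nonneg h2 (fun q => by positivity) (fun k => by positivity)).mul_left ((n : ℝ) ^ 2)
  refine Summable.of_norm_bounded h3 fun x => ?_
  rw [mul_uX, cexp_LX, norm_mul, norm_div, norm_pow]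
  have hq := q_pos x.1
  have hq2 := q_two x.1
  set q : ℝ := ((x.1 : ℕ) : ℝ) with hqdef
  have h4 : ‖∑ ij : Fin n × Fin n, (α x.1 ij.1 * (starRingEnd ℂ) (β x.1 ij.2)) ^ (x.2 + 1)‖ ≤
      (n : ℝ) ^ 2 * q ^ (x.2 + 1) := by
    refine (norm_sum_le _ _).trans ?_
    refine (Finset.sum_le_sum (g := fun _ => q ^ (x.2 + 1)) fun ij _ => ?_).trans ?_
    · rw [norm_pow]
      exact pow_le_pow_left₀ (norm_nonneg _) (norm_b hq (hα x.1 ij.1) (hβ x.1 ij.2)) _
    · simp [pow_two]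
  have h5 : 1 ≤ ‖(x.2 : ℂ) + 1‖ := by
    have : (x.2 : ℂ) + 1 = ((x.2 + 1 : ℕ) : ℂ) := by push_cast; rfl
    rw [this, Complex.norm_natCast]
    exact_mod_cast Nat.le_add_left 1 x.2
  have h6 : ‖∑ ij : Fin n × Fin n, (α x.1 ij.1 * (starRingEnd ℂ) (β x.1 ij.2)) ^ (x.2 + 1)‖ / ‖(x.2 : ℂ) + 1‖ ≤
      (n : ℝ) ^ 2 * q ^ (x.2 + 1) := (div_le_self (norm_nonneg _) h5).trans h4
  have h7 : ‖Complex.exp (-(s * (Real.log q : ℂ)))‖ ^ (x.2 + 1) ≤ ((q ^ 3)⁻¹) ^ (x.2 + 1) :=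
    pow_le_pow_left₀ (norm_nonneg _) (norm_w3 x.1 hs) _
  refine (mul_le_mul h6 h7 (by positivity) (by positivity)).trans ?_
  have h8 : (n : ℝ) ^ 2 * q ^ (x.2 + 1) * ((q ^ 3)⁻¹) ^ (x.2 + 1) = (n : ℝ) ^ 2 * ((q ^ 2)⁻¹ * ((q ^ 2)⁻¹) ^ x.2) := by
    rw [mul_assoc, ← mul_pow]
    have : q * (q ^ 3)⁻¹ = (q ^ 2)⁻¹ := by field_simp
    rw [this, pow_succ]
    ring
  rw [h8]
  refine mul_le_mul_of_nonneg_left ?_ (by positivity)
  refine mul_le_mul_of_nonneg_left ?_ (by positivity)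
  refine pow_le_pow_left₀ (by positivity) ?_ _
  rw [one_div]
  apply inv_anti₀ (by norm_num)
  nlinarith

end PP

open PP in
theorem pairp : S_PAIRP := by
  intro n p α β F hα hβ hF
  refine ⟨?_, ?_, ?_⟩
  · refine hF.diff.mul ?_
    refine Differentiable.fun_finsetProd fun i _ => Differentiable.fun_finsetProd fun j _ => ?_
    fun_prop
  · intro s hs
    set w : ℂ := Complex.exp (-(s * (Real.log ((p : ℕ) : ℝ) : ℂ))) with hw
    have hpp := q_pos p
    have hp2 := q_two p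
    have hz : ∀ ij : Fin n × Fin n, ‖(α p ij.1 * (starRingEnd ℂ) (β p ij.2)) * w‖ < 1 / 2 := by
      intro ij
      rw [norm_mul]
      calc ‖α p ij.1 * (starRingEnd ℂ) (β p ij.2)‖ * ‖w‖ ≤ ((p : ℕ) : ℝ) * (((p : ℕ) : ℝ) ^ 3)⁻¹ :=
            mul_le_mul (norm_b hpp (hα p ij.1) (hβ p ij.2)) (norm_w3 p hs) (norm_nonneg _) hpp.le
        _ = (((p : ℕ) : ℝ) ^ 2)⁻¹ := by field_simp
        _ < 1 / 2 := by
            rw [one_div]
            apply inv_strictAnti₀ (by norm_num)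
            nlinarith
    obtain ⟨e1, e2, e3⟩ := exp_fac (b := fun ij : Fin n × Fin n => α p ij.1 * (starRingEnd ℂ) (β p ij.2)) hz
    have hg := summable_g hα hβ hs
    have hd : HasSum (fun x : PX => (uX α x * (starRingEnd ℂ) (uX β x) * Complex.exp (-(s * (LX x : ℂ)))) -
        (uP p α x * (starRingEnd ℂ) (uP p β x) * Complex.exp (-(s * (LX x : ℂ)))))
        (∑ ij : Fin n × Fin n, -Complex.log (1 - (α p ij.1 * (starRingEnd ℂ) (β p ij.2)) * w)) := by
      have hinj : Function.Injective (fun k : ℕ => ((p, k) : PX)) := fun a b h => (Prod.ext_iff.1 h).2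
      refine (hinj.hasSum_iff ?_).1 ?_
      · intro x hx
        have hx1 : x.1 ≠ p := by
          intro h
          exact hx ⟨x.2, by rw [← h]⟩
        simp [uP, hx1]
      · refine e1.congr_fun fun k => ?_
        simp only [Function.comp_apply, uP, if_true, zero_mul, sub_zero]
        rw [mul_uX, cexp_LX]
    have hP : HasSum (fun x : PX => uP p α x * (starRingEnd ℂ) (uP p β x) * Complex.exp (-(s * (LX x : ℂ))))
        ((∑' x, uX α x * (starRingEnd ℂ) (uX β x) * Complex.exp (-(s * (LX x : ℂ)))) -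
          ∑ ij : Fin n × Fin n, -Complex.log (1 - (α p ij.1 * (starRingEnd ℂ) (β p ij.2)) * w)) := by
      refine (hg.hasSum.sub hd).congr_fun fun x => ?_
      ring
    rw [hP.tsum_eq, Complex.exp_sub, ← hF.eq s hs, e2, div_inv_eq_mul, Fintype.prod_prod_type]
  · intro a b
    obtain ⟨C, A, hCA⟩ := hF.growth a b
    have hpp := q_pos p
    have hp2 := q_two p
    have hl : 0 ≤ Real.log ((p : ℕ) : ℝ) := Real.log_nonneg (by linarith)
    set M : ℝ := 1 + ((p : ℕ) : ℝ) * Real.exp (|a| * Real.log ((p : ℕ) : ℝ)) with hM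
    have hM0 : 0 < M := by positivity
    refine ⟨C * (M ^ n) ^ n, A, fun s h1 h2 => ?_⟩
    have h3 := hCA s h1 h2
    rw [norm_mul]
    have h4 : ‖∏ i, ∏ j, (1 - α p i * (starRingEnd ℂ) (β p j) *
        Complex.exp (-(s * (Real.log ((p : ℕ) : ℝ) : ℂ))))‖ ≤ (M ^ n) ^ n := by
      rw [norm_prod]
      refine (Finset.prod_le_prod (g := fun _ => M ^ n) (fun i _ => norm_nonneg _) fun i _ => ?_).trans ?_
      · rw [norm_prod]
        refine (Finset.prod_le_prod (g := fun _ => M) (fun i _ => norm_nonneg _) fun j _ => ?_).trans ?_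
        · refine (norm_sub_le _ _).trans ?_
          rw [norm_one, norm_mul, norm_w]
          have h5 : Real.exp (-(s.re * Real.log ((p : ℕ) : ℝ))) ≤ Real.exp (|a| * Real.log ((p : ℕ) : ℝ)) := by
            apply Real.exp_le_exp.2
            have : -s.re ≤ |a| := by linarith [neg_abs_le a]
            nlinarith
          have h6 := mul_le_mul (norm_b hpp (hα p i) (hβ p j)) h5 (Real.exp_pos _).le hpp.le
          linarith
        · simp
      · simp
    calc ‖F s‖ * _ ≤ (C * (1 + |s.im|) ^ A) * (M ^ n) ^ n :=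
          mul_le_mul h3 h4 (norm_nonneg _) ((norm_nonneg _).trans h3)
      _ = _ := by ring

end Pool.Agent.N846.DT
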