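import Pool.Agent.N846.DT.All
import Pool.Agent.N846.DT.Gam
import Pool.Agent.N846.DT.Diag
import Pool.Agent.N846.DT.Pair
import Pool.Agent.N846.DT.PairP

/-! The density theorem. -/

set_option autoImplicit false

namespace Pool.Agent.N846.DT

theorem main {n : ℕ} (hn : 2 ≤ n) {ε : ℝ} (hε : 0 < ε) : Density n ε :=
  density (pair gam) diag pairp hn hε

end Pool.Agent.N846.DT
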