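import Pool.Agent.N846.DT.Expand

/-! The inequality of Halász-Montgomery type with zeros. -/

set_option autoImplicit false

namespace Pool.Agent.N846.DT

open Filter Topology Complex MeasureTheory Set
open Pool.Agent.TH949.LT (TT Lam VV VV_nonneg VV_le VV_zero EE EE_int kernel norm_exp_sq complex_exp_sum real_exp_sum
  pow_exp)

theorem rpow_exp (A : ℝ) : ∃ C : ℝ, 0 < C ∧ ∀ x : ℝ, 0 ≤ x → (1 + x) ^ A ≤ C * Real.exp x := by
  obtain ⟨m, hm⟩ := exists_nat_ge A
  refine ⟨(m.factorial : ℝ) * Real.exp 1, by positivity, fun x hx => ?_⟩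
  calc (1 + x) ^ A ≤ (1 + x) ^ (m : ℝ) := Real.rpow_le_rpow_of_exponent_le (by linarith) hm
    _ = (1 + x) ^ m := Real.rpow_natCast _ _
    _ ≤ (m.factorial : ℝ) * Real.exp (1 + x) := pow_exp m (by positivity)
    _ = _ := by rw [Real.exp_add]; ring

theorem JK_int (K : ℝ) : Integrable fun v : ℝ => (1 + |v|) ^ K * Real.exp (-v ^ 2) := by
  obtain ⟨C, hC, h⟩ := rpow_exp K
  have h1 : Integrable fun v : ℝ => C * Real.exp 1 * Real.exp (-(1 / 2) * v ^ 2) :=
    (integrable_exp_neg_mul_sq (by norm_num)).const_mul _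
  refine h1.mono' ?_ (Eventually.of_forall fun v => ?_)
  · refine Continuous.aestronglyMeasurable ?_
    refine Continuous.mul ?_ (by fun_prop)
    refine Continuous.rpow_const (by fun_prop) fun v => Or.inl ?_
    have := abs_nonneg v
    positivity
  · have h2 : 0 ≤ (1 + |v|) ^ K := Real.rpow_nonneg (by positivity) _
    rw [Real.norm_of_nonneg (by positivity)]
    calc _ ≤ (C * Real.exp |v|) * Real.exp (-v ^ 2) :=
          mul_le_mul_of_nonneg_right (h _ (abs_nonneg v)) (Real.exp_pos _).le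
      _ = C * Real.exp (|v| - v ^ 2) := by rw [mul_assoc, ← Real.exp_add]; rfl
      _ ≤ C * (Real.exp (1 + -(1 / 2) * v ^ 2)) := by
          refine mul_le_mul_of_nonneg_left (Real.exp_le_exp.2 ?_) hC.le
          rw [← sq_abs v]
          nlinarith [sq_nonneg (|v| - 1)]
      _ = _ := by rw [Real.exp_add]; ring

noncomputable def JK (K : ℝ) : ℝ := ∫ v : ℝ, (1 + |v|) ^ K * Real.exp (-v ^ 2)

theorem JK_nonneg (K : ℝ) : 0 ≤ JK K :=
  integral_nonneg fun v => by
    have := abs_nonneg v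
    positivity

variable {X : Type}

theorem summ_mono' {L : X → ℝ} (hL : ∀ x, 0 ≤ L x) {w : X → ℝ} (hw : ∀ x, 0 ≤ w x) {a b : ℝ} (hab : a ≤ b)
    (hs : Summable fun x => w x * Real.exp (-(a * L x))) : Summable fun x => w x * Real.exp (-(b * L x)) := by
  refine Summable.of_nonneg_of_le (fun x => mul_nonneg (hw x) (Real.exp_pos _).le) (fun x => ?_) hs
  refine mul_le_mul_of_nonneg_left (Real.exp_le_exp.2 ?_) (hw x)
  have := hL x
  nlinarith

theorem summ_cs {L : X → ℝ} {u v : X → ℂ} {σ : ℝ} (hu : Summable fun x => ‖u x‖ ^ 2 * Real.exp (-(σ * L x)))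
    (hv : Summable fun x => ‖v x‖ ^ 2 * Real.exp (-(σ * L x))) :
    Summable fun x => ‖u x‖ * ‖v x‖ * Real.exp (-(σ * L x)) := by
  refine Summable.of_nonneg_of_le (fun x => by positivity) (fun x => ?_) (hu.add hv)
  rw [← add_mul]
  refine mul_le_mul_of_nonneg_right ?_ (Real.exp_pos _).le
  nlinarith [sq_nonneg (‖u x‖ - ‖v x‖), sq_nonneg (‖u x‖), sq_nonneg (‖v x‖)]

/-- the diagonal terms -/
theorem diag_term {u : X → ℂ} {L : X → ℝ} {η : ℝ} (hη : 0 < η) (hη1 : η ≤ 1)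
    {s0 : ℂ} {σ y : ℝ} (hs0 : s0.re = 2 * σ) (h0 : 0 ≤ σ) (h1 : σ ≤ 1 / 2)
    (hs : Summable fun x => ‖u x‖ ^ 2 * Real.exp (-((1 + η) * L x))) :
    Summable (fun l : TT X => ‖co u u l * cexp (-(s0 * Lam L l)) * VV (y - Lam L l)‖) ∧
      ∑' l : TT X, ‖co u u l * cexp (-(s0 * Lam L l)) * VV (y - Lam L l)‖ ≤
        Real.exp 4 / η * Real.exp ((1 - 2 * σ + η) * y) *
          Real.exp (∑' x, ‖u x‖ ^ 2 * Real.exp (-((1 + η) * L x))) := by
  have hs' : Summable fun x => ‖u x‖ * ‖u x‖ * Real.exp (-((1 + η) * L x)) := hs.congr fun x => by rw [sq]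
  have h2 := co_abs hs'
  have hle : ∀ l : TT X, ‖co u u l * cexp (-(s0 * Lam L l)) * VV (y - Lam L l)‖ ≤
      Real.exp 4 / η * Real.exp ((1 - 2 * σ + η) * y) * (‖co u u l‖ * Real.exp (-((1 + η) * Lam L l))) := by
    intro l
    rw [norm_mul, term_norm', Complex.norm_real, Real.norm_of_nonneg (VV_nonneg _), hs0]
    set c : ℝ := 1 - 2 * σ + η with hc
    have hc0 : η ≤ c := by linarith
    have hc2 : c ≤ 2 := by linarith
    have h3 := VV_le (c := c) (by linarith) (y - Lam L l)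
    have h4 : Real.exp (c ^ 2 + c * (y - Lam L l)) / c ≤ Real.exp 4 / η * Real.exp (c * (y - Lam L l)) := by
      rw [Real.exp_add, mul_div_right_comm]
      refine mul_le_mul_of_nonneg_right ?_ (Real.exp_pos _).le
      refine div_le_div₀ (Real.exp_pos _).le (Real.exp_le_exp.2 (by nlinarith)) hη hc0
    calc ‖co u u l‖ * Real.exp (-(2 * σ * Lam L l)) * VV (y - Lam L l)
        ≤ ‖co u u l‖ * Real.exp (-(2 * σ * Lam L l)) * (Real.exp 4 / η * Real.exp (c * (y - Lam L l))) := by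
          refine mul_le_mul_of_nonneg_left (h3.trans h4) (by positivity)
      _ = Real.exp 4 / η * (‖co u u l‖ * (Real.exp (-(2 * σ * Lam L l)) * Real.exp (c * (y - Lam L l)))) := by ring
      _ = Real.exp 4 / η * (‖co u u l‖ * (Real.exp (c * y) * Real.exp (-((1 + η) * Lam L l)))) := by
          rw [← Real.exp_add, ← Real.exp_add]
          congr 3
          rw [hc]
          ring
      _ = _ := by ring
  have hsum : Summable fun l : TT X =>
      Real.exp 4 / η * Real.exp ((1 - 2 * σ + η) * y) * (‖co u u l‖ * Real.exp (-((1 + η) * Lam L l))) :=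
    h2.summable.mul_left _
  refine ⟨Summable.of_nonneg_of_le (fun l => norm_nonneg _) hle hsum, ?_⟩
  refine ((Summable.of_nonneg_of_le (fun l => norm_nonneg _) hle hsum).tsum_le_tsum hle hsum).trans (le_of_eq ?_)
  rw [tsum_mul_left, h2.tsum_eq]
  congr 2
  refine tsum_congr fun x => ?_
  rw [sq]

/-- the off-diagonal terms -/
theorem off_term [Countable X] {u v : X → ℂ} {L : X → ℝ} {F : ℂ → ℂ}
    (hF : PairF u v L F) {s0 : ℂ} (h0 : 0 ≤ s0.re) (h01 : s0.re ≤ 1)
    (hs : Summable fun x => ‖u x‖ * ‖v x‖ * Real.exp (-((s0.re + 3) * L x)))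
    (hs3 : ∀ s : ℂ, s.re = s0.re + 3 → Summable fun x => ‖u x‖ * ‖v x‖ * Real.exp (-(s.re * L x)))
    (hz : F s0 = 0) {σ₀ B K y : ℝ} (hσ : 0 < σ₀)
    (hB0 : 0 ≤ B)
    (hB : ∀ v : ℝ, ‖F (((-σ₀ : ℝ) : ℂ) + (s0.im + v : ℝ) * I)‖ ≤ B * (1 + |v|) ^ K) :
    ∃ T : ℂ, HasSum (fun l : TT X => co u v l * cexp (-(s0 * Lam L l)) * VV (y - Lam L l)) T ∧
      ‖T‖ ≤ Real.exp ((σ₀ + 1) ^ 2) / σ₀ * JK K * B * Real.exp (-(σ₀ + s0.re) * y) := by
  have h1 := expandC (c := fun l : TT X => co u v l) (Λ := Lam L) (F := F) (s0 := s0) (b := 3) (by norm_num)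
    (co_abs hs).summable (fun s hs' => by
      rw [hF.eq s (by rw [hs']; linarith)]
      exact co_sum (hs3 s hs')) y
  set a : ℝ := -(σ₀ + s0.re) with ha
  have ha0 : a < 0 := by rw [ha]; linarith
  set H : ℂ → ℂ := fun w => F (s0 + w) * cexp (w * y) with hH
  obtain ⟨C1, A1, hCA⟩ := hF.growth (-σ₀) (s0.re + 3)
  obtain ⟨C2, hC20, hC2⟩ := rpow_exp (|A1|)
  have hHb : ∀ w : ℂ, a ≤ w.re → w.re ≤ 3 →
      ‖H w‖ ≤ |C1| * ((1 + |s0.im|) ^ (|A1|) * C2) * Real.exp ((|a| + 3) * |y|) * Real.exp |w.im| := by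
    intro w hw1 hw2
    rw [hH]
    simp only
    rw [norm_mul]
    have h2 := hCA (s0 + w) (by simp; linarith) (by simp; linarith)
    have h3 : ‖cexp (w * y)‖ ≤ Real.exp ((|a| + 3) * |y|) := by
      rw [Complex.norm_exp]
      refine Real.exp_le_exp.2 ?_
      simp only [Complex.mul_re, Complex.ofReal_re, Complex.ofReal_im, mul_zero, sub_zero]
      calc w.re * y ≤ |w.re * y| := le_abs_self _
        _ = |w.re| * |y| := abs_mul _ _
        _ ≤ (|a| + 3) * |y| := by
            refine mul_le_mul_of_nonneg_right ?_ (abs_nonneg y)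
            rw [abs_le]
            constructor
            · linarith [neg_abs_le a]
            · linarith [abs_nonneg a]
    have h4 : (1 + |(s0 + w).im|) ^ A1 ≤ (1 + |s0.im|) ^ (|A1|) * C2 * Real.exp |w.im| := by
      have e1 : 1 + |(s0 + w).im| ≤ (1 + |s0.im|) * (1 + |w.im|) := by
        rw [Complex.add_im]
        have := abs_add_le s0.im w.im
        nlinarith [abs_nonneg s0.im, abs_nonneg w.im]
      have e2 : (1 + |(s0 + w).im|) ^ A1 ≤ (1 + |(s0 + w).im|) ^ (|A1|) :=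
        Real.rpow_le_rpow_of_exponent_le (by linarith [abs_nonneg (s0 + w).im]) (le_abs_self _)
      have e3 : (1 + |(s0 + w).im|) ^ (|A1|) ≤ ((1 + |s0.im|) * (1 + |w.im|)) ^ (|A1|) :=
        Real.rpow_le_rpow (by positivity) e1 (abs_nonneg _)
      rw [Real.mul_rpow (by positivity) (by positivity)] at e3
      refine (e2.trans e3).trans ?_
      rw [mul_assoc]
      exact mul_le_mul_of_nonneg_left (hC2 _ (abs_nonneg _)) (by positivity)
    have h5 : ‖F (s0 + w)‖ ≤ |C1| * ((1 + |s0.im|) ^ (|A1|) * C2 * Real.exp |w.im|) := by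
      refine h2.trans ?_
      have hX : 0 ≤ (1 + |(s0 + w).im|) ^ A1 := Real.rpow_nonneg (by positivity) _
      calc _ ≤ |C1| * (1 + |(s0 + w).im|) ^ A1 := mul_le_mul_of_nonneg_right (le_abs_self _) hX
        _ ≤ _ := mul_le_mul_of_nonneg_left h4 (abs_nonneg _)
    calc ‖F (s0 + w)‖ * ‖cexp (w * y)‖ ≤
          (|C1| * ((1 + |s0.im|) ^ (|A1|) * C2 * Real.exp |w.im|)) * Real.exp ((|a| + 3) * |y|) :=
          mul_le_mul h5 h3 (norm_nonneg _) (by positivity)
      _ = _ := by ring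
  have hHd : Differentiable ℂ H := (hF.diff.comp (by fun_prop)).mul (by fun_prop)
  have h2 := cross hHd ha0 (by norm_num : (0 : ℝ) < 3) hHb
  have hH0 : H 0 = 0 := by
    rw [hH]
    simp [hz]
  rw [hH0, mul_zero, sub_eq_zero] at h2
  -- the integral on the left
  set Il : ℂ := ∫ v : ℝ, H (a + v * I) * (cexp ((a + v * I) ^ 2) / (a + v * I)) with hIl
  have hIb : ‖Il‖ ≤ Real.exp ((σ₀ + 1) ^ 2) / σ₀ * JK K * B * Real.exp (a * y) := by
    have h3 : ∀ v : ℝ, ‖H (a + v * I) * (cexp ((a + v * I) ^ 2) / (a + v * I))‖ ≤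
        Real.exp ((σ₀ + 1) ^ 2) / σ₀ * B * Real.exp (a * y) * ((1 + |v|) ^ K * Real.exp (-v ^ 2)) := by
      intro v
      have e1 : s0 + ((a : ℂ) + v * I) = ((-σ₀ : ℝ) : ℂ) + (s0.im + v : ℝ) * I := by
        apply Complex.ext
        · simp [ha]
        · simp
      have e2 : ‖cexp (((a : ℂ) + v * I) * y)‖ = Real.exp (a * y) := by
        rw [Complex.norm_exp]
        simp
      have e3 : ‖cexp (((a : ℂ) + v * I) ^ 2) / (a + v * I)‖ ≤
          Real.exp ((σ₀ + 1) ^ 2) * Real.exp (-v ^ 2) / σ₀ := by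
        rw [norm_div, norm_exp_sq]
        have e4 : σ₀ ≤ ‖(a : ℂ) + v * I‖ := by
          have h5 := Complex.abs_re_le_norm ((a : ℂ) + v * I)
          have h6 : ((a : ℂ) + v * I).re = a := by simp
          rw [h6, ha, abs_neg, abs_of_pos (by linarith)] at h5
          linarith
        have e5 : Real.exp ((((a : ℂ) + v * I).re) ^ 2 - (((a : ℂ) + v * I).im) ^ 2) ≤
            Real.exp ((σ₀ + 1) ^ 2) * Real.exp (-v ^ 2) := by
          rw [← Real.exp_add]
          refine Real.exp_le_exp.2 ?_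
          have h6 : ((a : ℂ) + v * I).re = a := by simp
          have h7 : ((a : ℂ) + v * I).im = v := by simp
          rw [h6, h7]
          have : a ^ 2 ≤ (σ₀ + 1) ^ 2 := by
            rw [ha, neg_sq]
            exact pow_le_pow_left₀ (by linarith) (by linarith) 2
          linarith
        exact div_le_div₀ (by positivity) e5 hσ e4
      rw [hH]
      simp only
      rw [norm_mul, norm_mul, e1, e2]
      calc _ ≤ (B * (1 + |v|) ^ K) * Real.exp (a * y) * (Real.exp ((σ₀ + 1) ^ 2) * Real.exp (-v ^ 2) / σ₀) := by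
            refine mul_le_mul (mul_le_mul_of_nonneg_right (hB v) (Real.exp_pos _).le) e3 (norm_nonneg _) ?_
            have : 0 ≤ (1 + |v|) ^ K := Real.rpow_nonneg (by positivity) _
            positivity
        _ = _ := by ring
    refine (norm_integral_le_of_norm_le ((JK_int K).const_mul _) (Eventually.of_forall h3)).trans (le_of_eq ?_)
    rw [integral_const_mul]
    unfold JK
    ring
  -- conclusion
  have hpi := Real.pi_pos
  have h2pi : (2 * Real.pi : ℂ) ≠ 0 := by exact_mod_cast (by positivity : (2 * Real.pi : ℝ) ≠ 0)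
  have h4 : (∫ v : ℝ, F (s0 + ((3 : ℝ) + v * I)) * cexp (((3 : ℝ) + v * I) * y) * EE 3 v) = Il := by
    rw [← h2]
    rfl
  rw [h4] at h1
  refine ⟨(2 * Real.pi : ℂ)⁻¹ * Il, ?_, ?_⟩
  · refine (h1.mul_left ((2 * Real.pi : ℂ)⁻¹)).congr_fun fun l => ?_
    field_simp
  · rw [norm_mul, norm_inv]
    have h5 : ‖(2 * Real.pi : ℂ)‖ = 2 * Real.pi := by
      rw [norm_mul, Complex.norm_real, Real.norm_of_nonneg hpi.le]
      simp
    rw [h5]
    have h6 : (2 * Real.pi)⁻¹ ≤ 1 := inv_le_one_of_one_le₀ (by linarith [Real.pi_gt_three])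
    calc _ ≤ 1 * ‖Il‖ := mul_le_mul_of_nonneg_right h6 (norm_nonneg _)
      _ ≤ _ := by rw [one_mul]; exact hIb

theorem Uc_empty (u : X → ℂ) (x : Fin 0 → X) : Uc u ⟨0, x⟩ = 1 := by
  unfold Uc
  exact Finset.prod_empty

theorem Lam_empty (L : X → ℝ) (x : Fin 0 → X) : Lam L ⟨0, x⟩ = 0 := by
  unfold Lam
  exact Finset.sum_empty

/-- positivity -/
theorem pos_term {ι : Type} [Fintype ι] (u : ι → X → ℂ) (L : X → ℝ) (s : ι → ℂ) (y : ℝ) (l : TT X) :
    ∑ f, ∑ g, co (u f) (u g) l * cexp (-((s f + (starRingEnd ℂ) (s g)) * Lam L l)) * VV (y - Lam L l) =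
      ((VV (y - Lam L l) / (l.1.factorial : ℝ) * ‖∑ f, Uc (u f) l * cexp (-(s f * Lam L l))‖ ^ 2 : ℝ) : ℂ) := by
  have h1 : ((‖∑ f, Uc (u f) l * cexp (-(s f * Lam L l))‖ ^ 2 : ℝ) : ℂ) =
      (∑ f, Uc (u f) l * cexp (-(s f * Lam L l))) *
        (starRingEnd ℂ) (∑ g, Uc (u g) l * cexp (-(s g * Lam L l))) := by
    rw [Complex.mul_conj, Complex.normSq_eq_norm_sq]
  rw [Complex.ofReal_mul, h1, map_sum, Finset.sum_mul_sum, Finset.mul_sum]
  refine Finset.sum_congr rfl fun f _ => ?_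
  rw [Finset.mul_sum]
  refine Finset.sum_congr rfl fun g _ => ?_
  have h2 : cexp (-((s f + (starRingEnd ℂ) (s g)) * Lam L l)) =
      cexp (-(s f * Lam L l)) * (starRingEnd ℂ) (cexp (-(s g * Lam L l))) := by
    rw [← Complex.exp_conj, ← Complex.exp_add]
    congr 1
    simp only [map_neg, map_mul, Complex.conj_ofReal]
    ring
  rw [h2, map_mul]
  unfold co
  push_cast
  ring

/-- **the master inequality** -/
theorem master : S_MASTER := by
  intro σ₀ η K hσ hη hη1 hK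
  set C₁ : ℝ := Real.exp ((σ₀ + 1) ^ 2) / σ₀ * JK K with hC₁
  set C₂ : ℝ := Real.exp 4 / η with hC₂
  have hC₁0 : 0 ≤ C₁ := by
    have := JK_nonneg K
    rw [hC₁]
    positivity
  have hC₂0 : 0 ≤ C₂ := by rw [hC₂]; positivity
  refine ⟨4 * C₁ + 4 * C₂ + 1, by positivity, ?_⟩
  intro X ι _ _ u L s F δ y B D hL hδ hs1 hs2 hB0 hD0' hsum hD hF hz hB hy hCB
  set C : ℝ := 4 * C₁ + 4 * C₂ + 1 with hC
  rcases isEmpty_or_nonempty ι with hι | hι
  · rw [Fintype.card_eq_zero]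
    have : 0 ≤ C * D * Real.exp ((1 - 2 * δ + η) * y) := by positivity
    simpa using this
  have hre : ∀ f g, (s f + (starRingEnd ℂ) (s g)).re = (s f).re + (s g).re := by
    intro f g
    simp
  have hw : ∀ f, Summable fun x => ‖u f x‖ ^ 2 * Real.exp (-((3 : ℝ) * L x)) := fun f =>
    summ_mono' hL (fun x => by positivity) (by linarith) (hsum f)
  have hcs : ∀ f g (σ : ℝ), 3 ≤ σ → Summable fun x => ‖u f x‖ * ‖u g x‖ * Real.exp (-(σ * L x)) := by
    intro f g σ hσ3
    exact summ_mono' hL (fun x => by positivity) hσ3 (summ_cs (hw f) (hw g))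
  -- the terms
  set t : ι → ι → TT X → ℂ := fun f g l =>
    co (u f) (u g) l * cexp (-((s f + (starRingEnd ℂ) (s g)) * Lam L l)) * VV (y - Lam L l) with ht
  have hdiag : ∀ f, Summable (t f f) ∧ ‖∑' l, t f f l‖ ≤ C₂ * Real.exp ((1 - 2 * δ + η) * y) * D := by
    intro f
    have h1 := diag_term (u := u f) (L := L) hη hη1 (s0 := s f + (starRingEnd ℂ) (s f)) (σ := (s f).re) (y := y)
      (by rw [hre]; ring) (hδ.trans (hs1 f)) (hs2 f) (hsum f)
    refine ⟨Summable.of_norm h1.1, (norm_tsum_le_tsum_norm h1.1).trans (h1.2.trans ?_)⟩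
    have h2 : Real.exp ((1 - 2 * (s f).re + η) * y) ≤ Real.exp ((1 - 2 * δ + η) * y) := by
      refine Real.exp_le_exp.2 (mul_le_mul_of_nonneg_right ?_ hy)
      linarith [hs1 f]
    exact mul_le_mul (mul_le_mul_of_nonneg_left h2 hC₂0) (hD f) (Real.exp_pos _).le (by positivity)
  have hoff : ∀ f g, f ≠ g → ∃ T : ℂ, HasSum (t f g) T ∧ ‖T‖ ≤ 1 / 4 := by
    intro f g hfg
    have h0 : 0 ≤ (s f + (starRingEnd ℂ) (s g)).re := by
      rw [hre]
      linarith [hs1 f, hs1 g]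
    have h01 : (s f + (starRingEnd ℂ) (s g)).re ≤ 1 := by
      rw [hre]
      linarith [hs2 f, hs2 g]
    obtain ⟨T, hT, hTn⟩ := off_term (hF f g hfg) h0 h01 (hcs f g _ (by linarith))
      (fun z hz' => hcs f g _ (by rw [hz']; linarith)) (hz f g hfg) (y := y) hσ hB0 (hB f g hfg)
    refine ⟨T, hT, hTn.trans ?_⟩
    rw [← hC₁]
    have h2 : Real.exp (-(σ₀ + (s f + (starRingEnd ℂ) (s g)).re) * y) ≤ Real.exp (-(σ₀ + 2 * δ) * y) := by
      refine Real.exp_le_exp.2 (mul_le_mul_of_nonneg_right ?_ hy)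
      rw [hre]
      linarith [hs1 f, hs1 g]
    have h3 : C₁ * B * Real.exp (-(σ₀ + (s f + (starRingEnd ℂ) (s g)).re) * y) ≤
        C₁ * B * Real.exp (-(σ₀ + 2 * δ) * y) := mul_le_mul_of_nonneg_left h2 (by positivity)
    have h4 : 4 * C₁ * (B * Real.exp (-(σ₀ + 2 * δ) * y)) ≤ C * (B * Real.exp (-(σ₀ + 2 * δ) * y)) := by
      refine mul_le_mul_of_nonneg_right (by rw [hC]; linarith) (by positivity)
    nlinarith
  choose! T hT using hoff
  have hsumm : ∀ f g, Summable (t f g) := by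
    intro f g
    by_cases hfg : f = g
    · rw [hfg]
      exact (hdiag g).1
    · exact (hT f g hfg).1.summable
  -- the total sum
  set r : TT X → ℝ := fun l =>
    VV (y - Lam L l) / (l.1.factorial : ℝ) * ‖∑ f, Uc (u f) l * cexp (-(s f * Lam L l))‖ ^ 2 with hr
  have hr0 : ∀ l, 0 ≤ r l := fun l => by
    have := VV_nonneg (y - Lam L l)
    rw [hr]
    positivity
  have htot : HasSum (fun l => ((r l : ℝ) : ℂ)) (∑ f, ∑ g, ∑' l, t f g l) := by
    have h1 : HasSum (fun l => ∑ f, ∑ g, t f g l) (∑ f, ∑ g, ∑' l, t f g l) :=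
      hasSum_sum fun f _ => hasSum_sum fun g _ => (hsumm f g).hasSum
    refine h1.congr_fun fun l => ?_
    rw [hr, ht]
    exact (pos_term u L s y l).symm
  have hrs : Summable r := by
    have := htot.summable
    exact Complex.summable_ofReal.1 this
  have hlow : (Fintype.card ι : ℝ) ^ 2 / 2 ≤ ∑' l, r l := by
    have hx : Fin 0 → X := fun i => i.elim0
    refine le_trans ?_ (hrs.le_tsum ⟨0, hx⟩ fun l _ => hr0 l)
    rw [hr]
    simp only
    have h1 : ∑ f : ι, Uc (u f) (⟨0, hx⟩ : TT X) * cexp (-(s f * Lam L (⟨0, hx⟩ : TT X))) =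
        (Fintype.card ι : ℂ) := by
      simp_rw [Uc_empty, Lam_empty]
      simp
    rw [h1, Lam_empty, sub_zero, Complex.norm_natCast]
    have h2 := VV_half hy
    simp only [Nat.factorial_zero, Nat.cast_one, div_one]
    have h3 : (0 : ℝ) ≤ (Fintype.card ι : ℝ) ^ 2 := by positivity
    nlinarith
  have hup : ∑' l, r l ≤ (Fintype.card ι : ℝ) * (C₂ * Real.exp ((1 - 2 * δ + η) * y) * D) +
      (Fintype.card ι : ℝ) ^ 2 * (1 / 4) := by
    have h1 : ((∑' l, r l : ℝ) : ℂ) = ∑ f, ∑ g, ∑' l, t f g l := by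
      rw [Complex.ofReal_tsum]
      exact htot.tsum_eq
    have h2 : ∑' l, r l ≤ ‖∑ f, ∑ g, ∑' l, t f g l‖ := by
      rw [← h1, Complex.norm_real]
      exact le_abs_self _
    refine h2.trans ((norm_sum_le _ _).trans ?_)
    have h3 : ∀ f : ι, ‖∑ g, ∑' l, t f g l‖ ≤ C₂ * Real.exp ((1 - 2 * δ + η) * y) * D +
        (Fintype.card ι : ℝ) * (1 / 4) := by
      intro f
      classical
      rw [← Finset.add_sum_erase Finset.univ _ (Finset.mem_univ f)]
      refine (norm_add_le _ _).trans (add_le_add (hdiag f).2 ?_)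
      refine (norm_sum_le _ _).trans ?_
      have h4 : ∀ g ∈ Finset.univ.erase f, ‖∑' l, t f g l‖ ≤ 1 / 4 := by
        intro g hg
        have hne : f ≠ g := fun h => by
          rw [h] at hg
          simp at hg
        rw [(hT f g hne).1.tsum_eq]
        exact (hT f g hne).2
      refine (Finset.sum_le_card_nsmul _ _ _ h4).trans ?_
      rw [nsmul_eq_mul]
      refine mul_le_mul_of_nonneg_right ?_ (by norm_num)
      exact_mod_cast Finset.card_le_univ _
    refine (Finset.sum_le_card_nsmul _ _ _ fun f _ => h3 f).trans (le_of_eq ?_)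
    rw [nsmul_eq_mul, Finset.card_univ]
    ring
  have hN : (0 : ℝ) < Fintype.card ι := by exact_mod_cast Fintype.card_pos
  have h5 : (Fintype.card ι : ℝ) ^ 2 / 4 ≤ (Fintype.card ι : ℝ) * (C₂ * Real.exp ((1 - 2 * δ + η) * y) * D) := by
    linarith
  have h6 : (Fintype.card ι : ℝ) ≤ 4 * C₂ * D * Real.exp ((1 - 2 * δ + η) * y) := by
    have h7 : (Fintype.card ι : ℝ) * ((Fintype.card ι : ℝ) / 4) ≤
        (Fintype.card ι : ℝ) * (C₂ * Real.exp ((1 - 2 * δ + η) * y) * D) := by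
      calc _ = (Fintype.card ι : ℝ) ^ 2 / 4 := by ring
        _ ≤ _ := h5
    have h8 := le_of_mul_le_mul_left h7 hN
    linarith
  refine h6.trans ?_
  have h9 : 4 * C₂ ≤ C := by rw [hC]; linarith
  have h10 : 0 ≤ D * Real.exp ((1 - 2 * δ + η) * y) := by positivity
  nlinarith

end Pool.Agent.N846.DT
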