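import Pool.Agent.N846.DT.Final

/-! The density theorem in balls and, for `n = 3`, in unit windows. -/

set_option autoImplicit false

namespace Pool.Agent.N846.DT

open Filter Topology Complex MeasureTheory Set
open Pool.Agent.TH949.RES (SphericalCuspForm)

variable {n : ℕ}

theorem rpow_const_mul {c T : ℝ} (hc : 1 ≤ c) (hT : 1 ≤ T) {m : ℕ} {d ε : ℝ} (hd1 : d ≤ 1) :
    ((c * T) ^ m) ^ (d + ε) ≤ (c ^ m) ^ (1 + ε) * T ^ ((m : ℝ) * (d + ε)) := by
  have hT0 : 0 < T := by linarith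
  rw [mul_pow, Real.mul_rpow (by positivity) (by positivity)]
  have h1 : (T ^ m) ^ (d + ε) = T ^ ((m : ℝ) * (d + ε)) := by
    rw [← Real.rpow_natCast T m, ← Real.rpow_mul hT0.le]
  rw [h1]
  refine mul_le_mul_of_nonneg_right ?_ (by positivity)
  exact Real.rpow_le_rpow_of_exponent_le (one_le_pow₀ hc) (by linarith)

/-- two parameters with the exceptional ordinate -/
theorem two_params {μ : Fin n → ℂ} (hU : ∃ τ : Equiv.Perm (Fin n), ∀ i, μ (τ i) = -(starRingEnd ℂ) (μ i))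
    {k : Fin n} (hk : (μ k).re ≠ 0) : ∃ k', k' ≠ k ∧ (μ k').im = (μ k).im ∧ μ k' = -(starRingEnd ℂ) (μ k) := by
  obtain ⟨τ, hτ⟩ := hU
  refine ⟨τ k, ?_, ?_, hτ k⟩
  · intro h
    have h1 := hτ k
    rw [h] at h1
    have h2 := congrArg Complex.re h1
    simp at h2
    exact hk (by linarith)
  · rw [hτ]
    simp

theorem prod_pair (i i' : Fin n) (hne : i' ≠ i) (c d : ℝ) :
    ∏ k, (if k = i ∨ k = i' then c else d) = c ^ 2 * d ^ (n - 2) := by
  classical
  rw [Finset.prod_ite, Finset.prod_const, Finset.prod_const]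
  have h1 : (Finset.univ.filter fun k : Fin n => k = i ∨ k = i') = {i, i'} := by
    ext k
    simp
  have h2 : (Finset.univ.filter fun k : Fin n => k = i ∨ k = i').card = 2 := by
    rw [h1, Finset.card_pair (Ne.symm hne)]
  have h3 : (Finset.univ.filter fun k : Fin n => ¬ (k = i ∨ k = i')).card = n - 2 := by
    rw [Finset.filter_not, Finset.card_sdiff_of_subset (Finset.filter_subset _ _), h2, Finset.card_univ,
      Fintype.card_fin]
  rw [h2, h3]

/-- the conductor of two exceptional forms -/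
theorem cond_exc {a b : Fin n → ℝ} {T : ℝ} (hT : 1 ≤ T) (ha : ∀ k, |a k| ≤ 2 * T) (hb : ∀ l, |b l| ≤ 2 * T)
    {i i' j j' : Fin n} (hi : i' ≠ i) (hj : j' ≠ j) (ai : a i = 0) (ai' : a i' = 0) (bj : b j = 0) (bj' : b j' = 0) :
    ∏ k, ∏ l, (1 + |a k - b l|) ≤ (5 * T) ^ (n ^ 2 - 4) := by
  have hn : 2 ≤ n := by
    by_contra hcon
    have h1 : n = 0 ∨ n = 1 := by omega
    rcases h1 with rfl | rfl
    · exact i.elim0
    · exact hi (Subsingleton.elim _ _)
  have h5 : 1 ≤ 5 * T := by linarith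
  have hgen : ∀ k l, 1 + |a k - b l| ≤ 5 * T := by
    intro k l
    have h1 := abs_sub (a k) (b l)
    linarith [ha k, hb l]
  have hrow : ∀ k, ∏ l, (1 + |a k - b l|) ≤
      if k = i ∨ k = i' then (5 * T) ^ (n - 2) else (5 * T) ^ n := by
    intro k
    split_ifs with hk
    · have ak : a k = 0 := by
        rcases hk with rfl | rfl
        · exact ai
        · exact ai'
      calc ∏ l, (1 + |a k - b l|) ≤ ∏ l, (if l = j ∨ l = j' then (1 : ℝ) else 5 * T) := by
            refine Finset.prod_le_prod (fun l _ => by positivity) fun l _ => ?_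
            split_ifs with hl
            · have bl : b l = 0 := by
                rcases hl with rfl | rfl
                · exact bj
                · exact bj'
              rw [ak, bl]
              simp
            · exact hgen k l
        _ = (5 * T) ^ (n - 2) := by
            rw [prod_pair j j' hj]
            ring
    · calc ∏ l, (1 + |a k - b l|) ≤ ∏ _l : Fin n, (5 * T) :=
            Finset.prod_le_prod (fun l _ => by positivity) fun l _ => hgen k l
        _ = (5 * T) ^ n := by simp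
  calc ∏ k, ∏ l, (1 + |a k - b l|) ≤ ∏ k, (if k = i ∨ k = i' then (5 * T) ^ (n - 2) else (5 * T) ^ n) :=
        Finset.prod_le_prod (fun k _ => Finset.prod_nonneg fun l _ => by positivity) fun k _ => hrow k
    _ = (5 * T) ^ (n ^ 2 - 4) := by
        rw [prod_pair i i' hi, ← pow_mul, ← pow_mul, ← pow_add]
        congr 1
        obtain ⟨m, rfl⟩ : ∃ m, n = m + 2 := ⟨n - 2, by omega⟩
        have e1 : (m + 2) ^ 2 = m ^ 2 + 4 * m + 4 := by ring
        rw [e1]
        have e2 : m + 2 - 2 = m := by omega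
        have e3 : m ^ 2 + 4 * m + 4 - 4 = m ^ 2 + 4 * m := by omega
        rw [e2, e3]
        ring

/-- the real place, all forms with parameters up to `T` -/
theorem real_ball (hP : S_PAIR) (hDi : S_DIAG) (hn : 2 ≤ n) {ε : ℝ} (hε : 0 < ε) : ∃ A : ℝ, 0 < A ∧
    ∀ (ι : Type) (α : ι → Nat.Primes → Fin n → ℂ) (μ : ι → Fin n → ℂ), SphericalFamily α μ →
      ∀ δ T : ℝ, 0 < δ → 1 ≤ T →
        {f | (∀ k, |(μ f k).im| ≤ T) ∧ ∃ k, δ ≤ |(μ f k).re|}.Finite ∧
        ({f | (∀ k, |(μ f k).im| ≤ T) ∧ ∃ k, δ ≤ |(μ f k).re|}.ncard : ℝ) ≤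
          A * T ^ (((n ^ 2 - 4 : ℕ) : ℝ) * (dens δ + ε)) := by
  obtain ⟨A, hA0, hA⟩ := real_all (n := n) hP hDi hn hε
  refine ⟨A * (5 ^ (n ^ 2 - 4) : ℝ) ^ (1 + ε), by positivity, ?_⟩
  intro ι α μ h δ T hδ hT
  set S : Set ι := {f | (∀ k, |(μ f k).im| ≤ T) ∧ ∃ k, δ ≤ |(μ f k).re|} with hS
  rcases S.eq_empty_or_nonempty with hSe | ⟨f0, hf0⟩
  · rw [hSe]
    refine ⟨Set.finite_empty, ?_⟩
    rw [Set.ncard_empty]
    have : 0 ≤ A * (5 ^ (n ^ 2 - 4) : ℝ) ^ (1 + ε) * T ^ (((n ^ 2 - 4 : ℕ) : ℝ) * (dens δ + ε)) := by positivity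
    simpa using this
  have hδ2 : δ ≤ 1 / 2 := by
    obtain ⟨k, hk⟩ := hf0.2
    linarith [h.real_bound f0 k]
  have hex : ∀ f : ι, ∃ γ : ℝ, f ∈ S → ∃ i i', i' ≠ i ∧ (μ f i).im = γ ∧ (μ f i').im = γ ∧ δ ≤ |(μ f i).re| := by
    intro f
    by_cases hf : f ∈ S
    · obtain ⟨i, hi⟩ := hf.2
      obtain ⟨i', h1, h2, -⟩ := two_params (h.form f).unitary_real (k := i) (fun h0 => by
        rw [h0, abs_zero] at hi
        linarith)
      exact ⟨(μ f i).im, fun _ => ⟨i, i', h1, rfl, h2, hi⟩⟩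
    · exact ⟨0, fun hf' => absurd hf' hf⟩
  choose γ hγ using hex
  have hT5 : (1 : ℝ) ≤ (5 * T) ^ (n ^ 2 - 4) := one_le_pow₀ (by linarith)
  obtain ⟨h1, h2⟩ := hA ι α μ h δ ((5 * T) ^ (n ^ 2 - 4)) γ S hδ.le hT5
    (fun f hf => by
      obtain ⟨i, i', -, h3, -, h4⟩ := hγ f hf
      exact ⟨i, h3, h4⟩)
    (fun f hf g hg => by
      obtain ⟨i, i', hi, h3, h4, -⟩ := hγ f hf
      obtain ⟨j, j', hj, h5, h6, -⟩ := hγ g hg
      have hab : ∀ (f : ι), f ∈ S → ∀ k, |(μ f k).im - γ f| ≤ 2 * T := by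
        intro f hf k
        obtain ⟨i, i', hi, h3, h4, -⟩ := hγ f hf
        rw [← h3]
        have h7 := abs_sub (μ f k).im (μ f i).im
        linarith [hf.1 k, hf.1 i]
      exact cond_exc hT (a := fun k => (μ f k).im - γ f) (b := fun l => (μ g l).im - γ g) (hab f hf) (hab g hg)
        hi hj (by simp [h3]) (by simp [h4]) (by simp [h5]) (by simp [h6]))
  refine ⟨h1, h2.trans ?_⟩
  rw [mul_assoc]
  exact mul_le_mul_of_nonneg_left (rpow_const_mul (by norm_num) hT (dens_le_one hδ.le hδ2).2) hA0.le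

/-- the finite places, all forms with parameters up to `T` -/
theorem fin_ball (hP : S_PAIR) (hDi : S_DIAG) (hPP : S_PAIRP) (hn : 2 ≤ n) {ε : ℝ} (hε : 0 < ε) :
    ∃ A : ℝ, 0 < A ∧
    ∀ (ι : Type) (α : ι → Nat.Primes → Fin n → ℂ) (μ : ι → Fin n → ℂ), SphericalFamily α μ →
      ∀ (p : Nat.Primes) (δ T : ℝ), 0 ≤ δ → 1 ≤ T →
        {f | (∀ k, |(μ f k).im| ≤ T) ∧ ∃ k, δ ≤ |Real.logb ((p : ℕ) : ℝ) ‖α f p k‖|}.Finite ∧
        ({f | (∀ k, |(μ f k).im| ≤ T) ∧ ∃ k, δ ≤ |Real.logb ((p : ℕ) : ℝ) ‖α f p k‖|}.ncard : ℝ) ≤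
          A * (((p : ℕ) : ℝ) ^ 2 * T) ^ (((n ^ 2 : ℕ) : ℝ) * (dens δ + ε)) := by
  obtain ⟨A, hA0, hA⟩ := fin_all (n := n) hP hDi hPP hn hε
  refine ⟨A * (3 ^ (n ^ 2) : ℝ) ^ (1 + ε), by positivity, ?_⟩
  intro ι α μ h p δ T hδ hT
  have hp1 : (1 : ℝ) < ((p : ℕ) : ℝ) := by exact_mod_cast p.2.one_lt
  have hpT : 1 ≤ ((p : ℕ) : ℝ) ^ 2 * T := by
    have : (1 : ℝ) ≤ ((p : ℕ) : ℝ) ^ 2 := one_le_pow₀ hp1.le
    nlinarith
  set S : Set ι := {f | (∀ k, |(μ f k).im| ≤ T) ∧ ∃ k, δ ≤ |Real.logb ((p : ℕ) : ℝ) ‖α f p k‖|} with hS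
  rcases S.eq_empty_or_nonempty with hSe | ⟨f0, hf0⟩
  · rw [hSe]
    refine ⟨Set.finite_empty, ?_⟩
    rw [Set.ncard_empty]
    have : 0 ≤ A * (3 ^ (n ^ 2) : ℝ) ^ (1 + ε) * (((p : ℕ) : ℝ) ^ 2 * T) ^ (((n ^ 2 : ℕ) : ℝ) * (dens δ + ε)) := by
      positivity
    simpa using this
  have hδ2 : δ ≤ 1 / 2 := by
    obtain ⟨k, hk2⟩ := hf0.2
    have hub : ∀ i, Real.logb ((p : ℕ) : ℝ) ‖α f0 p i‖ ≤ 1 / 2 := by
      intro i
      have h2 : 0 < ‖α f0 p i‖ := norm_pos_iff.2 ((h.form f0).ne_zero p i)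
      rw [Real.logb_le_iff_le_rpow hp1 h2]
      exact (h.finite_bound f0 p i).le
    rcases le_total (Real.logb ((p : ℕ) : ℝ) ‖α f0 p k‖) 0 with h0 | h0
    · rw [abs_of_nonpos h0] at hk2
      obtain ⟨τ, hτ⟩ := (h.form f0).unitary p
      have h3 := hub (τ k)
      rw [hτ, norm_inv, RCLike.norm_conj, Real.logb_inv] at h3
      linarith
    · rw [abs_of_nonneg h0] at hk2
      linarith [hub k]
  have hT3 : (1 : ℝ) ≤ (3 * T) ^ (n ^ 2) := one_le_pow₀ (by linarith)
  obtain ⟨h1, h2⟩ := hA ι α μ h p δ ((3 * T) ^ (n ^ 2)) S hδ hT3 (fun f hf => hf.2)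
    (fun f hf g hg => by
      calc ∏ k, ∏ l, (1 + |(μ f k).im - (μ g l).im|) ≤ ∏ _k : Fin n, ∏ _l : Fin n, (3 * T) := by
            refine prod2_le (fun k l => by positivity) fun k l => ?_
            have h7 := abs_sub (μ f k).im (μ g l).im
            linarith [hf.1 k, hg.1 l]
        _ = (3 * T) ^ (n ^ 2) := by
            simp_rw [Finset.prod_const, Finset.card_univ, Fintype.card_fin]
            rw [← pow_mul, sq])
  refine ⟨h1, h2.trans ?_⟩
  have e1 : ((p : ℕ) : ℝ) ^ (2 * n ^ 2) * (3 * T) ^ (n ^ 2) = (3 * (((p : ℕ) : ℝ) ^ 2 * T)) ^ (n ^ 2) := by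
    rw [pow_mul, ← mul_pow]
    congr 1
    ring
  rw [e1, mul_assoc]
  exact mul_le_mul_of_nonneg_left (rpow_const_mul (by norm_num) hpT (dens_le_one hδ hδ2).2) hA0.le

/-- `n = 3`: exceptional forms at the real place in a unit window -/
theorem real_window (hP : S_PAIR) (hDi : S_DIAG) {ε : ℝ} (hε : 0 < ε) : ∃ A : ℝ, 0 < A ∧
    ∀ (ι : Type) (α : ι → Nat.Primes → Fin 3 → ℂ) (μ : ι → Fin 3 → ℂ), SphericalFamily α μ →
      (∀ f, ∑ i, μ f i = 0) → ∀ δ T : ℝ, 0 < δ →
        {f | ∃ k, |(μ f k).im - T| ≤ 1 ∧ δ ≤ |(μ f k).re|}.Finite ∧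
        ({f | ∃ k, |(μ f k).im - T| ≤ 1 ∧ δ ≤ |(μ f k).re|}.ncard : ℝ) ≤ A * (1 + |T|) ^ (4 * (dens δ + ε)) := by
  obtain ⟨A, hA0, hA⟩ := real_all (n := 3) hP hDi (by norm_num) hε
  refine ⟨A * ((7 * 4 ^ 4 : ℝ)) ^ (1 + ε), by positivity, ?_⟩
  intro ι α μ h hsum δ T hδ
  set S : Set ι := {f | ∃ k, |(μ f k).im - T| ≤ 1 ∧ δ ≤ |(μ f k).re|} with hS
  have hT1 : 1 ≤ 1 + |T| := by linarith [abs_nonneg T]
  rcases S.eq_empty_or_nonempty with hSe | ⟨f0, hf0⟩
  · rw [hSe]
    refine ⟨Set.finite_empty, ?_⟩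
    rw [Set.ncard_empty]
    have : 0 ≤ A * ((7 * 4 ^ 4 : ℝ)) ^ (1 + ε) * (1 + |T|) ^ (4 * (dens δ + ε)) := by positivity
    simpa using this
  have hδ2 : δ ≤ 1 / 2 := by
    obtain ⟨k, -, hk⟩ := hf0
    linarith [h.real_bound f0 k]
  -- the shape of the parameters
  have hex : ∀ f : ι, ∃ (γ : ℝ) (i i' : Fin 3), f ∈ S → i' ≠ i ∧ |γ - T| ≤ 1 ∧ (μ f i).im = γ ∧
      (μ f i').im = γ ∧ δ ≤ |(μ f i).re| ∧ ∀ m, m ≠ i → m ≠ i' → (μ f m).im = -2 * γ := by
    intro f
    by_cases hf : f ∈ S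
    · obtain ⟨i, hi0, hi⟩ := hf
      obtain ⟨i', h1, h2, h3⟩ := two_params (h.form f).unitary_real (k := i) (fun h0 => by
        rw [h0, abs_zero] at hi
        linarith)
      refine ⟨(μ f i).im, i, i', fun _ => ⟨h1, hi0, rfl, h2, hi, fun m hm hm' => ?_⟩⟩
      have h4 := hsum f
      have h5 : (μ f m).im + (μ f i).im + (μ f i').im = 0 := by
        have h6 : ∑ j, (μ f j).im = 0 := by
          have := congrArg Complex.im h4
          simpa using this
        have h7 : ∑ j, (μ f j).im = (μ f m).im + (μ f i).im + (μ f i').im := by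
          have h8 : (Finset.univ : Finset (Fin 3)) = {m, i, i'} := by
            symm
            rw [← Finset.card_eq_iff_eq_univ, Finset.card_eq_three.2 ⟨m, i, i', hm, hm', Ne.symm h1, rfl⟩]
            rfl
          rw [h8, Finset.sum_insert (by simp [hm, hm']), Finset.sum_pair (Ne.symm h1)]
          ring
        rw [← h7, h6]
      rw [h2] at h5
      linarith
    · exact ⟨0, 0, 0, fun hf' => absurd hf' hf⟩
  choose γ i i' hγ using hex
  have hTT : (1 : ℝ) ≤ 7 * (4 * (1 + |T|)) ^ 4 := by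
    have : (1 : ℝ) ≤ (4 * (1 + |T|)) ^ 4 := one_le_pow₀ (by linarith)
    linarith
  obtain ⟨h1, h2⟩ := hA ι α μ h δ (7 * (4 * (1 + |T|)) ^ 4) γ S hδ.le hTT
    (fun f hf => ⟨i f, (hγ f hf).2.2.1, (hγ f hf).2.2.2.2.1⟩)
    (fun f hf g hg => by
      obtain ⟨hi, hγT, h3, h4, -, h5⟩ := hγ f hf
      obtain ⟨hj, hγT', h6, h7, -, h8⟩ := hγ g hg
      have hbd : ∀ γ' : ℝ, |γ' - T| ≤ 1 → 1 + |-2 * γ' - γ'| ≤ 4 * (1 + |T|) := by
        intro γ' hγ'
        have e1 : -2 * γ' - γ' = -3 * γ' := by ring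
        rw [e1, abs_mul]
        have e2 : |γ'| ≤ |γ' - T| + |T| := by
          have := abs_add_le (γ' - T) T
          rwa [sub_add_cancel] at this
        have e3 : |(-3 : ℝ)| = 3 := by norm_num
        rw [e3]
        linarith
      have hnn : (1 : ℝ) ≤ 4 * (1 + |T|) := by linarith
      have hrow1 : ∀ k, (k = i f ∨ k = i' f) → ∏ l, (1 + |((μ f k).im - γ f) - ((μ g l).im - γ g)|) ≤
          4 * (1 + |T|) := by
        intro k hk
        have ak : (μ f k).im - γ f = 0 := by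
          rcases hk with rfl | rfl
          · rw [h3, sub_self]
          · rw [h4, sub_self]
        calc _ ≤ ∏ l, (if l = i g ∨ l = i' g then (1 : ℝ) else 4 * (1 + |T|)) := by
              refine Finset.prod_le_prod (fun l _ => by positivity) fun l _ => ?_
              split_ifs with hl
              · have bl : (μ g l).im - γ g = 0 := by
                  rcases hl with rfl | rfl
                  · rw [h6, sub_self]
                  · rw [h7, sub_self]
                rw [ak, bl]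
                simp
              · push Not at hl
                rw [ak, h8 l hl.1 hl.2, zero_sub, abs_neg]
                exact hbd _ hγT'
          _ = 4 * (1 + |T|) := by
              rw [prod_pair (i g) (i' g) hj]
              norm_num
      have hrow2 : ∀ k, ¬ (k = i f ∨ k = i' f) → ∏ l, (1 + |((μ f k).im - γ f) - ((μ g l).im - γ g)|) ≤
          (4 * (1 + |T|)) ^ 2 * 7 := by
        intro k hk
        push Not at hk
        calc _ ≤ ∏ l, (if l = i g ∨ l = i' g then 4 * (1 + |T|) else 7) := by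
              refine Finset.prod_le_prod (fun l _ => by positivity) fun l _ => ?_
              rw [h5 k hk.1 hk.2]
              split_ifs with hl
              · have bl : (μ g l).im - γ g = 0 := by
                  rcases hl with rfl | rfl
                  · rw [h6, sub_self]
                  · rw [h7, sub_self]
                rw [bl, sub_zero]
                exact hbd _ hγT
              · push Not at hl
                rw [h8 l hl.1 hl.2]
                have e1 : (-2 * γ f - γ f) - (-2 * γ g - γ g) = -3 * ((γ f - T) - (γ g - T)) := by ring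
                rw [e1, abs_mul]
                have e2 := abs_sub (γ f - T) (γ g - T)
                have e3 : |(-3 : ℝ)| = 3 := by norm_num
                rw [e3]
                linarith
          _ = (4 * (1 + |T|)) ^ 2 * 7 := by
              rw [prod_pair (i g) (i' g) hj]
              norm_num
      calc ∏ k, ∏ l, (1 + |((μ f k).im - γ f) - ((μ g l).im - γ g)|) ≤
            ∏ k, (if k = i f ∨ k = i' f then 4 * (1 + |T|) else (4 * (1 + |T|)) ^ 2 * 7) := by
            refine Finset.prod_le_prod (fun k _ => Finset.prod_nonneg fun l _ => by positivity) fun k _ => ?_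
            split_ifs with hk
            · exact hrow1 k hk
            · exact hrow2 k hk
        _ = 7 * (4 * (1 + |T|)) ^ 4 := by
            rw [prod_pair (i f) (i' f) hi]
            norm_num
            ring)
  refine ⟨h1, h2.trans ?_⟩
  have hd := dens_le_one hδ.le hδ2
  have e1 : (7 * (4 * (1 + |T|)) ^ 4) ^ (dens δ + ε) =
      ((7 * 4 ^ 4 : ℝ)) ^ (dens δ + ε) * (1 + |T|) ^ (4 * (dens δ + ε)) := by
    have e2 : 7 * (4 * (1 + |T|)) ^ 4 = (7 * 4 ^ 4) * (1 + |T|) ^ (4 : ℕ) := by ring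
    rw [e2, Real.mul_rpow (by positivity) (by positivity), ← Real.rpow_natCast (1 + |T|) 4,
      ← Real.rpow_mul (by positivity)]
    norm_num
  rw [e1, mul_assoc]
  refine mul_le_mul_of_nonneg_left (mul_le_mul_of_nonneg_right ?_ (by positivity)) hA0.le
  exact Real.rpow_le_rpow_of_exponent_le (by norm_num) (by linarith [hd.2])

end Pool.Agent.N846.DT
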