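import Pool.Agent.N846.DT.Core

/-! The density bound at the real place and at the finite places, one line of integration. -/

set_option autoImplicit false

namespace Pool.Agent.N846.DT

open Filter Topology Complex MeasureTheory Set
open Pool.Agent.TH949.RES (SphericalCuspForm)

variable {n : ℕ}

theorem LX_nonneg (x : PX) : 0 ≤ LX x := by
  unfold LX
  have h1 : (1 : ℝ) ≤ ((x.1 : ℕ) : ℝ) := by exact_mod_cast x.1.2.one_lt.le
  have := Real.log_nonneg h1
  positivity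

theorem prod2_le {a b : Fin n → Fin n → ℝ} (h0 : ∀ i j, 0 ≤ a i j) (h : ∀ i j, a i j ≤ b i j) :
    ∏ i, ∏ j, a i j ≤ ∏ i, ∏ j, b i j :=
  Finset.prod_le_prod (fun i _ => Finset.prod_nonneg fun j _ => h0 i j) fun i _ =>
    Finset.prod_le_prod (fun j _ => h0 i j) fun j _ => h i j

theorem prod2_const_mul (c : ℝ) (a : Fin n → Fin n → ℝ) :
    ∏ i, ∏ j, (c * a i j) = c ^ (n ^ 2) * ∏ i, ∏ j, a i j := by
  simp_rw [Finset.prod_mul_distrib, Finset.prod_const, Finset.card_univ, Fintype.card_fin]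
  rw [← pow_mul, sq]

theorem one_le_prod2 {a : Fin n → Fin n → ℝ} (h : ∀ i j, 1 ≤ a i j) : 1 ≤ ∏ i, ∏ j, a i j := by
  have h1 := prod2_le (a := fun _ _ => (1 : ℝ)) (b := a) (fun _ _ => zero_le_one) h
  simpa using h1

/-- the conductor of a form and itself -/
theorem cond_self {μ : Fin n → ℂ} (hμ : ∀ i, |(μ i).re| < 1 / 2) {Q : ℝ}
    (hQ : ∏ k, ∏ l, (1 + |(μ k).im - (μ l).im|) ≤ Q) :
    ∏ i, ∏ j, (1 + ‖μ i - μ j‖) ≤ 2 ^ (n ^ 2) * Q := by
  calc ∏ i, ∏ j, (1 + ‖μ i - μ j‖) ≤ ∏ i, ∏ j, (2 * (1 + |(μ i).im - (μ j).im|)) := by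
        refine prod2_le (fun i j => by positivity) fun i j => ?_
        have h1 := Complex.norm_le_abs_re_add_abs_im (μ i - μ j)
        rw [sub_re, sub_im] at h1
        have h2 := abs_lt.1 (hμ i)
        have h3 := abs_lt.1 (hμ j)
        have h4 : |(μ i).re - (μ j).re| ≤ 1 := by
          rw [abs_le]
          constructor <;> linarith [h2.1, h2.2, h3.1, h3.2]
        have := abs_nonneg ((μ i).im - (μ j).im)
        linarith
    _ = 2 ^ (n ^ 2) * ∏ i, ∏ j, (1 + |(μ i).im - (μ j).im|) := prod2_const_mul _ _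
    _ ≤ _ := mul_le_mul_of_nonneg_left hQ (by positivity)

theorem half_exp {a b X : ℝ} (ha : Real.exp a ≤ X) (hb : Real.exp b ≤ X) : Real.exp (a / 2 + b / 2) ≤ X := by
  rcases le_total a b with h | h
  · exact (Real.exp_le_exp.2 (by linarith)).trans hb
  · exact (Real.exp_le_exp.2 (by linarith)).trans ha

/-- the constant in the size of the `L`-functions -/
theorem real_core (hP : S_PAIR) (hDi : S_DIAG) (hn : 2 ≤ n) {σ₀ η η' : ℝ} (hσ : 0 < σ₀) (hη : 0 < η)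
    (hη1 : η ≤ 1) (hη' : 0 < η') : ∃ A : ℝ, 0 < A ∧
    ∀ (ι : Type) [Fintype ι] (α : ι → Nat.Primes → Fin n → ℂ) (μ : ι → Fin n → ℂ), SphericalFamily α μ →
      ∀ (δ Q : ℝ) (γ : ι → ℝ), 0 ≤ δ → δ ≤ 1 / 2 → 1 ≤ Q →
        (∀ f, ∃ k, (μ f k).im = γ f ∧ δ ≤ |(μ f k).re|) →
        (∀ f g, ∏ k, ∏ l, (1 + |((μ f k).im - γ f) - ((μ g l).im - γ g)|) ≤ Q) →
        (Fintype.card ι : ℝ) ≤ A * Q ^ ex σ₀ η η' δ := by
  obtain ⟨CP, hCP0, hCP⟩ := hP n σ₀ hσ
  obtain ⟨C1, hC10, hC1⟩ := hDi n hn η η' hη hη'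
  obtain ⟨C2, hC20, hC2⟩ := hDi n hn σ₀ η' hσ hη'
  obtain ⟨A, hA0, hA⟩ := core_gen σ₀ η η' (CP * (C2 * (2 ^ (n ^ 2) : ℝ) ^ η')) (C1 * (2 ^ (n ^ 2) : ℝ) ^ η')
    ((n ^ 2 : ℕ) * (1 / 2 + σ₀)) hσ hη hη1 hη'.le (by positivity) (by positivity) (by positivity)
  refine ⟨A, hA0, ?_⟩
  intro ι _ α μ h δ Q γ hδ hδ2 hQ hk hcond
  have hQ0 : 0 < Q := by linarith
  -- the exceptional parameters
  have hi : ∀ f, ∃ i, (μ f i).im = γ f ∧ (μ f i).re ≤ -δ := by
    intro f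
    obtain ⟨k, hk1, hk2⟩ := hk f
    rcases le_total (μ f k).re 0 with h0 | h0
    · rw [abs_of_nonpos h0] at hk2
      exact ⟨k, hk1, by linarith⟩
    · rw [abs_of_nonneg h0] at hk2
      obtain ⟨τ, hτ⟩ := (h.form f).unitary_real
      refine ⟨τ k, ?_, ?_⟩
      · rw [hτ]
        simp [hk1]
      · rw [hτ]
        simp only [neg_re, conj_re]
        linarith
  choose i hi1 hi2 using hi
  have hself : ∀ f, ∏ i, ∏ j, (1 + ‖μ f i - μ f j‖) ≤ 2 ^ (n ^ 2) * Q := fun f =>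
    cond_self (h.real_bound f) (by
      refine le_trans (le_of_eq ?_) (hcond f f)
      refine Finset.prod_congr rfl fun k _ => Finset.prod_congr rfl fun l _ => ?_
      congr 2
      ring)
  have hself1 : ∀ f, 1 ≤ ∏ i, ∏ j, (1 + ‖μ f i - μ f j‖) := fun f =>
    one_le_prod2 fun i j => by linarith [norm_nonneg (μ f i - μ f j)]
  have hpow : ∀ f, (∏ i, ∏ j, (1 + ‖μ f i - μ f j‖)) ^ η' ≤ (2 ^ (n ^ 2) : ℝ) ^ η' * Q ^ η' := by
    intro f
    rw [← Real.mul_rpow (by positivity) hQ0.le]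
    exact Real.rpow_le_rpow (by linarith [hself1 f]) (hself f) hη'.le
  have hD1 := fun f => hC1 (α f) (μ f) (h.form f) (h.finite_bound f) (h.real_bound f)
  have hD2 := fun f => hC2 (α f) (μ f) (h.form f) (h.finite_bound f) (h.real_bound f)
  have hpair := fun f g (hfg : f ≠ g) => hCP (α f) (α g) (μ f) (μ g) (h.form f) (h.form g) (h.real_bound f)
    (h.real_bound g) (h.pair f g hfg)
  choose! F hF1 hF2 hF3 using hpair
  set s : ι → ℂ := fun f => -μ f (i f) with hs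
  have him : ∀ f g, (s f + (starRingEnd ℂ) (s g)).im = γ g - γ f := by
    intro f g
    simp [hs, hi1]
    ring
  refine hA PX ι (fun f => uX (α f)) LX s F δ Q LX_nonneg hδ hδ2 hQ ?_ ?_ ?_ ?_ ?_ ?_ ?_
  · intro f
    simp only [hs, neg_re]
    linarith [hi2 f]
  · intro f
    simp only [hs, neg_re]
    have := (abs_lt.1 (h.real_bound f (i f))).1
    linarith
  · exact fun f => (hD1 f).1
  · intro f
    refine (hD1 f).2.trans ?_
    rw [mul_assoc]
    exact mul_le_mul_of_nonneg_left (hpow f) hC10.le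
  · exact fun f g hfg => hF1 f g hfg
  · intro f g hfg
    obtain ⟨τ, hτ⟩ := (h.form g).unitary_real
    have := hF2 f g hfg (i f) (τ (i g))
    rw [hτ] at this
    rw [← this]
    congr 1
    simp only [hs, map_neg]
    ring
  · intro f g hfg v
    have h1 := hF3 f g hfg ((s f + (starRingEnd ℂ) (s g)).im + v)
    refine h1.trans ?_
    rw [him]
    have e1 : ∏ k, ∏ l, (1 + |(γ g - γ f + v) + (μ f k - μ g l).im|) ≤ Q * (1 + |v|) ^ (n ^ 2) := by
      calc _ ≤ ∏ k, ∏ l, ((1 + |v|) * (1 + |((μ f k).im - γ f) - ((μ g l).im - γ g)|)) := by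
            refine prod2_le (fun k l => by positivity) fun k l => ?_
            have e2 : (γ g - γ f + v) + (μ f k - μ g l).im = (((μ f k).im - γ f) - ((μ g l).im - γ g)) + v := by
              rw [sub_im]
              ring
            rw [e2]
            have e3 := abs_add_le (((μ f k).im - γ f) - ((μ g l).im - γ g)) v
            nlinarith [abs_nonneg v, abs_nonneg (((μ f k).im - γ f) - ((μ g l).im - γ g))]
        _ = (1 + |v|) ^ (n ^ 2) * ∏ k, ∏ l, (1 + |((μ f k).im - γ f) - ((μ g l).im - γ g)|) :=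
            prod2_const_mul _ _
        _ ≤ (1 + |v|) ^ (n ^ 2) * Q := mul_le_mul_of_nonneg_left (hcond f g) (by positivity)
        _ = _ := mul_comm _ _
    have e4 : (∏ k, ∏ l, (1 + |(γ g - γ f + v) + (μ f k - μ g l).im|)) ^ (1 / 2 + σ₀) ≤
        Q ^ (1 / 2 + σ₀) * (1 + |v|) ^ ((n ^ 2 : ℕ) * (1 / 2 + σ₀)) := by
      refine (Real.rpow_le_rpow (Finset.prod_nonneg fun k _ => Finset.prod_nonneg fun l _ => by positivity)
        e1 (by linarith)).trans (le_of_eq ?_)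
      rw [Real.mul_rpow hQ0.le (by positivity), ← Real.rpow_natCast (1 + |v|) (n ^ 2),
        ← Real.rpow_mul (by positivity)]
    have e5 : Real.exp ((∑' x : PX, ‖uX (α f) x‖ ^ 2 * Real.exp (-((1 + σ₀) * LX x))) / 2 +
        (∑' x : PX, ‖uX (α g) x‖ ^ 2 * Real.exp (-((1 + σ₀) * LX x))) / 2) ≤
        C2 * (2 ^ (n ^ 2) : ℝ) ^ η' * Q ^ η' := by
      rw [mul_assoc]
      exact half_exp ((hD2 f).2.trans (mul_le_mul_of_nonneg_left (hpow f) hC20.le))
        ((hD2 g).2.trans (mul_le_mul_of_nonneg_left (hpow g) hC20.le))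
    calc _ ≤ CP * (Q ^ (1 / 2 + σ₀) * (1 + |v|) ^ ((n ^ 2 : ℕ) * (1 / 2 + σ₀))) *
          (C2 * (2 ^ (n ^ 2) : ℝ) ^ η' * Q ^ η') := by
          refine mul_le_mul (mul_le_mul_of_nonneg_left e4 hCP0.le) e5 (Real.exp_pos _).le (by positivity)
      _ = CP * (C2 * (2 ^ (n ^ 2) : ℝ) ^ η') * (Q ^ (1 / 2 + σ₀) * Q ^ η') *
          (1 + |v|) ^ ((n ^ 2 : ℕ) * (1 / 2 + σ₀)) := by ring
      _ = _ := by rw [← Real.rpow_add hQ0]

end Pool.Agent.N846.DT
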