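import Pool.Agent.TH949.UL.PGL
import Pool.Agent.TH949.LT.Abs

/-!
# A density theorem for the violations of the Ramanujan conjecture: definitions and statements of the parts

`N846/DT`: project of helper846, problem `MP_fa98d2_nt`.
-/

set_option autoImplicit false

namespace Pool.Agent.N846.DT

open Complex MeasureTheory
open Pool.Agent.TH949.RES (SphericalCuspForm)
open Pool.Agent.TH949.LT (TT Lam VV EE)

/-- the index set of the prime powers: `(p, k)` stands for `p ^ (k + 1)` -/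
abbrev PX := Nat.Primes × ℕ

/-- `log (p ^ (k + 1))` -/
noncomputable def LX (x : PX) : ℝ := ((x.2 : ℝ) + 1) * Real.log ((x.1 : ℕ) : ℝ)

variable {n : ℕ}

/-- the normalised power sums of the Satake parameters: `u(p^k) = (∑_i α_{i,p}^k) / √k` -/
noncomputable def uX (α : Nat.Primes → Fin n → ℂ) (x : PX) : ℂ :=
  (∑ i, α x.1 i ^ (x.2 + 1)) / ((Real.sqrt ((x.2 : ℝ) + 1) : ℝ) : ℂ)

/-- the same without the prime `p` -/
noncomputable def uP (p : Nat.Primes) (α : Nat.Primes → Fin n → ℂ) (x : PX) : ℂ :=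
  if x.1 = p then 0 else uX α x

/-- `log L(s, π × π'~) = ∑_p ∑_{k ≥ 1} (∑_i α_{i,p}^k) (∑_i conj β_{i,p}^k) / (k p^{ks})`; the pair `(p, k)` stands
for the exponent `k + 1` -/
noncomputable def logP (α β : Nat.Primes → Fin n → ℂ) (s : ℂ) : ℂ :=
  ∑' x : Nat.Primes × ℕ, (∑ i, α x.1 i ^ (x.2 + 1)) * (starRingEnd ℂ) (∑ i, β x.1 i ^ (x.2 + 1)) /
    ((x.2 : ℂ) + 1) * (((x.1 : ℕ) : ℂ) ^ (-s)) ^ (x.2 + 1)

/-- The Rankin-Selberg `L`-function of two different spherical cusp forms with Satake parameters `α`, `β` and Langlands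
parameters `μ`, `ν`: `F(s) = L(s, π × π'~)` is entire and of polynomial growth in vertical strips, and
`Ξ(s) = L(s, π × π'~) ∏ Γ_ℝ(s + μ_i - ν_j)` is entire and satisfies the functional equation
`Ξ(1 - s) = conj (Ξ (conj s))`, the completed `L`-function of the contragredient `π~ × π'`. -/
structure DistinctPair (α β : Nat.Primes → Fin n → ℂ) (μ ν : Fin n → ℂ) : Prop where
  continuation : ∃ F Ξ : ℂ → ℂ, Differentiable ℂ F ∧ Differentiable ℂ Ξ ∧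
    (∀ s : ℂ, 1 < s.re → F s = Complex.exp (logP α β s)) ∧
    (∀ a b : ℝ, ∃ C A : ℝ, ∀ s : ℂ, a ≤ s.re → s.re ≤ b → ‖F s‖ ≤ C * (1 + |s.im|) ^ A) ∧
    (∀ s : ℂ, 1 < s.re → Ξ s = F s * ∏ i, ∏ j, Complex.Gammaℝ (s + (μ i - ν j))) ∧
    ∀ s : ℂ, Ξ (1 - s) = (starRingEnd ℂ) (Ξ ((starRingEnd ℂ) s))

/-- A family of pairwise different spherical cusp forms on `PGL_n` over `ℚ`. -/
structure SphericalFamily {ι : Type} (α : ι → Nat.Primes → Fin n → ℂ) (μ : ι → Fin n → ℂ) : Prop where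
  /-- every member is a spherical cusp form -/
  form : ∀ f, SphericalCuspForm (α f) (μ f)
  /-- the bounds of Jacquet and Shalika -/
  finite_bound : ∀ f (p : Nat.Primes) i, ‖α f p i‖ < ((p : ℕ) : ℝ) ^ (1 / 2 : ℝ)
  real_bound : ∀ f i, |(μ f i).re| < 1 / 2
  /-- the Rankin-Selberg `L`-functions of different members -/
  pair : ∀ f g, f ≠ g → DistinctPair (α f) (α g) (μ f) (μ g)

/-- an entire function of polynomial growth, in `Re s ≥ 3` given by the Dirichlet series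
`exp (∑ u(x) conj v(x) exp (-s L(x)))` -/
structure PairF {X : Type} (u v : X → ℂ) (L : X → ℝ) (F : ℂ → ℂ) : Prop where
  diff : Differentiable ℂ F
  eq : ∀ s : ℂ, 3 ≤ s.re → F s = Complex.exp (∑' x, u x * (starRingEnd ℂ) (v x) * Complex.exp (-(s * (L x : ℂ))))
  growth : ∀ a b : ℝ, ∃ C A : ℝ, ∀ s : ℂ, a ≤ s.re → s.re ≤ b → ‖F s‖ ≤ C * (1 + |s.im|) ^ A

/-- GAM: the quotient of two Gamma factors -/
def S_GAM : Prop := ∀ σ₀ : ℝ, 0 < σ₀ → ∃ C : ℝ, 0 < C ∧ ∀ z : ℂ, -1 - σ₀ ≤ z.re → z.re ≤ 1 →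
  ‖Complex.Gammaℝ (z + ((1 + 2 * σ₀ : ℝ) : ℂ)) * (Complex.Gammaℝ z)⁻¹‖ ≤ C * (1 + |z.im|) ^ (1 / 2 + σ₀)

/-- DIAG: the Rankin-Selberg `L`-function `L(s, π × π~)` to the right of `s = 1` -/
def S_DIAG : Prop := ∀ n : ℕ, 2 ≤ n → ∀ η ε : ℝ, 0 < η → 0 < ε → ∃ C : ℝ, 0 < C ∧
  ∀ (α : Nat.Primes → Fin n → ℂ) (μ : Fin n → ℂ), SphericalCuspForm α μ →
    (∀ (p : Nat.Primes) i, ‖α p i‖ < ((p : ℕ) : ℝ) ^ (1 / 2 : ℝ)) → (∀ i, |(μ i).re| < 1 / 2) →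
    Summable (fun x : PX => ‖uX α x‖ ^ 2 * Real.exp (-((1 + η) * LX x))) ∧
    Real.exp (∑' x : PX, ‖uX α x‖ ^ 2 * Real.exp (-((1 + η) * LX x))) ≤
      C * (∏ i, ∏ j, (1 + ‖μ i - μ j‖)) ^ ε

/-- PAIR: the Rankin-Selberg `L`-function of two different forms: trivial zeros and size on the left -/
def S_PAIR : Prop := ∀ (n : ℕ) (σ₀ : ℝ), 0 < σ₀ → ∃ C : ℝ, 0 < C ∧
  ∀ (α β : Nat.Primes → Fin n → ℂ) (μ ν : Fin n → ℂ), SphericalCuspForm α μ → SphericalCuspForm β ν →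
    (∀ i, |(μ i).re| < 1 / 2) → (∀ i, |(ν i).re| < 1 / 2) → DistinctPair α β μ ν →
    ∃ F : ℂ → ℂ, PairF (uX α) (uX β) LX F ∧ (∀ i j, F (-(μ i - ν j)) = 0) ∧
      ∀ t : ℝ, ‖F (((-σ₀ : ℝ) : ℂ) + t * I)‖ ≤
        C * (∏ i, ∏ j, (1 + |t + (μ i - ν j).im|)) ^ (1 / 2 + σ₀) *
          Real.exp ((∑' x : PX, ‖uX α x‖ ^ 2 * Real.exp (-((1 + σ₀) * LX x))) / 2 +
            (∑' x : PX, ‖uX β x‖ ^ 2 * Real.exp (-((1 + σ₀) * LX x))) / 2)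

/-- PAIRP: removing the Euler factor at a prime `p` -/
def S_PAIRP : Prop := ∀ (n : ℕ) (p : Nat.Primes) (α β : Nat.Primes → Fin n → ℂ) (F : ℂ → ℂ),
  (∀ (q : Nat.Primes) i, ‖α q i‖ < ((q : ℕ) : ℝ) ^ (1 / 2 : ℝ)) →
  (∀ (q : Nat.Primes) i, ‖β q i‖ < ((q : ℕ) : ℝ) ^ (1 / 2 : ℝ)) → PairF (uX α) (uX β) LX F →
  PairF (uP p α) (uP p β) LX (fun s => F s * ∏ i, ∏ j,
    (1 - α p i * (starRingEnd ℂ) (β p j) * Complex.exp (-(s * (Real.log ((p : ℕ) : ℝ) : ℂ)))))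

/-- MASTER: Halász-Montgomery with zeros -/
def S_MASTER : Prop := ∀ (σ₀ η : ℝ) (K : ℝ), 0 < σ₀ → 0 < η → η ≤ 1 → 0 ≤ K → ∃ C : ℝ, 0 < C ∧
  ∀ (X ι : Type) [Countable X] [Fintype ι] (u : ι → X → ℂ) (L : X → ℝ) (s : ι → ℂ) (F : ι → ι → ℂ → ℂ)
    (δ y B D : ℝ), (∀ x, 0 ≤ L x) → 0 ≤ δ → (∀ f, δ ≤ (s f).re) → (∀ f, (s f).re ≤ 1 / 2) → 0 ≤ B → 0 ≤ D →
    (∀ f, Summable fun x => ‖u f x‖ ^ 2 * Real.exp (-((1 + η) * L x))) →
    (∀ f, Real.exp (∑' x, ‖u f x‖ ^ 2 * Real.exp (-((1 + η) * L x))) ≤ D) →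
    (∀ f g, f ≠ g → PairF (u f) (u g) L (F f g)) →
    (∀ f g, f ≠ g → F f g (s f + (starRingEnd ℂ) (s g)) = 0) →
    (∀ f g, f ≠ g → ∀ v : ℝ,
      ‖F f g (((-σ₀ : ℝ) : ℂ) + ((s f + (starRingEnd ℂ) (s g)).im + v : ℝ) * I)‖ ≤ B * (1 + |v|) ^ K) →
    0 ≤ y → C * B * Real.exp (-(σ₀ + 2 * δ) * y) ≤ 1 →
    (Fintype.card ι : ℝ) ≤ C * D * Real.exp ((1 - 2 * δ + η) * y)

/-- the exponent -/
noncomputable def dens (δ : ℝ) : ℝ := (1 - 2 * δ) / max 1 (4 * δ)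

end Pool.Agent.N846.DT
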